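import Pool.Agent.Helper813.DC.Defs

set_option autoImplicit false

namespace DC813
namespace A1
open Finset


private theorem split_sum {α : Type} [DecidableEq α] (E : Finset α) (e : α) (he : e ∈ E)
    (f : Finset α → ℤ) : ∑ X ∈ E.powerset, f X =
      ∑ X ∈ (E.erase e).powerset, f X + ∑ X ∈ (E.erase e).powerset, f (insert e X) := by
  have h := Finset.sum_powerset_insert (Finset.notMem_erase e E) f
  rwa [Finset.insert_erase he] at h

private theorem mu_eq {α : Type} [DecidableEq α] (r : Finset α → ℕ) (E : Finset α) :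
    mu r E = ∑ X ∈ E.powerset, if r X = r E then (-1 : ℤ) ^ (r E) * (-1) ^ X.card else 0 := by
  unfold mu
  rw [Finset.mul_sum, Finset.sum_filter]

private theorem beta_eq {α : Type} [DecidableEq α] (r : Finset α → ℕ) (E : Finset α) :
    beta r E = ∑ X ∈ E.powerset, (-1 : ℤ) ^ (r E) * ((-1) ^ X.card * (r X : ℤ)) := by
  unfold beta
  rw [Finset.mul_sum]

private theorem card_ins {α : Type} [DecidableEq α] (E X : Finset α) (e : α)
    (hX : X ∈ (E.erase e).powerset) : (insert e X).card = X.card + 1 := by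
  rw [Finset.card_insert_of_notMem]
  intro h
  exact Finset.notMem_erase e E (Finset.mem_powerset.1 hX h)

theorem mu_rec {α : Type} [DecidableEq α] (r r' : Finset α → ℕ) (E : Finset α) (e : α)
    (he : e ∈ E) (h0 : r (E.erase e) = r E)
    (h1 : ∀ X ⊆ E.erase e, r' X + 1 = r (insert e X)) :
    mu r E = mu r (E.erase e) + mu r' (E.erase e) := by
  rw [mu_eq, mu_eq, mu_eq, split_sum E e he, h0]
  congr 1
  have h2 := h1 (E.erase e) (subset_refl _)
  rw [insert_erase he] at h2
  refine Finset.sum_congr rfl fun X hX => ?_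
  have h3 := h1 X (Finset.mem_powerset.1 hX)
  rw [card_ins E X e hX, ← h3, ← h2]
  by_cases h4 : r' X = r' (E.erase e)
  · rw [if_pos h4, if_pos (by rw [h4])]
    ring
  · rw [if_neg h4, if_neg (by omega)]

theorem beta_rec {α : Type} [DecidableEq α] (r r' : Finset α → ℕ) (E : Finset α) (e : α)
    (he : e ∈ E) (hne : (E.erase e).Nonempty) (h0 : r (E.erase e) = r E)
    (h1 : ∀ X ⊆ E.erase e, r' X + 1 = r (insert e X)) :
    beta r E = beta r (E.erase e) + beta r' (E.erase e) := by
  rw [beta_eq, beta_eq, beta_eq, split_sum E e he, h0]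
  congr 1
  have h2 := h1 (E.erase e) (subset_refl _)
  rw [insert_erase he] at h2
  have h5 := Finset.sum_powerset_neg_one_pow_card_of_nonempty hne
  have h6 : ∑ X ∈ (E.erase e).powerset, (-1 : ℤ) ^ (r E) * ((-1) ^ (insert e X).card *
      (r (insert e X) : ℤ)) = ∑ X ∈ (E.erase e).powerset, ((-1 : ℤ) ^ (r' (E.erase e)) *
        ((-1) ^ X.card * (r' X : ℤ)) + (-1) ^ (r' (E.erase e)) * (-1) ^ X.card) := by
    refine Finset.sum_congr rfl fun X hX => ?_
    have h3 := h1 X (Finset.mem_powerset.1 hX)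
    rw [card_ins E X e hX, ← h3, ← h2]
    push_cast
    ring
  have h7 : ∑ X ∈ (E.erase e).powerset, (-1 : ℤ) ^ (r' (E.erase e)) * (-1) ^ X.card = 0 := by
    rw [← Finset.mul_sum, h5, mul_zero]
  rw [h6, Finset.sum_add_distrib, h7, add_zero]

theorem mu_loop {α : Type} [DecidableEq α] (r : Finset α → ℕ) (E : Finset α) (e : α)
    (he : e ∈ E) (h : ∀ X ⊆ E.erase e, r (insert e X) = r X) :
    mu r E = 0 ∧ beta r E = 0 := by
  constructor
  · rw [mu_eq, split_sum E e he, ← Finset.sum_add_distrib]
    refine Finset.sum_eq_zero fun X hX => ?_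
    rw [h X (Finset.mem_powerset.1 hX), card_ins E X e hX]
    split_ifs <;> ring
  · rw [beta_eq, split_sum E e he, ← Finset.sum_add_distrib]
    refine Finset.sum_eq_zero fun X hX => ?_
    rw [h X (Finset.mem_powerset.1 hX), card_ins E X e hX]
    ring

theorem mu_coloop {α : Type} [DecidableEq α] (r : Finset α → ℕ) (E : Finset α) (e : α)
    (he : e ∈ E) (h : ∀ X ⊆ E.erase e, r (insert e X) = r X + 1)
    (hm : ∀ X ⊆ E.erase e, r X ≤ r (E.erase e)) :
    mu r E = mu r (E.erase e) ∧ ((E.erase e).Nonempty → beta r E = 0) := by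
  have h2 := h (E.erase e) (subset_refl _)
  rw [insert_erase he] at h2
  constructor
  · rw [mu_eq, mu_eq, split_sum E e he]
    have h3 : ∑ X ∈ (E.erase e).powerset,
        (if r X = r E then (-1 : ℤ) ^ (r E) * (-1) ^ X.card else 0) = 0 := by
      refine Finset.sum_eq_zero fun X hX => ?_
      have := hm X (Finset.mem_powerset.1 hX)
      rw [if_neg (by omega)]
    rw [h3, zero_add]
    refine Finset.sum_congr rfl fun X hX => ?_
    rw [h X (Finset.mem_powerset.1 hX), card_ins E X e hX, h2]
    by_cases h4 : r X = r (E.erase e)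
    · rw [if_pos h4, if_pos (by rw [h4])]
      ring
    · rw [if_neg h4, if_neg (by omega)]
  · intro hne
    have h5 := Finset.sum_powerset_neg_one_pow_card_of_nonempty hne
    rw [beta_eq, split_sum E e he, ← Finset.sum_add_distrib]
    have h6 : ∀ X ∈ (E.erase e).powerset, ((-1 : ℤ) ^ (r E) * ((-1) ^ X.card * (r X : ℤ)) +
        (-1) ^ (r E) * ((-1) ^ (insert e X).card * (r (insert e X) : ℤ))) =
        -(-1) ^ (r E) * (-1) ^ X.card := by
      intro X hX
      rw [h X (Finset.mem_powerset.1 hX), card_ins E X e hX]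
      push_cast
      ring
    rw [Finset.sum_congr rfl h6, ← Finset.mul_sum, h5, mul_zero]

/-- in rank one `mu = beta` -/
theorem mu_eq_beta_rank_one {α : Type} [DecidableEq α] (r : Finset α → ℕ) (hr : IsRk r)
    (E : Finset α) (h : r E = 1) : mu r E = beta r E := by
  rw [mu_eq, beta_eq]
  refine Finset.sum_congr rfl fun X hX => ?_
  have h1 := hr.mono X E (Finset.mem_powerset.1 hX)
  rw [h] at h1 ⊢
  by_cases h2 : r X = 1
  · rw [if_pos h2, h2]; simp
  · have h3 : r X = 0 := by omega
    rw [if_neg h2, h3]; simp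


end A1
end DC813
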