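import Pool.Agent.Helper813.DC.Defs

set_option autoImplicit false

namespace DC813
namespace A2
open Finset


theorem rk_isRk {K : Type} [Field K] {α : Type} [DecidableEq α] {m : ℕ}
    (v : α → (Fin m → K)) : IsRk (rk v) := by
  refine ⟨?_, ?_, ?_, ?_⟩
  · simp [rk]
  · intro X Y h
    unfold rk
    exact Submodule.finrank_mono (Submodule.span_mono (Set.image_mono (by exact_mod_cast h)))
  · intro X e
    unfold rk
    rw [Finset.coe_insert, Set.image_insert_eq, Submodule.span_insert, sup_comm]
    refine (Submodule.finrank_add_le_finrank_add_finrank _ _).trans ?_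
    refine Nat.add_le_add_left ?_ _
    by_cases h0 : v e = 0
    · rw [h0, Submodule.span_zero_singleton, finrank_bot]
      exact Nat.zero_le 1
    · rw [finrank_span_singleton h0]
  · intro X Y
    unfold rk
    rw [Finset.coe_union, Set.image_union, Submodule.span_union]
    have h1 : Submodule.span K (v '' ((X ∩ Y : Finset α) : Set α)) ≤
        Submodule.span K (v '' (X : Set α)) ⊓ Submodule.span K (v '' (Y : Set α)) := by
      refine le_inf (Submodule.span_mono (Set.image_mono ?_))
        (Submodule.span_mono (Set.image_mono ?_))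
      · exact_mod_cast Finset.inter_subset_left
      · exact_mod_cast Finset.inter_subset_right
    have h2 := Submodule.finrank_mono h1
    have h3 := Submodule.finrank_sup_add_finrank_inf_eq (Submodule.span K (v '' (X : Set α)))
      (Submodule.span K (v '' (Y : Set α)))
    omega

theorem rk_insert_loop {K : Type} [Field K] {α : Type} [DecidableEq α] {m : ℕ}
    (v : α → (Fin m → K)) (e : α) (he : v e = 0) (X : Finset α) :
    rk v (insert e X) = rk v X := by
  unfold rk
  rw [Finset.coe_insert, Set.image_insert_eq, he, Submodule.span_insert_zero]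

theorem rk_contr {K : Type} [Field K] {α : Type} [DecidableEq α] {m : ℕ}
    (v : α → (Fin m → K)) (e : α) (he : v e ≠ 0) (π : (Fin m → K) →ₗ[K] (Fin m → K))
    (hker : LinearMap.ker π = Submodule.span K {v e}) (X : Finset α) :
    rk (fun f => π (v f)) X + 1 = rk v (insert e X) := by
  unfold rk
  set U := Submodule.span K (v '' ((insert e X : Finset α) : Set α)) with hU
  have hve : v e ∈ U := Submodule.subset_span ⟨e, by simp, rfl⟩
  have hπe : π (v e) = 0 := by
    rw [← LinearMap.mem_ker, hker]
    exact Submodule.mem_span_singleton_self _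
  have h1 : Submodule.map π U = Submodule.span K ((fun f => π (v f)) '' (X : Set α)) := by
    rw [hU, Submodule.map_span, Finset.coe_insert, Set.image_insert_eq, Set.image_insert_eq, hπe,
      Submodule.span_insert_zero, Set.image_image]
  have h2 := LinearMap.finrank_range_add_finrank_ker (π ∘ₗ U.subtype)
  have h3 : LinearMap.range (π ∘ₗ U.subtype) = Submodule.map π U := by
    rw [LinearMap.range_comp, Submodule.range_subtype]
  have h4 : LinearMap.ker (π ∘ₗ U.subtype) = Submodule.span K {(⟨v e, hve⟩ : U)} := by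
    ext x
    rw [LinearMap.mem_ker, Submodule.mem_span_singleton, LinearMap.comp_apply,
      Submodule.subtype_apply, ← LinearMap.mem_ker, hker, Submodule.mem_span_singleton]
    constructor
    · rintro ⟨c, hc⟩
      exact ⟨c, Subtype.ext hc⟩
    · rintro ⟨c, hc⟩
      exact ⟨c, congrArg Subtype.val hc⟩
  have h5 : (⟨v e, hve⟩ : U) ≠ 0 := fun h => he (congrArg Subtype.val h)
  rw [h3, h4, finrank_span_singleton h5, h1] at h2
  exact h2

theorem lin_apply {K : Type} [Field K] {m : ℕ} (w : Fin m → K) :
    (lin w : MvPolynomial (Fin m) K) = ∑ i, MvPolynomial.C (w i) * MvPolynomial.X i := rfl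

theorem lin_ne_zero {K : Type} [Field K] {m : ℕ} (w : Fin m → K) (hw : w ≠ 0) :
    (lin w : MvPolynomial (Fin m) K) ≠ 0 := by
  intro h
  apply hw
  funext i
  have h1 : MvPolynomial.eval (Pi.single i (1 : K)) (lin w : MvPolynomial (Fin m) K) = w i := by
    rw [lin_apply, map_sum, Finset.sum_eq_single i]
    · simp
    · intro b _ hb
      simp [Pi.single_eq_of_ne hb]
    · intro hi
      exact absurd (Finset.mem_univ i) hi
  rw [h, map_zero] at h1
  exact h1.symm

theorem lin_single {K : Type} [Field K] {m : ℕ} (i : Fin m) :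
    (lin (Pi.single i (1 : K)) : MvPolynomial (Fin m) K) = MvPolynomial.X i := by
  rw [lin_apply, Finset.sum_eq_single i]
  · simp
  · intro b _ hb
    simp [Pi.single_eq_of_ne hb]
  · intro hi
    exact absurd (Finset.mem_univ i) hi

theorem exists_contr {K : Type} [Field K] {m : ℕ} (u : Fin m → K) (hu : u ≠ 0) :
    ∃ (π : (Fin m → K) →ₗ[K] (Fin m → K))
      (s : MvPolynomial (Fin m) K →ₐ[K] MvPolynomial (Fin m) K),
      LinearMap.ker π = Submodule.span K {u} ∧ (∀ w, s (lin w) = lin (π w)) ∧
      (∀ p, s p = 0 → ∃ q, p = lin u * q) := by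
  obtain ⟨i0, hi0⟩ : ∃ i, u i ≠ 0 := by
    by_contra hcon
    push Not at hcon
    exact hu (funext hcon)
  let φ : (Fin m → K) →ₗ[K] K := (u i0)⁻¹ • LinearMap.proj i0
  have hφu : φ u = 1 := inv_mul_cancel₀ hi0
  let π : (Fin m → K) →ₗ[K] (Fin m → K) := LinearMap.id - φ.smulRight u
  have hπ : ∀ w, π w = w - φ w • u := fun w => rfl
  let s : MvPolynomial (Fin m) K →ₐ[K] MvPolynomial (Fin m) K :=
    MvPolynomial.aeval (fun i => lin (π (Pi.single i 1)))
  have hsX : ∀ i, s (MvPolynomial.X i) = lin (π (Pi.single i 1)) := fun i =>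
    MvPolynomial.aeval_X _ i
  have hdiff : ∀ i : Fin m, (MvPolynomial.X i : MvPolynomial (Fin m) K) - s (MvPolynomial.X i) =
      lin u * MvPolynomial.C (φ (Pi.single i 1)) := by
    intro i
    rw [hsX, ← lin_single i, ← map_sub, hπ, sub_sub_cancel, map_smul,
      MvPolynomial.smul_eq_C_mul, mul_comm]
  have hall : ∀ p : MvPolynomial (Fin m) K, ∃ q, p - s p = lin u * q := by
    intro p
    induction p using MvPolynomial.induction_on with
    | C a =>
      refine ⟨0, ?_⟩
      rw [mul_zero, sub_eq_zero]
      exact (MvPolynomial.algHom_C s a).symm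
    | add p q hp hq =>
      obtain ⟨a, ha⟩ := hp
      obtain ⟨b, hb⟩ := hq
      refine ⟨a + b, ?_⟩
      rw [map_add, mul_add, ← ha, ← hb]
      ring
    | mul_X p i hp =>
      obtain ⟨a, ha⟩ := hp
      refine ⟨a * MvPolynomial.X i + s p * MvPolynomial.C (φ (Pi.single i 1)), ?_⟩
      have h1 := hdiff i
      rw [map_mul]
      calc p * MvPolynomial.X i - s p * s (MvPolynomial.X i)
          = (p - s p) * MvPolynomial.X i + s p * (MvPolynomial.X i - s (MvPolynomial.X i)) := by
            ring
        _ = lin u * (a * MvPolynomial.X i + s p * MvPolynomial.C (φ (Pi.single i 1))) := by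
            rw [ha, h1]; ring
  refine ⟨π, s, ?_, ?_, ?_⟩
  · ext w
    rw [LinearMap.mem_ker, Submodule.mem_span_singleton, hπ, sub_eq_zero]
    constructor
    · intro h
      exact ⟨φ w, h.symm⟩
    · rintro ⟨c, rfl⟩
      rw [map_smul, hφu, smul_eq_mul, mul_one]
  · intro w
    have h1 : w = ∑ i, w i • (Pi.single i (1 : K) : Fin m → K) := by
      funext j
      rw [Finset.sum_apply, Finset.sum_eq_single j]
      · simp
      · intro b _ hb
        simp [Pi.single_eq_of_ne hb.symm]
      · intro hj
        exact absurd (Finset.mem_univ j) hj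
    have h2 : lin (π w) = ∑ i, w i • lin (π (Pi.single i (1 : K))) := by
      conv_lhs => rw [h1]
      rw [map_sum, map_sum]
      refine Finset.sum_congr rfl fun i _ => ?_
      rw [map_smul, map_smul]
    rw [h2, lin_apply, map_sum]
    refine Finset.sum_congr rfl fun i _ => ?_
    rw [map_mul, hsX, MvPolynomial.algHom_C, MvPolynomial.algebraMap_eq,
      MvPolynomial.smul_eq_C_mul]
  · intro p hp
    obtain ⟨q, hq⟩ := hall p
    rw [hp, sub_zero] at hq
    exact ⟨q, hq⟩

/-- product of a nonzero linear form with a polynomial is never a nonzero constant -/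
theorem lin_mul_const {K : Type} [Field K] {m : ℕ} (w : Fin m → K) (hw : w ≠ 0)
    (ψ : MvPolynomial (Fin m) K) (c : K) (h : lin w * ψ = MvPolynomial.C c) : ψ = 0 := by
  have h1 : MvPolynomial.eval (0 : Fin m → K) (lin w : MvPolynomial (Fin m) K) = 0 := by
    rw [lin_apply, map_sum]
    refine Finset.sum_eq_zero fun i _ => ?_
    simp
  have h2 := congrArg (MvPolynomial.eval (0 : Fin m → K)) h
  rw [map_mul, h1, zero_mul, MvPolynomial.eval_C] at h2
  rw [← h2, map_zero] at h
  rcases mul_eq_zero.1 h with h3 | h3
  · exact absurd h3 (lin_ne_zero w hw)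
  · exact h3


end A2
end DC813
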