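import Pool.Agent.Helper813.DC.Defs
import Pool.Agent.Helper813.DC.A1
import Pool.Agent.Helper813.DC.A2

set_option autoImplicit false

namespace DC813
namespace A4
open Finset
open A1 A2



/-- dual relations space -/
def Zs {K : Type} [Field K] {α : Type} [DecidableEq α] {m : ℕ}
    (v : α → (Fin m → K)) (E : Finset α) : Submodule K (Finset α → K) where
  carrier := {z | (∀ B, ¬ IsBase v E B → z B = 0) ∧
    ∀ W ⊆ E, ∀ l : α → K, ∑ w ∈ W, l w • v w = 0 → ∑ w ∈ W, l w * z (W.erase w) = 0}
  add_mem' := by
    rintro a b ⟨ha1, ha2⟩ ⟨hb1, hb2⟩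
    refine ⟨fun B hB => by simp [ha1 B hB, hb1 B hB], fun W hW l hl => ?_⟩
    simp only [Pi.add_apply, mul_add, Finset.sum_add_distrib, ha2 W hW l hl, hb2 W hW l hl,
      add_zero]
  zero_mem' := by
    refine ⟨fun B hB => rfl, fun W hW l hl => by simp⟩
  smul_mem' := by
    rintro c a ⟨ha1, ha2⟩
    refine ⟨fun B hB => by simp [ha1 B hB], fun W hW l hl => ?_⟩
    have : ∑ w ∈ W, l w * (c • a) (W.erase w) = c * ∑ w ∈ W, l w * a (W.erase w) := by
      rw [Finset.mul_sum]
      refine Finset.sum_congr rfl fun w _ => ?_
      simp only [Pi.smul_apply, smul_eq_mul]; ring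
    rw [this, ha2 W hW l hl, mul_zero]

theorem mem_Zs {K : Type} [Field K] {α : Type} [DecidableEq α] {m : ℕ}
    (v : α → (Fin m → K)) (E : Finset α) (z : Finset α → K) :
    z ∈ Zs v E ↔ (∀ B, ¬ IsBase v E B → z B = 0) ∧
    ∀ W ⊆ E, ∀ l : α → K, ∑ w ∈ W, l w • v w = 0 → ∑ w ∈ W, l w * z (W.erase w) = 0 :=
  Iff.rfl

/-- restriction -/
def R0 (K : Type) [Field K] {α : Type} [DecidableEq α] (e : α) :
    (Finset α → K) →ₗ[K] (Finset α → K) where
  toFun z := fun B => if e ∈ B then 0 else z B
  map_add' := by
    intro a b; funext B; by_cases h : e ∈ B <;> simp [h]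
  map_smul' := by
    intro c a; funext B; by_cases h : e ∈ B <;> simp [h]

/-- contraction -/
def S0 (K : Type) [Field K] {α : Type} [DecidableEq α] (e : α) :
    (Finset α → K) →ₗ[K] (Finset α → K) where
  toFun z := fun B => if e ∈ B then 0 else z (insert e B)
  map_add' := by
    intro a b; funext B; by_cases h : e ∈ B <;> simp [h]
  map_smul' := by
    intro c a; funext B; by_cases h : e ∈ B <;> simp [h]

theorem rk_le_card {K : Type} [Field K] {α : Type} [DecidableEq α] {m : ℕ}
    (v : α → (Fin m → K)) (X : Finset α) : rk v X ≤ X.card := by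
  induction X using Finset.induction_on with
  | empty => rw [(rk_isRk v).empty]; simp
  | insert a X ha ih =>
    rw [Finset.card_insert_of_notMem ha]
    exact ((rk_isRk v).insert_le X a).trans (by omega)

theorem span_erase_aux {K : Type} [Field K] {α : Type} [DecidableEq α] {m : ℕ}
    (v : α → (Fin m → K)) (W : Finset α) (l : α → K) (hl : ∑ w ∈ W, l w • v w = 0)
    (w : α) (hw : w ∈ W) (hlw : l w ≠ 0) : rk v (W.erase w) = rk v W := by
  unfold rk
  have hsp : Submodule.span K (v '' ((W.erase w : Finset α) : Set α)) =
      Submodule.span K (v '' (W : Set α)) := ?_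
  · rw [hsp]
  apply le_antisymm
  · apply Submodule.span_mono
    apply Set.image_mono
    exact_mod_cast Finset.erase_subset w W
  · rw [Submodule.span_le]
    rintro _ ⟨x, hx, rfl⟩
    by_cases hxw : x = w
    · subst hxw
      have h1 : l x • v x = - ∑ y ∈ W.erase x, l y • v y := by
        rw [← Finset.add_sum_erase W _ hw] at hl
        exact eq_neg_of_add_eq_zero_left hl
      have h2 : v x = (l x)⁻¹ • (- ∑ y ∈ W.erase x, l y • v y) := by
        rw [← h1, smul_smul, inv_mul_cancel₀ hlw, one_smul]
      rw [SetLike.mem_coe, h2]
      apply Submodule.smul_mem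
      apply Submodule.neg_mem
      apply Submodule.sum_mem
      intro y hy
      apply Submodule.smul_mem
      apply Submodule.subset_span
      exact ⟨y, by exact_mod_cast hy, rfl⟩
    · apply Submodule.subset_span
      exact ⟨x, by
        have : x ∈ W := by exact_mod_cast hx
        exact_mod_cast Finset.mem_erase.2 ⟨hxw, this⟩, rfl⟩

theorem exists_erase_aux {K : Type} [Field K] {α : Type} [DecidableEq α] {m : ℕ}
    (v : α → (Fin m → K)) (E : Finset α) (h : rk v E ≠ E.card) :
    ∃ e ∈ E, rk v (E.erase e) = rk v E := by
  have hdep : ¬ LinearIndependent K (fun x : E => v x) := by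
    intro hli
    apply h
    have h1 := finrank_span_eq_card hli
    unfold rk
    have h2 : v '' (E : Set α) = Set.range (fun x : E => v x) := by
      ext y
      simp
    rw [h2, h1, Fintype.card_coe]
  rw [Fintype.not_linearIndependent_iff] at hdep
  obtain ⟨g, hg, i, hi⟩ := hdep
  have hsum : ∑ w ∈ E, (fun a => if ha : a ∈ E then g ⟨a, ha⟩ else 0) w • v w = 0 := by
    rw [← Finset.sum_coe_sort E]
    rw [← hg]
    refine Finset.sum_congr rfl fun x _ => ?_
    simp
  refine ⟨i, i.2, span_erase_aux v E _ hsum i i.2 ?_⟩
  simpa using hi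

theorem Zs_rank {K : Type} [Field K] {α : Type} [DecidableEq α] {m : ℕ} (k : ℕ) :
    ∀ (v : α → (Fin m → K)) (E : Finset α), E.card = k →
      ∃ n : ℕ, Module.rank K (Zs v E) ≤ n ∧ (n : ℤ) ≤ mu (rk v) E := by
  induction k using Nat.strong_induction_on with
  | _ k ih =>
  intro v E hk
  by_cases hloop : ∃ e ∈ E, v e = 0
  · obtain ⟨e, heE, he⟩ := hloop
    refine ⟨0, ?_, ?_⟩
    · have hz : Zs v E = ⊥ := by
        rw [eq_bot_iff]
        intro z hz
        rw [mem_Zs] at hz
        rw [Submodule.mem_bot]
        funext B
        by_cases hB : IsBase v E B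
        · have heB : e ∉ B := by
            intro heB
            have h1 := rk_insert_loop v e he (B.erase e)
            rw [Finset.insert_erase heB] at h1
            have h2 := rk_le_card v (B.erase e)
            rw [Finset.card_erase_of_mem heB] at h2
            have h3 := hB.2.1
            have h4 : 0 < B.card := Finset.card_pos.2 ⟨e, heB⟩
            omega
          have h5 := hz.2 (insert e B) (Finset.insert_subset heE hB.1)
            (fun w => if w = e then 1 else 0) (by
              rw [Finset.sum_insert heB]
              rw [Finset.sum_eq_zero]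
              · simp [he]
              · intro x hx
                have : x ≠ e := fun h => heB (h ▸ hx)
                simp [this])
          rw [Finset.sum_insert heB, Finset.sum_eq_zero] at h5
          · simpa [Finset.erase_insert heB] using h5
          · intro x hx
            have : x ≠ e := fun h => heB (h ▸ hx)
            simp [this]
        · exact hz.1 B hB
      rw [hz]
      simp
    · rw [(mu_loop (rk v) E e heE (fun X _ => rk_insert_loop v e he X)).1]
      simp
  push Not at hloop
  by_cases hfull : rk v E = E.card
  · refine ⟨1, ?_, ?_⟩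
    · have hB : ∀ B, IsBase v E B → B = E := by
        intro B hB
        apply Finset.eq_of_subset_of_card_le hB.1
        rw [← hfull, ← hB.2.2, hB.2.1]
      let f : Zs v E →ₗ[K] K := (LinearMap.proj E) ∘ₗ (Zs v E).subtype
      have hf : Function.Injective f := by
        rw [injective_iff_map_eq_zero]
        rintro ⟨z, hz⟩ h0
        have h0' : z E = 0 := h0
        apply Subtype.ext
        funext B
        by_cases hBB : IsBase v E B
        · rw [hB B hBB]; exact h0'
        · exact hz.1 B hBB
      have := LinearMap.rank_le_of_injective f hf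
      simpa using this
    · unfold mu
      have h1 : E.powerset.filter (fun X => rk v X = rk v E) = {E} := by
        ext X
        simp only [Finset.mem_filter, Finset.mem_powerset, Finset.mem_singleton]
        constructor
        · rintro ⟨hXE, hX⟩
          apply Finset.eq_of_subset_of_card_le hXE
          rw [← hfull, ← hX]
          exact rk_le_card v X
        · rintro rfl
          exact ⟨subset_rfl, rfl⟩
      have h2 : (Finset.filter (fun X => rk v X = rk v E) E.powerset) = {E} := h1
      rw [Finset.sum_congr (s₂ := {E}) (by convert h2) (fun _ _ => rfl)]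
      rw [Finset.sum_singleton, hfull, ← pow_add, ← two_mul, pow_mul]
      simp
  · obtain ⟨e, heE, he⟩ := exists_erase_aux v E hfull
    have hve : v e ≠ 0 := hloop e heE
    obtain ⟨π, s, hker, -, -⟩ := exists_contr (v e) hve
    have hrc := fun X => rk_contr v e hve π hker X
    have hcard : (E.erase e).card < k := by
      rw [Finset.card_erase_of_mem heE, hk]
      have : 0 < E.card := Finset.card_pos.2 ⟨e, heE⟩
      omega
    obtain ⟨n1, hn1, hn1'⟩ := ih _ hcard v (E.erase e) rfl
    obtain ⟨n2, hn2, hn2'⟩ := ih _ hcard (fun f => π (v f)) (E.erase e) rfl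
    refine ⟨n1 + n2, ?_, ?_⟩
    · have hR : ∀ z ∈ Zs v E, R0 K e z ∈ Zs v (E.erase e) := by
        intro z hz
        rw [mem_Zs] at hz ⊢
        refine ⟨?_, ?_⟩
        · intro B hB
          change (if e ∈ B then 0 else z B) = 0
          split_ifs with heB
          · rfl
          · apply hz.1
            intro hB2
            apply hB
            refine ⟨?_, hB2.2.1, ?_⟩
            · intro x hx
              refine Finset.mem_erase.2 ⟨fun h => heB (h ▸ hx), hB2.1 hx⟩
            · rw [he]; exact hB2.2.2
        · intro W hW l hl
          have heW : e ∉ W := fun h => (Finset.mem_erase.1 (hW h)).1 rfl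
          rw [← hz.2 W (hW.trans (Finset.erase_subset _ _)) l hl]
          refine Finset.sum_congr rfl fun w hw => ?_
          change l w * (if e ∈ W.erase w then 0 else z (W.erase w)) = _
          rw [if_neg (fun h => heW (Finset.mem_of_mem_erase h))]
      let R : Zs v E →ₗ[K] Zs v (E.erase e) := (R0 K e).restrict hR
      have hkz : ∀ z : Zs v E, R z = 0 → ∀ B, e ∉ B → (z : Finset α → K) B = 0 := by
        intro z hz B heB
        have h1 : (R z : Finset α → K) B = 0 := by rw [hz]; rfl
        have h2 : (R z : Finset α → K) B = (if e ∈ B then 0 else (z : Finset α → K) B) := rfl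
        rw [h2, if_neg heB] at h1
        exact h1
      have hS : ∀ z : LinearMap.ker R, (S0 K e) ((z : Zs v E) : Finset α → K) ∈
          Zs (fun f => π (v f)) (E.erase e) := by
        rintro ⟨⟨z, hz⟩, hzk⟩
        have hzk' : ∀ B, e ∉ B → z B = 0 := hkz ⟨z, hz⟩ hzk
        change (S0 K e) z ∈ _
        rw [mem_Zs] at hz ⊢
        refine ⟨?_, ?_⟩
        · intro B hB
          change (if e ∈ B then 0 else z (insert e B)) = 0
          split_ifs with heB
          · rfl
          · apply hz.1
            intro hB2
            apply hB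
            have h1 := hrc B
            have h2 := hrc (E.erase e)
            rw [Finset.insert_erase heE] at h2
            have h3 := hB2.2.1
            have h4 := hB2.2.2
            rw [Finset.card_insert_of_notMem heB] at h3
            refine ⟨?_, ?_, ?_⟩
            · intro x hx
              refine Finset.mem_erase.2 ⟨fun h => heB (h ▸ hx), hB2.1 (Finset.mem_insert_of_mem hx)⟩
            · omega
            · omega
        · intro W hW l hl
          have heW : e ∉ W := fun h => (Finset.mem_erase.1 (hW h)).1 rfl
          have hmem : ∑ w ∈ W, l w • v w ∈ LinearMap.ker π := by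
            rw [LinearMap.mem_ker, map_sum]
            rw [← hl]
            refine Finset.sum_congr rfl fun w _ => ?_
            rw [map_smul]
          rw [hker, Submodule.mem_span_singleton] at hmem
          obtain ⟨c, hc⟩ := hmem
          have hWE : insert e W ⊆ E :=
            Finset.insert_subset heE (hW.trans (Finset.erase_subset _ _))
          have hrel := hz.2 (insert e W) hWE (fun w => if w = e then -c else l w) (by
            rw [Finset.sum_insert heW]
            rw [if_pos rfl]
            rw [Finset.sum_congr rfl (g := fun w => l w • v w)]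
            · rw [← hc]; simp
            · intro x hx
              have hxe : x ≠ e := fun h => heW (h ▸ hx)
              simp only [if_neg hxe])
          rw [Finset.sum_insert heW, if_pos rfl, Finset.erase_insert heW, hzk' W heW, mul_zero,
            zero_add] at hrel
          rw [← hrel]
          refine Finset.sum_congr rfl fun w hw => ?_
          have hwe : w ≠ e := fun h => heW (h ▸ hw)
          change l w * (if e ∈ W.erase w then 0 else z (insert e (W.erase w))) = _
          rw [if_neg (fun h => heW (Finset.mem_of_mem_erase h)), if_neg hwe,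
            Finset.erase_insert_of_ne hwe.symm]
      let S : LinearMap.ker R →ₗ[K] Zs (fun f => π (v f)) (E.erase e) :=
        LinearMap.codRestrict _ ((S0 K e) ∘ₗ (Zs v E).subtype ∘ₗ (LinearMap.ker R).subtype) hS
      have hSinj : Function.Injective S := by
        rw [injective_iff_map_eq_zero]
        rintro ⟨⟨z, hz⟩, hzk⟩ h0
        have hzk' : ∀ B, e ∉ B → z B = 0 := hkz ⟨z, hz⟩ hzk
        apply Subtype.ext
        apply Subtype.ext
        funext B
        change z B = 0
        by_cases heB : e ∈ B
        · have h1 : (S ⟨⟨z, hz⟩, hzk⟩ : Finset α → K) (B.erase e) = 0 := by rw [h0]; rfl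
          have h2 : (S ⟨⟨z, hz⟩, hzk⟩ : Finset α → K) (B.erase e) =
            (if e ∈ B.erase e then 0 else z (insert e (B.erase e))) := rfl
          rw [h2, if_neg (Finset.notMem_erase e B), Finset.insert_erase heB] at h1
          exact h1
        · exact hzk' B heB
      have hrn := LinearMap.rank_range_add_rank_ker R
      rw [← hrn]
      push_cast
      exact add_le_add ((Submodule.rank_le _).trans hn1)
        ((LinearMap.rank_le_of_injective S hSinj).trans hn2)
    · have hrec := mu_rec (rk v) (rk (fun f => π (v f))) E e heE he (fun X _ => hrc X)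
      rw [hrec]
      push_cast
      exact add_le_add hn1' hn2'

theorem Asp_finrank_le {K : Type} [Field K] {α : Type} [DecidableEq α] {m : ℕ}
    (v : α → (Fin m → K)) (E : Finset α) :
    FiniteDimensional K (Asp v E) ∧
      (Module.finrank K (Asp v E) : ℤ) ≤ mu (rk v) E := by
  classical
  have hfin : Set.Finite {p | ∃ B, IsBase v E B ∧ p = pr v (E \ B)} := by
    apply Set.Finite.subset ((E.powerset.finite_toSet).image (fun B => pr v (E \ B)))
    rintro p ⟨B, hB, rfl⟩
    exact ⟨B, by simpa using hB.1, rfl⟩
  have hfd : FiniteDimensional K (Asp v E) := FiniteDimensional.span_of_finite K hfin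
  refine ⟨hfd, ?_⟩
  obtain ⟨n, hn, hn'⟩ := Zs_rank E.card v E rfl
  refine le_trans ?_ hn'
  have hmem : ∀ B, IsBase v E B → pr v (E \ B) ∈ Asp v E := fun B hB =>
    Submodule.subset_span ⟨B, hB, rfl⟩
  let Φ0 : Module.Dual K (Asp v E) →ₗ[K] (Finset α → K) :=
    { toFun := fun ζ B => if h : IsBase v E B then ζ ⟨pr v (E \ B), hmem B h⟩ else 0
      map_add' := by
        intro a b; funext B; by_cases h : IsBase v E B <;> simp [h]
      map_smul' := by
        intro c a; funext B; by_cases h : IsBase v E B <;> simp [h] }
  have hΦ : ∀ ζ, Φ0 ζ ∈ Zs v E := by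
    intro ζ
    rw [mem_Zs]
    refine ⟨fun B hB => ?_, fun W hW l hl => ?_⟩
    · change (if h : IsBase v E B then ζ ⟨pr v (E \ B), hmem B h⟩ else 0) = 0
      rw [dif_neg hB]
    · obtain ⟨ζ', hζ'⟩ := LinearMap.exists_extend ζ
      have hval : ∀ B, IsBase v E B → Φ0 ζ B = ζ' (pr v (E \ B)) := by
        intro B hB
        change (if h : IsBase v E B then ζ ⟨pr v (E \ B), hmem B h⟩ else 0) = _
        rw [dif_pos hB, ← hζ']
        rfl
      have hval0 : ∀ B, ¬ IsBase v E B → Φ0 ζ B = 0 := by
        intro B hB
        change (if h : IsBase v E B then ζ ⟨pr v (E \ B), hmem B h⟩ else 0) = 0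
        rw [dif_neg hB]
      by_cases hex : ∃ w0 ∈ W, l w0 ≠ 0 ∧ IsBase v E (W.erase w0)
      · obtain ⟨w0, hw0, hlw0, hb0⟩ := hex
        have hbase : ∀ w ∈ W, l w ≠ 0 → IsBase v E (W.erase w) := by
          intro w hw hlw
          have h1 := span_erase_aux v W l hl w hw hlw
          have h2 := span_erase_aux v W l hl w0 hw0 hlw0
          have h3 := Finset.card_erase_of_mem hw
          have h4 := Finset.card_erase_of_mem hw0
          obtain ⟨h5, h6, h7⟩ := hb0
          refine ⟨(Finset.erase_subset _ _).trans hW, ?_, ?_⟩
          · omega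
          · omega
        have hterm : ∀ w ∈ W, l w * Φ0 ζ (W.erase w) = ζ' (l w • (lin (v w) * pr v (E \ W))) := by
          intro w hw
          by_cases hlw : l w = 0
          · simp [hlw]
          · rw [hval _ (hbase w hw hlw), map_smul, smul_eq_mul]
            congr 2
            have hset : E \ W.erase w = insert w (E \ W) := by
              ext x
              simp only [Finset.mem_sdiff, Finset.mem_erase, Finset.mem_insert]
              constructor
              · rintro ⟨h1, h2⟩
                by_cases hx : x = w
                · left; exact hx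
                · right; exact ⟨h1, fun h => h2 ⟨hx, h⟩⟩
              · rintro (h1 | ⟨h1, h2⟩)
                · subst h1; exact ⟨hW hw, fun h => h.1 rfl⟩
                · exact ⟨h1, fun h => h2 h.2⟩
            rw [hset]
            unfold pr
            rw [Finset.prod_insert]
            simp [hw]
        rw [Finset.sum_congr rfl hterm, ← map_sum]
        have : ∑ w ∈ W, l w • (lin (v w) * pr v (E \ W)) = 0 := by
          have h1 : ∑ w ∈ W, l w • (lin (v w) * pr v (E \ W)) =
              lin (∑ w ∈ W, l w • v w) * pr v (E \ W) := by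
            rw [map_sum, Finset.sum_mul]
            refine Finset.sum_congr rfl fun w _ => ?_
            rw [map_smul, smul_mul_assoc]
          rw [h1, hl, map_zero, zero_mul]
        rw [this, map_zero]
      · push Not at hex
        apply Finset.sum_eq_zero
        intro w hw
        by_cases hlw : l w = 0
        · simp [hlw]
        · rw [hval0 _ (hex w hw hlw), mul_zero]
  let Φ : Module.Dual K (Asp v E) →ₗ[K] Zs v E := LinearMap.codRestrict _ Φ0 hΦ
  have hinj : Function.Injective Φ := by
    rw [injective_iff_map_eq_zero]
    intro ζ hζ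
    have h0 : ∀ B (hB : IsBase v E B), ζ ⟨pr v (E \ B), hmem B hB⟩ = 0 := by
      intro B hB
      have h1 : (Φ ζ : Finset α → K) B = 0 := by rw [hζ]; rfl
      have h2 : (Φ ζ : Finset α → K) B =
        (if h : IsBase v E B then ζ ⟨pr v (E \ B), hmem B h⟩ else 0) := rfl
      rw [h2, dif_pos hB] at h1
      exact h1
    apply LinearMap.ext
    rintro ⟨x, hx⟩
    rw [LinearMap.zero_apply]
    have hx' : x ∈ Submodule.span K {p | ∃ B, IsBase v E B ∧ p = pr v (E \ B)} := hx
    obtain ⟨ζ', hζ'⟩ := LinearMap.exists_extend ζ
    have hz : ∀ (y) (hy : y ∈ Asp v E), ζ ⟨y, hy⟩ = ζ' y := by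
      intro y hy; rw [← hζ']; rfl
    rw [hz]
    refine Submodule.span_induction (p := fun y _ => ζ' y = 0) ?_ ?_ ?_ ?_ hx'
    · rintro y ⟨B, hB, rfl⟩
      rw [← hz _ (hmem B hB)]; exact h0 B hB
    · exact map_zero _
    · intro a b _ _ ha hb; rw [map_add, ha, hb, add_zero]
    · intro c a _ ha; rw [map_smul, ha, smul_zero]
  have hr := (LinearMap.rank_le_of_injective Φ hinj).trans hn
  have hfr : Module.finrank K (Module.Dual K (Asp v E)) ≤ n := Module.finrank_le_of_rank_le hr
  rw [Subspace.dual_finrank_eq] at hfr
  exact_mod_cast hfr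


end A4
end DC813
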