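import Pool.Agent.Helper813.DC.Defs
import Pool.Agent.Helper813.DC.A1
import Pool.Agent.Helper813.DC.A2

set_option autoImplicit false

namespace DC813
namespace A5
open Finset
open A1 A2


/-! TARGET -/

private theorem pr_insert_aux {K : Type} [Field K] {α : Type} [DecidableEq α] {m : ℕ}
    (v : α → (Fin m → K)) (E B : Finset α) (e : α) (he : e ∈ E) (heB : e ∉ B) :
    pr v (E \ B) = lin (v e) * pr v ((E.erase e) \ B) := by
  have h1 : E \ B = insert e ((E.erase e) \ B) := by
    ext x
    simp only [mem_sdiff, mem_insert, mem_erase]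
    by_cases hx : x = e
    · subst hx; simp [he, heB]
    · simp [hx]
  rw [h1, pr, prod_insert (by simp)]
  rfl

private theorem sdiff_insert_aux {α : Type} [DecidableEq α] (E B : Finset α) (e : α) :
    E \ (insert e B) = (E.erase e) \ B := by
  ext x
  simp only [mem_sdiff, mem_insert, mem_erase]
  tauto

private theorem Asp_fin {K : Type} [Field K] {α : Type} [DecidableEq α] {m : ℕ}
    (v : α → (Fin m → K)) (E : Finset α) : FiniteDimensional K (Asp v E) := by
  refine FiniteDimensional.span_of_finite K ?_
  refine Set.Finite.subset ((Finset.finite_toSet E.powerset).image (fun B => pr v (E \ B))) ?_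
  rintro p ⟨B, hB, rfl⟩
  exact ⟨B, by simpa using hB.1, rfl⟩

private theorem Asp_del_aux {K : Type} [Field K] {α : Type} [DecidableEq α] {m : ℕ}
    (v : α → (Fin m → K)) (E : Finset α) (e : α) (he : e ∈ E)
    (hco : rk v (E.erase e) = rk v E) :
    ∀ q ∈ Asp v (E.erase e), lin (v e) * q ∈ Asp v E := by
  have : Asp v (E.erase e) ≤ (Asp v E).comap (LinearMap.mulLeft K (lin (v e))) := by
    refine Submodule.span_le.2 ?_
    rintro p ⟨B, hB, rfl⟩
    show lin (v e) * pr v ((E.erase e) \ B) ∈ Asp v E
    have heB : e ∉ B := fun h => by simpa using hB.1 h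
    rw [← pr_insert_aux v E B e he heB]
    exact Submodule.subset_span ⟨B, ⟨hB.1.trans (erase_subset _ _), hB.2.1, hB.2.2.trans hco⟩, rfl⟩
  intro q hq
  exact this hq

private theorem Asp_map_aux {K : Type} [Field K] {α : Type} [DecidableEq α] {m : ℕ}
    (v : α → (Fin m → K)) (E : Finset α) (e : α) (he : e ∈ E) (hv : v e ≠ 0)
    (π : (Fin m → K) →ₗ[K] (Fin m → K))
    (s : MvPolynomial (Fin m) K →ₐ[K] MvPolynomial (Fin m) K)
    (hker : LinearMap.ker π = Submodule.span K {v e}) (hs : ∀ w, s (lin w) = lin (π w)) :
    Submodule.map s.toLinearMap (Asp v E) = Asp (fun f => π (v f)) (E.erase e) := by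
  have hpr : ∀ D : Finset α, s (pr v D) = pr (fun f => π (v f)) D := fun D => by
    simp only [pr, map_prod, hs]
  have hπ : π (v e) = 0 := by
    have : v e ∈ LinearMap.ker π := by
      rw [hker]; exact Submodule.mem_span_singleton_self _
    exact this
  have hrE := rk_contr v e hv π hker (E.erase e)
  rw [insert_erase he] at hrE
  apply le_antisymm
  · rw [Submodule.map_le_iff_le_comap]
    refine Submodule.span_le.2 ?_
    rintro p ⟨B, hB, rfl⟩
    show s (pr v (E \ B)) ∈ Asp (fun f => π (v f)) (E.erase e)
    by_cases heB : e ∈ B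
    · have e1 : E \ B = (E.erase e) \ (B.erase e) := by
        rw [← sdiff_insert_aux, insert_erase heB]
      rw [hpr, e1]
      have hrB := rk_contr v e hv π hker (B.erase e)
      rw [insert_erase heB] at hrB
      have hc := card_erase_add_one heB
      obtain ⟨b1, b2, b3⟩ := hB
      refine Submodule.subset_span ⟨B.erase e, ⟨erase_subset_erase e b1, ?_, ?_⟩, rfl⟩
      · omega
      · omega
    · rw [pr_insert_aux v E B e he heB, map_mul, hs, hπ, map_zero, zero_mul]
      exact Submodule.zero_mem _
  · refine Submodule.span_le.2 ?_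
    rintro p ⟨B, hB, rfl⟩
    have heB : e ∉ B := fun h => by simpa using hB.1 h
    refine ⟨pr v (E \ (insert e B)), ?_, ?_⟩
    · have hrB := rk_contr v e hv π hker B
      obtain ⟨b1, b2, b3⟩ := hB
      refine Submodule.subset_span ⟨insert e B, ⟨?_, ?_, ?_⟩, rfl⟩
      · exact insert_subset he (b1.trans (erase_subset _ _))
      · rw [card_insert_of_notMem heB]; omega
      · omega
    · show s (pr v (E \ (insert e B))) = _
      rw [hpr, sdiff_insert_aux]

private theorem coloop_aux {α : Type} [DecidableEq α] (r : Finset α → ℕ) (hr : IsRk r)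
    (E : Finset α) (e : α) (he : e ∈ E) (hne : r (E.erase e) ≠ r E) (X : Finset α)
    (hX : X ⊆ E.erase e) : r (insert e X) = r X + 1 := by
  have h1 := hr.submod (insert e X) (E.erase e)
  have h2 := hr.insert_le X e
  have h3 := hr.mono _ _ (erase_subset e E)
  have e1 : insert e X ∪ E.erase e = E := by
    ext x
    simp only [mem_union, mem_insert, mem_erase]
    constructor
    · rintro ((rfl | hx) | hx)
      · exact he
      · exact (mem_erase.1 (hX hx)).2
      · exact hx.2
    · intro hx
      by_cases hxe : x = e
      · exact Or.inl (Or.inl hxe)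
      · exact Or.inr ⟨hxe, hx⟩
  have e2 : insert e X ∩ E.erase e = X := by
    ext x
    simp only [mem_inter, mem_insert, mem_erase]
    constructor
    · rintro ⟨rfl | hx, h⟩
      · exact absurd rfl h.1
      · exact hx
    · intro hx
      exact ⟨Or.inr hx, mem_erase.1 (hX hx)⟩
  rw [e1, e2] at h1
  omega

theorem le_Asp_finrank {K : Type} [Field K] {α : Type} [DecidableEq α] {m : ℕ}
    (v : α → (Fin m → K)) (E : Finset α) :
    mu (rk v) E ≤ (Module.finrank K (Asp v E) : ℤ) := by
  obtain ⟨n, hn⟩ : ∃ n, n = E.card := ⟨_, rfl⟩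
  induction n using Nat.strong_induction_on generalizing v E with
  | _ n ih =>
  have := Asp_fin v E
  rcases E.eq_empty_or_nonempty with hE | ⟨e, he⟩
  · subst hE
    have h0 : rk v ∅ = 0 := (rk_isRk v).empty
    have h1 : mu (rk v) ∅ = 1 := by
      unfold mu
      rw [h0, powerset_empty, filter_singleton]
      simp [h0]
    rw [h1]
    have h2 : (1 : MvPolynomial (Fin m) K) ∈ Asp v ∅ := by
      refine Submodule.subset_span ⟨∅, ⟨subset_refl _, by simp [h0], rfl⟩, by simp [pr]⟩
    have h3 : 0 < Module.finrank K (Asp v ∅) := by
      rw [Module.finrank_pos_iff_exists_ne_zero]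
      exact ⟨⟨1, h2⟩, fun h => one_ne_zero (congrArg Subtype.val h)⟩
    exact_mod_cast h3
  · have hcard : (E.erase e).card < n := by
      rw [hn]; exact card_erase_lt_of_mem he
    have ih1 := fun w => ih _ hcard (v := w) (E := E.erase e) rfl
    by_cases hv : v e = 0
    · rw [(mu_loop (rk v) E e he (fun X _ => rk_insert_loop v e hv X)).1]
      positivity
    · by_cases hco : rk v (E.erase e) = rk v E
      · obtain ⟨π, s, hker, hs, -⟩ := exists_contr (v e) hv
        have hmu := mu_rec (rk v) (rk (fun f => π (v f))) E e he hco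
          (fun X _ => rk_contr v e hv π hker X)
        rw [hmu]
        have i1 := ih1 v
        have i2 := ih1 (fun f => π (v f))
        have hπ : π (v e) = 0 := by
          have : v e ∈ LinearMap.ker π := by
            rw [hker]; exact Submodule.mem_span_singleton_self _
          exact this
        set A := Asp v E with hA
        set f : A →ₗ[K] MvPolynomial (Fin m) K := s.toLinearMap.domRestrict A with hf
        have hrn := LinearMap.finrank_range_add_finrank_ker f
        have hrange : LinearMap.range f = Asp (fun f => π (v f)) (E.erase e) := by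
          rw [← Asp_map_aux v E e he hv π s hker hs]
          ext p
          simp only [LinearMap.mem_range, Submodule.mem_map]
          constructor
          · rintro ⟨⟨y, hy⟩, hyp⟩
            exact ⟨y, hy, hyp⟩
          · rintro ⟨y, hy, hyp⟩
            exact ⟨⟨y, hy⟩, hyp⟩
        rw [hrange] at hrn
        set g1 : Asp v (E.erase e) →ₗ[K] A :=
          (LinearMap.mulLeft K (lin (v e))).restrict (Asp_del_aux v E e he hco) with hg1
        have hg1v : ∀ q : Asp v (E.erase e), ((g1 q : A) : MvPolynomial (Fin m) K)
            = lin (v e) * (q : MvPolynomial (Fin m) K) := fun q => rfl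
        have hg1k : ∀ q, g1 q ∈ LinearMap.ker f := by
          intro q
          rw [LinearMap.mem_ker]
          show s ((g1 q : A) : MvPolynomial (Fin m) K) = 0
          rw [hg1v, map_mul, hs, hπ, map_zero, zero_mul]
        have hinj : Function.Injective (g1.codRestrict (LinearMap.ker f) hg1k) := by
          intro a b hab
          have h1 : g1 a = g1 b := congrArg Subtype.val hab
          have h2 : ((g1 a : A) : MvPolynomial (Fin m) K) = ((g1 b : A) : MvPolynomial (Fin m) K) :=
            congrArg Subtype.val h1
          rw [hg1v, hg1v] at h2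
          exact Subtype.ext (mul_left_cancel₀ (lin_ne_zero _ hv) h2)
        have hle := LinearMap.finrank_le_finrank_of_injective hinj
        omega
      · have hr := rk_isRk v
        have hcl := fun X hX => coloop_aux (rk v) hr E e he hco X hX
        rw [(mu_coloop (rk v) E e he hcl (fun X hX => hr.mono _ _ hX)).1]
        refine (ih1 v).trans ?_
        have hsub : Asp v (E.erase e) ≤ Asp v E := by
          refine Submodule.span_le.2 ?_
          rintro p ⟨B, hB, rfl⟩
          obtain ⟨b1, b2, b3⟩ := hB
          have heB : e ∉ B := fun h => by simpa using b1 h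
          have c1 := hcl B b1
          have c2 := hcl (E.erase e) (subset_refl _)
          rw [insert_erase he] at c2
          refine Submodule.subset_span ⟨insert e B, ⟨?_, ?_, ?_⟩, ?_⟩
          · exact insert_subset he (b1.trans (erase_subset _ _))
          · rw [card_insert_of_notMem heB]; omega
          · omega
          · rw [sdiff_insert_aux]
        exact_mod_cast Submodule.finrank_mono hsub

/-- image of `Asp v E` under the contraction homomorphism -/
theorem Asp_map {K : Type} [Field K] {α : Type} [DecidableEq α] {m : ℕ}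
    (v : α → (Fin m → K)) (E : Finset α) (e : α) (he : e ∈ E) (hv : v e ≠ 0)
    (π : (Fin m → K) →ₗ[K] (Fin m → K))
    (s : MvPolynomial (Fin m) K →ₐ[K] MvPolynomial (Fin m) K)
    (hker : LinearMap.ker π = Submodule.span K {v e}) (hs : ∀ w, s (lin w) = lin (π w)) :
    Submodule.map s.toLinearMap (Asp v E) = Asp (fun f => π (v f)) (E.erase e) :=
  Asp_map_aux v E e he hv π s hker hs

/-- multiples of `lin (v e)` coming from the deletion -/
theorem Asp_del {K : Type} [Field K] {α : Type} [DecidableEq α] {m : ℕ}
    (v : α → (Fin m → K)) (E : Finset α) (e : α) (he : e ∈ E)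
    (hco : rk v (E.erase e) = rk v E) :
    ∀ q ∈ Asp v (E.erase e), lin (v e) * q ∈ Asp v E :=
  Asp_del_aux v E e he hco


end A5
end DC813
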