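import Pool.Agent.Helper813.DC.Defs
import Pool.Agent.Helper813.DC.A1
import Pool.Agent.Helper813.DC.A2
import Pool.Agent.Helper813.DC.A4
import Pool.Agent.Helper813.DC.A5

set_option autoImplicit false

namespace DC813
namespace A7
open Finset
open A1 A2 A4 A5



theorem aux_finrank_map {K V W : Type} [Field K] [AddCommGroup V] [Module K V] [AddCommGroup W]
    [Module K W] (M : V →ₗ[K] W) (hM : Function.Injective M) (P : Submodule K V) :
    Module.finrank K (P.map M) = Module.finrank K P :=
  (Submodule.equivMapOfInjective M hM P).finrank_eq.symm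

theorem aux_rank_nullity {K V W : Type} [Field K] [AddCommGroup V] [Module K V] [AddCommGroup W]
    [Module K W] (f : V →ₗ[K] W) (P : Submodule K V) [FiniteDimensional K P] :
    Module.finrank K (P.map f) + Module.finrank K (P ⊓ LinearMap.ker f : Submodule K V) =
      Module.finrank K P := by
  have h1 := (f.domRestrict P).finrank_range_add_finrank_ker
  rw [LinearMap.range_domRestrict] at h1
  have h2 : Module.finrank K (LinearMap.ker (f.domRestrict P)) =
      Module.finrank K (P ⊓ LinearMap.ker f : Submodule K V) := by
    rw [← Submodule.finrank_map_subtype_eq P (LinearMap.ker (f.domRestrict P))]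
    have h3 : (LinearMap.ker (f.domRestrict P)).map P.subtype = P ⊓ LinearMap.ker f := by
      ext x
      constructor
      · rintro ⟨y, hy, rfl⟩
        exact ⟨y.2, by simpa using hy⟩
      · rintro ⟨h4, h5⟩
        exact ⟨⟨x, h4⟩, by simpa using h5, rfl⟩
    rw [h3]
  rw [← h2]
  exact h1

theorem aux_mul_inj {K : Type} [Field K] {m : ℕ} (w : Fin m → K) (hw : w ≠ 0) :
    Function.Injective (LinearMap.mulLeft K (lin w : MvPolynomial (Fin m) K)) := by
  intro a b h
  exact mul_left_cancel₀ (lin_ne_zero w hw) h

/-- exactness: elements of `Asp v E` divisible by `lin (v e)` come from the deletion -/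
theorem Asp_exact {K : Type} [Field K] {α : Type} [DecidableEq α] {m : ℕ}
    (v : α → (Fin m → K)) (E : Finset α) (e : α) (he : e ∈ E) (hv : v e ≠ 0)
    (hco : rk v (E.erase e) = rk v E)
    (q : MvPolynomial (Fin m) K) (hq : lin (v e) * q ∈ Asp v E) : q ∈ Asp v (E.erase e) := by
  obtain ⟨π, s, hker, hs, hdiv⟩ := exists_contr (v e) hv
  have hfd : FiniteDimensional K (Asp v E) := (Asp_finrank_le v E).1
  have hrec := mu_rec (rk v) (rk (fun f => π (v f))) E e he hco
    (fun X _ => rk_contr v e hv π hker X)
  have hA : (Module.finrank K (Asp v E) : ℤ) = mu (rk v) E :=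
    le_antisymm (Asp_finrank_le v E).2 (le_Asp_finrank v E)
  have hA' : (Module.finrank K (Asp v (E.erase e)) : ℤ) = mu (rk v) (E.erase e) :=
    le_antisymm (Asp_finrank_le v _).2 (le_Asp_finrank v _)
  have hA'' : (Module.finrank K (Asp (fun f => π (v f)) (E.erase e)) : ℤ) =
      mu (rk (fun f => π (v f))) (E.erase e) :=
    le_antisymm (Asp_finrank_le _ _).2 (le_Asp_finrank _ _)
  have hmap := Asp_map v E e he hv π s hker hs
  have hrn := aux_rank_nullity s.toLinearMap (Asp v E)
  rw [hmap] at hrn
  have hπ : π (v e) = 0 := by
    have : v e ∈ LinearMap.ker π := by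
      rw [hker]
      exact Submodule.mem_span_singleton_self _
    exact this
  have hs0 : ∀ p, s (lin (v e) * p) = 0 := by
    intro p
    rw [map_mul, hs, hπ, map_zero, zero_mul]
  have hBle : (Asp v (E.erase e)).map (LinearMap.mulLeft K (lin (v e))) ≤
      Asp v E ⊓ LinearMap.ker s.toLinearMap := by
    rintro x ⟨p, hp, rfl⟩
    exact ⟨Asp_del v E e he hco p hp, hs0 p⟩
  have hBrank : Module.finrank K ((Asp v (E.erase e)).map (LinearMap.mulLeft K (lin (v e)))) =
      Module.finrank K (Asp v E ⊓ LinearMap.ker s.toLinearMap : Submodule K (MvPolynomial (Fin m) K)) := by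
    rw [aux_finrank_map _ (aux_mul_inj (v e) hv)]
    omega
  have hfd2 : FiniteDimensional K (Asp v E ⊓ LinearMap.ker s.toLinearMap :
      Submodule K (MvPolynomial (Fin m) K)) :=
    Submodule.finiteDimensional_of_le inf_le_left
  have hBeq := Submodule.eq_of_le_of_finrank_eq hBle hBrank
  have hmem : lin (v e) * q ∈ (Asp v E ⊓ LinearMap.ker s.toLinearMap :
      Submodule K (MvPolynomial (Fin m) K)) := ⟨hq, hs0 q⟩
  rw [← hBeq] at hmem
  obtain ⟨q', hq', hqq⟩ := hmem
  have : q' = q := aux_mul_inj (v e) hv hqq
  rwa [← this]

theorem aux_union_le {α : Type} [DecidableEq α] {r : Finset α → ℕ} (hr : IsRk r)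
    (X Y : Finset α) : r (X ∪ Y) ≤ r X + Y.card := by
  induction Y using Finset.induction_on with
  | empty => simp
  | insert a Y ha ih =>
    have h1 : X ∪ insert a Y = insert a (X ∪ Y) := by
      rw [Finset.union_insert]
    rw [h1, Finset.card_insert_of_notMem ha]
    have := hr.insert_le (X ∪ Y) a
    omega

theorem aux_le_card {α : Type} [DecidableEq α] {r : Finset α → ℕ} (hr : IsRk r)
    (X : Finset α) : r X ≤ X.card := by
  have := aux_union_le hr ∅ X
  rw [Finset.empty_union, hr.empty, zero_add] at this
  exact this

theorem aux_indep_sub {α : Type} [DecidableEq α] {r : Finset α → ℕ} (hr : IsRk r)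
    {E Y : Finset α} (hE : r E = E.card) (hY : Y ⊆ E) : r Y = Y.card := by
  have h1 := aux_union_le hr Y (E \ Y)
  rw [Finset.union_sdiff_of_subset hY, Finset.card_sdiff_of_subset hY] at h1
  have h2 := aux_le_card hr Y
  have h3 := Finset.card_le_card hY
  omega

theorem aux_exists_noncoloop {α : Type} [DecidableEq α] {r : Finset α → ℕ} (hr : IsRk r)
    {E : Finset α} (hE : r E ≠ E.card) : ∃ e ∈ E, r (E.erase e) = r E := by
  by_contra hcon
  push Not at hcon
  apply hE
  have key : ∀ X : Finset α, X ⊆ E → r X = X.card := by
    intro X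
    induction X using Finset.induction_on with
    | empty => intro _; simpa using hr.empty
    | insert a X ha ih =>
      intro hX
      have haE : a ∈ E := hX (Finset.mem_insert_self _ _)
      have hXE : X ⊆ E := fun y hy => hX (Finset.mem_insert_of_mem hy)
      have h1 := ih hXE
      have h2 := hr.submod (insert a X) (E.erase a)
      have h3 : insert a X ∪ E.erase a = E := by
        ext y
        simp only [Finset.mem_union, Finset.mem_insert, Finset.mem_erase]
        constructor
        · rintro ((rfl | h) | ⟨_, h⟩)
          · exact haE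
          · exact hXE h
          · exact h
        · intro h
          by_cases hy : y = a
          · exact Or.inl (Or.inl hy)
          · exact Or.inr ⟨hy, h⟩
      have h4 : insert a X ∩ E.erase a = X := by
        ext y
        simp only [Finset.mem_inter, Finset.mem_insert, Finset.mem_erase]
        constructor
        · rintro ⟨h5 | h5, h6, _⟩
          · exact absurd h5 h6
          · exact h5
        · intro h
          refine ⟨Or.inr h, ?_, hXE h⟩
          rintro rfl
          exact ha h
      rw [h3, h4] at h2
      have h5 := hcon a haE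
      have h6 := hr.mono (E.erase a) E (Finset.erase_subset _ _)
      have h7 := hr.insert_le X a
      rw [Finset.card_insert_of_notMem ha]
      omega
  exact key E (Finset.Subset.refl _)

theorem aux_Psi_le_Asp {K : Type} [Field K] {α : Type} [DecidableEq α] {m : ℕ}
    (v : α → (Fin m → K)) (E : Finset α) (hE : 1 ≤ rk v E) :
    FiniteDimensional K (Psi v E) ∧
      Module.finrank K (Psi v E) ≤ Module.finrank K (Asp v E) ∧
      ∃ w ∈ Submodule.span K (v '' (E : Set α)), w ≠ 0 := by
  have hfd : FiniteDimensional K (Asp v E) := (Asp_finrank_le v E).1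
  have hne : Submodule.span K (v '' (E : Set α)) ≠ ⊥ := by
    intro h
    unfold rk at hE
    rw [h, finrank_bot] at hE
    omega
  obtain ⟨w, hw, hw0⟩ := Submodule.exists_mem_ne_zero_of_ne_bot hne
  have hle : (Psi v E).map (LinearMap.mulLeft K (lin w)) ≤ Asp v E := by
    rintro x ⟨ψ, hψ, rfl⟩
    exact hψ w hw
  have hfd2 : FiniteDimensional K ((Psi v E).map (LinearMap.mulLeft K (lin w))) :=
    Submodule.finiteDimensional_of_le hle
  refine ⟨?_, ?_, w, hw, hw0⟩
  · exact Module.Finite.equiv
      (Submodule.equivMapOfInjective (LinearMap.mulLeft K (lin w)) (aux_mul_inj w hw0) (Psi v E)).symm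
  · rw [← aux_finrank_map _ (aux_mul_inj w hw0) (Psi v E)]
    exact Submodule.finrank_mono hle

theorem aux_step {K : Type} [Field K] {α : Type} [DecidableEq α] {m : ℕ}
    (v : α → (Fin m → K)) (E : Finset α) (hE : 2 ≤ rk v E) (e : α) (he : e ∈ E) (hv : v e ≠ 0)
    (hco : rk v (E.erase e) = rk v E)
    (ih : ∀ v' : α → (Fin m → K), 1 ≤ rk v' (E.erase e) → FiniteDimensional K (Psi v' (E.erase e)) ∧
      (Module.finrank K (Psi v' (E.erase e)) : ℤ) ≤ beta (rk v') (E.erase e)) :
    (Module.finrank K (Psi v E) : ℤ) ≤ beta (rk v) E := by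
  obtain ⟨π, s, hker, hs, hdiv⟩ := exists_contr (v e) hv
  have hfdP : FiniteDimensional K (Psi v E) := (aux_Psi_le_Asp v E (by omega)).1
  have hins : insert e (E.erase e) = E := Finset.insert_erase he
  have hc := rk_contr v e hv π hker (E.erase e)
  rw [hins] at hc
  obtain ⟨f1, i1⟩ := ih v (by omega)
  obtain ⟨f2, i2⟩ := ih (fun f => π (v f)) (by omega)
  have hne : (E.erase e).Nonempty := by
    rw [Finset.nonempty_iff_ne_empty]
    intro h
    rw [h] at hco
    have := (rk_isRk v).empty
    omega
  have hrec := beta_rec (rk v) (rk (fun f => π (v f))) E e he hne hco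
    (fun X _ => rk_contr v e hv π hker X)
  have hmap := Asp_map v E e he hv π s hker hs
  have hrn := aux_rank_nullity s.toLinearMap (Psi v E)
  have hsub : Submodule.span K (v '' ((E.erase e : Finset α) : Set α)) ≤
      Submodule.span K (v '' (E : Set α)) := by
    apply Submodule.span_mono
    apply Set.image_mono
    exact_mod_cast Finset.erase_subset e E
  have h1 : (Psi v E).map s.toLinearMap ≤ Psi (fun f => π (v f)) (E.erase e) := by
    rintro x ⟨ψ, hψ, rfl⟩
    intro w' hw'
    have h2 : (fun f => π (v f)) '' ((E.erase e : Finset α) : Set α) =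
        π '' (v '' ((E.erase e : Finset α) : Set α)) := by
      rw [Set.image_image]
    rw [h2, ← Submodule.map_span] at hw'
    obtain ⟨w, hw, rfl⟩ := hw'
    rw [← hmap]
    refine ⟨lin w * ψ, hψ w (hsub hw), ?_⟩
    show s (lin w * ψ) = lin (π w) * s ψ
    rw [map_mul, hs]
  have h3 : (Psi v E ⊓ LinearMap.ker s.toLinearMap : Submodule K (MvPolynomial (Fin m) K)) ≤
      (Psi v (E.erase e)).map (LinearMap.mulLeft K (lin (v e))) := by
    rintro ψ ⟨hψ, hk⟩
    have hk' : s ψ = 0 := hk
    obtain ⟨φ, rfl⟩ := hdiv ψ hk'
    refine ⟨φ, ?_, rfl⟩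
    intro w hw
    apply Asp_exact v E e he hv hco
    have h4 := hψ w (hsub hw)
    have h5 : lin (v e) * (lin w * φ) = lin w * (lin (v e) * φ) := by ring
    rw [h5]
    exact h4
  have h6 : Module.finrank K ((Psi v E).map s.toLinearMap) ≤
      Module.finrank K (Psi (fun f => π (v f)) (E.erase e)) := Submodule.finrank_mono h1
  have hfd3 : FiniteDimensional K ((Psi v (E.erase e)).map (LinearMap.mulLeft K (lin (v e)))) :=
    inferInstance
  have h7 : Module.finrank K (Psi v E ⊓ LinearMap.ker s.toLinearMap :
      Submodule K (MvPolynomial (Fin m) K)) ≤ Module.finrank K (Psi v (E.erase e)) := by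
    rw [← aux_finrank_map _ (aux_mul_inj (v e) hv) (Psi v (E.erase e))]
    exact Submodule.finrank_mono h3
  omega

theorem aux_Psi_bot {K : Type} [Field K] {α : Type} [DecidableEq α] {m : ℕ}
    (v : α → (Fin m → K)) (E : Finset α) (h : ∀ ψ ∈ Psi v E, ψ = 0) :
    Module.finrank K (Psi v E) = 0 := by
  have : Psi v E = ⊥ := by
    rw [eq_bot_iff]
    intro ψ hψ
    exact h ψ hψ
  rw [this, finrank_bot]

theorem aux_main {K : Type} [Field K] {α : Type} [DecidableEq α] {m : ℕ} (n : ℕ) :
    ∀ (E : Finset α), E.card = n → ∀ (v : α → (Fin m → K)), 1 ≤ rk v E →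
    FiniteDimensional K (Psi v E) ∧
      (Module.finrank K (Psi v E) : ℤ) ≤ beta (rk v) E := by
  induction n using Nat.strong_induction_on with
  | _ n ih =>
    intro E hn v hE
    obtain ⟨hfd, hle, w, hw, hw0⟩ := aux_Psi_le_Asp v E hE
    refine ⟨hfd, ?_⟩
    have hr := rk_isRk v
    by_cases h0 : ∃ e ∈ E, v e = 0
    · obtain ⟨e, he, hve⟩ := h0
      have hloop := mu_loop (rk v) E e he (fun X _ => rk_insert_loop v e hve X)
      rw [hloop.2]
      have hAbot : Asp v E ≤ ⊥ := by
        unfold Asp
        rw [Submodule.span_le]
        rintro p ⟨B, ⟨hB1, hB2, hB3⟩, rfl⟩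
        have heB : e ∉ B := by
          intro heB
          have h1 := rk_insert_loop v e hve (B.erase e)
          rw [Finset.insert_erase heB] at h1
          have h2 := aux_le_card hr (B.erase e)
          rw [Finset.card_erase_of_mem heB] at h2
          have h3 : 0 < B.card := Finset.card_pos.2 ⟨e, heB⟩
          omega
        have : pr v (E \ B) = 0 := by
          unfold pr
          apply Finset.prod_eq_zero (Finset.mem_sdiff.2 ⟨he, heB⟩)
          rw [hve, map_zero]
        rw [this]
        exact Submodule.zero_mem _
      have h1 := aux_Psi_bot v E (by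
        intro ψ hψ
        have h2 := hAbot (hψ w hw)
        have h3 : lin w * ψ = 0 := h2
        rcases mul_eq_zero.1 h3 with h4 | h4
        · exact absurd h4 (lin_ne_zero w hw0)
        · exact h4)
      rw [h1]
      simp
    · push Not at h0
      rcases Nat.eq_or_lt_of_le hE with h1 | h1
      · have h2 := mu_eq_beta_rank_one (rk v) hr E h1.symm
        rw [← h2]
        have h3 := (Asp_finrank_le v E).2
        have h4 : (Module.finrank K (Psi v E) : ℤ) ≤ (Module.finrank K (Asp v E) : ℤ) := by
          exact_mod_cast hle
        linarith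
      · by_cases hind : rk v E = E.card
        · have hcard : 1 < E.card := by omega
          obtain ⟨e, he⟩ : E.Nonempty := Finset.card_pos.1 (by omega)
          have hne : (E.erase e).Nonempty := by
            rw [← Finset.card_pos, Finset.card_erase_of_mem he]
            omega
          have hco := mu_coloop (rk v) E e he (by
            intro X hX
            have hXE : X ⊆ E := hX.trans (Finset.erase_subset _ _)
            have heX : e ∉ X := fun h => by
              have := hX h
              simp at this
            rw [aux_indep_sub hr hind hXE,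
              aux_indep_sub hr hind (Finset.insert_subset he hXE),
              Finset.card_insert_of_notMem heX]) (fun X hX => hr.mono _ _ hX)
          rw [hco.2 hne]
          have hAle : Asp v E ≤ Submodule.span K {(1 : MvPolynomial (Fin m) K)} := by
            unfold Asp
            rw [Submodule.span_le]
            rintro p ⟨B, ⟨hB1, hB2, hB3⟩, rfl⟩
            have hBE : B = E := Finset.eq_of_subset_of_card_le hB1 (by omega)
            rw [hBE, Finset.sdiff_self]
            unfold pr
            rw [Finset.prod_empty]
            exact Submodule.mem_span_singleton_self _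
          have h2 := aux_Psi_bot v E (by
            intro ψ hψ
            have h3 := hAle (hψ w hw)
            obtain ⟨c, hc⟩ := Submodule.mem_span_singleton.1 h3
            apply lin_mul_const w hw0 ψ c
            rw [← hc, MvPolynomial.smul_eq_C_mul, mul_one])
          rw [h2]
          simp
        · obtain ⟨e, he, hee⟩ := aux_exists_noncoloop hr hind
          apply aux_step v E h1 e he (h0 e he) hee
          intro v' hv'
          have hlt : (E.erase e).card < n := by
            rw [Finset.card_erase_of_mem he, hn]
            have : 0 < E.card := Finset.card_pos.2 ⟨e, he⟩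
            omega
          exact ih _ hlt (E.erase e) rfl v' hv'

theorem Psi_finrank_le {K : Type} [Field K] {α : Type} [DecidableEq α] {m : ℕ}
    (v : α → (Fin m → K)) (E : Finset α) (hE : 1 ≤ rk v E) :
    FiniteDimensional K (Psi v E) ∧
      (Module.finrank K (Psi v E) : ℤ) ≤ beta (rk v) E :=
  aux_main E.card E rfl v hE



end A7
end DC813
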