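import Pool.Agent.Helper813.DC.Defs
import Pool.Agent.Helper813.DC.A2

set_option autoImplicit false

namespace DC813
namespace A8
open Finset
open A2


section
variable {K : Type} [Field K] {α : Type} [DecidableEq α] {m : ℕ} (v : α → (Fin m → K))

/-- span of the vectors of a finite set -/
abbrev sp (X : Finset α) : Submodule K (Fin m → K) := Submodule.span K (v '' (X : Set α))

theorem sp_mono {X Y : Finset α} (h : X ⊆ Y) : sp v X ≤ sp v Y :=
  Submodule.span_mono (Set.image_mono (by exact_mod_cast h))

theorem mem_sp {X : Finset α} {x : α} (h : x ∈ X) : v x ∈ sp v X :=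
  Submodule.subset_span ⟨x, by exact_mod_cast h, rfl⟩

theorem sp_union (X Y : Finset α) : sp v (X ∪ Y) = sp v X ⊔ sp v Y := by
  simp only [sp, Finset.coe_union, Set.image_union, Submodule.span_union]

theorem sp_insert (x : α) (X : Finset α) :
    sp v (insert x X) = Submodule.span K {v x} ⊔ sp v X := by
  simp only [sp, Finset.coe_insert, Set.image_insert_eq, Submodule.span_insert]

theorem sp_le_iff {X : Finset α} {U : Submodule K (Fin m → K)} :
    sp v X ≤ U ↔ ∀ x ∈ X, v x ∈ U := by
  simp only [sp, Submodule.span_le]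
  constructor
  · intro h x hx; exact h ⟨x, by exact_mod_cast hx, rfl⟩
  · rintro h _ ⟨x, hx, rfl⟩; exact h x (by exact_mod_cast hx)

theorem rk_eq_of_sp {X Y : Finset α} (h : sp v X = sp v Y) : rk v X = rk v Y := by
  unfold rk; rw [show Submodule.span K (v '' (X : Set α)) = Submodule.span K (v '' (Y : Set α)) from h]

theorem sp_eq_of_rk {X Y : Finset α} (hXY : X ⊆ Y) (h : rk v X = rk v Y) : sp v X = sp v Y :=
  Submodule.eq_of_le_of_finrank_eq (sp_mono v hXY) h

theorem rk_le_card' (X : Finset α) : rk v X ≤ X.card := by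
  induction X using Finset.induction_on with
  | empty => simp [(rk_isRk v).empty]
  | insert a s ha ih =>
    have := (rk_isRk v).insert_le s a
    rw [Finset.card_insert_of_notMem ha]; omega

theorem rk_union_le' (X Y : Finset α) : rk v (X ∪ Y) ≤ rk v X + Y.card := by
  have := (rk_isRk v).submod X Y
  have := rk_le_card' v Y
  omega

/-- `R` is a basis of `X / F` -/
def Cob (X F R : Finset α) : Prop :=
  R ⊆ X \ F ∧ sp v (F ∪ R) = sp v X ∧ rk v F + R.card = rk v X

theorem pr_union {A B : Finset α} (h : Disjoint A B) : pr v (A ∪ B) = pr v A * pr v B := by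
  unfold pr; exact Finset.prod_union h

theorem pr_insert {A : Finset α} {x : α} (h : x ∉ A) : pr v (insert x A) = lin (v x) * pr v A := by
  unfold pr; exact Finset.prod_insert h

/-- products of `Asp v F` with the complement of a relative basis -/
theorem M1 {X F R : Finset α} (hFX : F ⊆ X) (hR : Cob v X F R) (a : MvPolynomial (Fin m) K)
    (ha : a ∈ Asp v F) : a * pr v (X \ (F ∪ R)) ∈ Asp v X := by
  obtain ⟨hR1, hR2, hR3⟩ := hR
  unfold Asp at ha
  induction ha using Submodule.span_induction with
  | mem p hp =>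
    obtain ⟨B, ⟨hB1, hB2, hB3⟩, rfl⟩ := hp
    apply Submodule.subset_span
    refine ⟨B ∪ R, ⟨?_, ?_, ?_⟩, ?_⟩
    · exact Finset.union_subset (hB1.trans hFX) (hR1.trans Finset.sdiff_subset)
    · have h1 : sp v (B ∪ R) = sp v X := by
        rw [sp_union, sp_eq_of_rk v hB1 hB3, ← sp_union, hR2]
      rw [rk_eq_of_sp v h1, Finset.card_union_of_disjoint]
      · omega
      · rw [Finset.disjoint_left]
        intro x hx hx'
        exact (Finset.mem_sdiff.1 (hR1 hx')).2 (hB1 hx)
    · have h1 : sp v (B ∪ R) = sp v X := by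
        rw [sp_union, sp_eq_of_rk v hB1 hB3, ← sp_union, hR2]
      exact rk_eq_of_sp v h1
    · rw [← pr_union]
      · congr 1
        ext x
        simp only [Finset.mem_union, Finset.mem_sdiff, not_or]
        constructor
        · rintro (⟨h1, h2⟩ | ⟨h1, h2, h3⟩)
          · refine ⟨hFX h1, h2, fun h => (Finset.mem_sdiff.1 (hR1 h)).2 h1⟩
          · exact ⟨h1, fun h => h2 (hB1 h), h3⟩
        · rintro ⟨h1, h2, h3⟩
          by_cases hF : x ∈ F
          · exact Or.inl ⟨hF, h2⟩
          · exact Or.inr ⟨h1, hF, h3⟩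
      · rw [Finset.disjoint_left]
        intro x hx hx'
        simp only [Finset.mem_union, Finset.mem_sdiff, not_or] at hx hx'
        exact hx'.2.1 hx.1
  | zero => rw [zero_mul]; exact Submodule.zero_mem _
  | add x y _ _ hx hy => rw [add_mul]; exact Submodule.add_mem _ hx hy
  | smul c x _ hx => rw [smul_mul_assoc]; exact Submodule.smul_mem _ c hx

/-- the subspace generated by the products `W Ψ` -/
noncomputable def Tsp (E : Finset α) : Submodule K (MvPolynomial (Fin m) K) :=
  Submodule.span K {p | ∃ w ∈ Submodule.span K (v '' (E : Set α)), ∃ ψ ∈ Psi v E, p = lin w * ψ}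

/-- the inductive statement for a flat `F` -/
def SF (E F : Finset α) : Prop :=
  ∀ ψ ∈ Psi v F, ∀ w ∈ sp v F, ∀ R, Cob v E F R → lin w * ψ * pr v (E \ (F ∪ R)) ∈ Tsp v E

theorem cob_disj {X F R : Finset α} (hR : Cob v X F R) : sp v F ⊓ sp v R = ⊥ := by
  obtain ⟨hR1, hR2, hR3⟩ := hR
  have h1 := Submodule.finrank_sup_add_finrank_inf_eq (sp v F) (sp v R)
  rw [← sp_union, hR2] at h1
  have h2 : Module.finrank K (sp v R) ≤ R.card := rk_le_card' v R
  have h3 : Module.finrank K (sp v F) = rk v F := rfl
  have h4 : Module.finrank K (sp v X) = rk v X := rfl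
  have h5 : Module.finrank K ↥(sp v F ⊓ sp v R) = 0 := by omega
  exact Submodule.finrank_eq_zero.1 h5

/-- closing step -/
theorem step_base (E : Finset α) (F : Finset α) (hFE : F ⊆ E)
    (hflat : ∀ x ∈ E, v x ∈ sp v F → x ∈ F)
    (φ : (Fin m → K) →ₗ[K] MvPolynomial (Fin m) K)
    (φ1 : ∀ f ∈ sp v F, φ f ∈ Asp v F)
    (φ2 : ∀ f ∈ sp v F, ∀ g ∈ sp v F, lin g * φ f = lin f * φ g)
    (IH : ∀ X, F ⊂ X → X ⊆ E → (∀ x ∈ E, v x ∈ sp v X → x ∈ X) → SF v E X)
    (R : Finset α) (hR : Cob v E F R) (e : α) (heE : e ∈ E) (heF : e ∉ F) :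
    ∃ g ∈ sp v F, ∃ ρ ∈ sp v R, v e = g + ρ ∧ φ g * pr v (E \ (F ∪ R)) ∈ Tsp v E := by
  classical
  have hdis := cob_disj v hR
  obtain ⟨hR1, hR2, hR3⟩ := hR
  have hve : v e ∈ sp v F ⊔ sp v R := by
    rw [← sp_union, hR2]; exact mem_sp v heE
  obtain ⟨g, hg, ρ, hρ, hgρ⟩ := Submodule.mem_sup.1 hve
  refine ⟨g, hg, ρ, hρ, hgρ.symm, ?_⟩
  by_cases hg0 : g = 0
  · rw [hg0, map_zero, zero_mul]; exact Submodule.zero_mem _
  -- coefficients
  obtain ⟨c, hc⟩ := (Submodule.mem_span_image_finset_iff_exists_fun' K).1 hρ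
  set R₀ : Finset α := R.filter (fun x => c x ≠ 0) with hR₀
  have hR₀R : R₀ ⊆ R := Finset.filter_subset _ _
  have hρ0 : ρ = ∑ x ∈ R₀, c x • v x := by
    rw [← hc, hR₀, Finset.sum_filter]
    apply Finset.sum_congr rfl
    intro x _
    by_cases h : c x = 0 <;> simp [h]
  have hFR : ∀ x ∈ R, x ∉ F := fun x hx => (Finset.mem_sdiff.1 (hR1 hx)).2
  have hRE : R ⊆ E := hR1.trans Finset.sdiff_subset
  -- e is not in R
  have heR : e ∉ R := by
    intro h
    apply hg0
    have h1 : g ∈ sp v F ⊓ sp v R := by
      refine ⟨hg, ?_⟩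
      have : g = v e - ρ := by rw [← hgρ]; abel
      rw [this]
      exact Submodule.sub_mem _ (mem_sp v h) hρ
    rw [hdis] at h1
    exact (Submodule.mem_bot K).1 h1
  have heR₀ : e ∉ R₀ := fun h => heR (hR₀R h)
  -- ranks
  have hrk0 : rk v (F ∪ R₀) = rk v F + R₀.card := by
    have h1 : rk v (F ∪ R₀) ≤ rk v F + R₀.card := rk_union_le' v F R₀
    have h2 : rk v (F ∪ R) ≤ rk v (F ∪ R₀) + (R \ R₀).card := by
      have : F ∪ R = (F ∪ R₀) ∪ (R \ R₀) := by
        ext x; simp only [Finset.mem_union, Finset.mem_sdiff]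
        constructor
        · rintro (h | h)
          · exact Or.inl (Or.inl h)
          · by_cases h' : x ∈ R₀
            · exact Or.inl (Or.inr h')
            · exact Or.inr ⟨h, h'⟩
        · rintro ((h | h) | h)
          · exact Or.inl h
          · exact Or.inr (hR₀R h)
          · exact Or.inr h.1
      rw [this]; exact rk_union_le' v _ _
    have h3 : rk v (F ∪ R) = rk v E := rk_eq_of_sp v hR2
    have h4 : (R \ R₀).card = R.card - R₀.card := Finset.card_sdiff_of_subset hR₀R
    have h5 : R₀.card ≤ R.card := Finset.card_le_card hR₀R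
    omega
  -- the flat X
  set X : Finset α := E.filter (fun x => v x ∈ sp v (F ∪ R₀)) with hX
  have hXE : X ⊆ E := Finset.filter_subset _ _
  have hFX : F ⊆ X := fun x hx => Finset.mem_filter.2
    ⟨hFE hx, mem_sp v (Finset.mem_union_left _ hx)⟩
  have hR₀X : R₀ ⊆ X := fun x hx => Finset.mem_filter.2
    ⟨hRE (hR₀R hx), mem_sp v (Finset.mem_union_right _ hx)⟩
  have hspX : sp v X = sp v (F ∪ R₀) := by
    apply le_antisymm
    · rw [sp_le_iff]; intro x hx; exact (Finset.mem_filter.1 hx).2
    · exact sp_mono v (Finset.union_subset hFX hR₀X)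
  have hrkX : rk v X = rk v F + R₀.card := by rw [rk_eq_of_sp v hspX, hrk0]
  have hρX : ρ ∈ sp v R₀ := by
    rw [hρ0]; exact Submodule.sum_mem _ (fun x hx => Submodule.smul_mem _ _ (mem_sp v hx))
  have heX : e ∈ X := by
    refine Finset.mem_filter.2 ⟨heE, ?_⟩
    rw [← hgρ, sp_union]
    exact Submodule.add_mem _ (Submodule.mem_sup_left hg) (Submodule.mem_sup_right hρX)
  have hRX : ∀ x ∈ R, x ∈ X → x ∈ R₀ := by
    intro x hx hxX
    by_contra hx0
    have h1 : v x ∈ sp v (F ∪ R₀) := (Finset.mem_filter.1 hxX).2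
    have h2 : sp v (F ∪ R) = sp v (F ∪ R.erase x) := by
      apply le_antisymm
      · rw [sp_le_iff]; intro y hy
        by_cases hyx : y = x
        · rw [hyx]
          refine sp_mono v ?_ h1
          intro z hz
          rcases Finset.mem_union.1 hz with h | h
          · exact Finset.mem_union_left _ h
          · exact Finset.mem_union_right _ (Finset.mem_erase.2 ⟨fun h' => hx0 (h' ▸ h), hR₀R h⟩)
        · apply mem_sp
          rcases Finset.mem_union.1 hy with h | h
          · exact Finset.mem_union_left _ h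
          · exact Finset.mem_union_right _ (Finset.mem_erase.2 ⟨hyx, h⟩)
      · exact sp_mono v (Finset.union_subset_union_right (Finset.erase_subset _ _))
    have h3 := rk_union_le' v F (R.erase x)
    have h4 : rk v (F ∪ R) = rk v E := rk_eq_of_sp v hR2
    have h5 := rk_eq_of_sp v h2
    rw [Finset.card_erase_of_mem hx] at h3
    have h6 : 0 < R.card := Finset.card_pos.2 ⟨x, hx⟩
    omega
  have hFne : F ⊂ X := by
    rw [Finset.ssubset_iff_of_subset hFX]
    exact ⟨e, heX, heF⟩
  have hXflat : ∀ x ∈ E, v x ∈ sp v X → x ∈ X := by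
    intro x hx h; rw [hspX] at h; exact Finset.mem_filter.2 ⟨hx, h⟩
  have hSX := IH X hFne hXE hXflat
  -- relative bases of X / F
  have hcob0 : Cob v X F R₀ := by
    refine ⟨?_, hspX.symm, by omega⟩
    intro x hx
    exact Finset.mem_sdiff.2 ⟨hR₀X hx, hFR x (hR₀R hx)⟩
  set Z : Finset α := insert e R₀ with hZ
  have hcobr : ∀ x ∈ R₀, Cob v X F (Z.erase x) := by
    intro x hx
    have hxe : x ≠ e := fun h => heR₀ (h ▸ hx)
    refine ⟨?_, ?_, ?_⟩
    · intro y hy
      have hy' := Finset.mem_of_mem_erase hy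
      rcases Finset.mem_insert.1 hy' with h | h
      · rw [h]; exact Finset.mem_sdiff.2 ⟨heX, heF⟩
      · exact Finset.mem_sdiff.2 ⟨hR₀X h, hFR y (hR₀R h)⟩
    · apply le_antisymm
      · rw [sp_le_iff]; intro y hy
        rcases Finset.mem_union.1 hy with h | h
        · exact mem_sp v (hFX h)
        · have hy' := Finset.mem_of_mem_erase h
          rcases Finset.mem_insert.1 hy' with h' | h'
          · rw [h']; exact mem_sp v heX
          · exact mem_sp v (hR₀X h')
      · rw [hspX, sp_le_iff]; intro y hy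
        by_cases hyx : y = x
        · subst hyx
          have hcy : c y ≠ 0 := (Finset.mem_filter.1 hx).2
          have hsum : ρ = c y • v y + ∑ z ∈ R₀.erase y, c z • v z := by
            rw [hρ0]; exact (Finset.add_sum_erase R₀ (fun z => c z • v z) hx).symm
          have h1 : v y = (c y)⁻¹ • (v e - g - ∑ z ∈ R₀.erase y, c z • v z) := by
            have : v e - g - ∑ z ∈ R₀.erase y, c z • v z = c y • v y := by
              rw [← hgρ, hsum]; abel
            rw [this, smul_smul, inv_mul_cancel₀ hcy, one_smul]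
          rw [h1]
          apply Submodule.smul_mem
          apply Submodule.sub_mem
          · apply Submodule.sub_mem
            · exact mem_sp v (Finset.mem_union_right _
                (Finset.mem_erase.2 ⟨hxe.symm, Finset.mem_insert_self _ _⟩))
            · exact sp_mono v Finset.subset_union_left hg
          · apply Submodule.sum_mem
            intro z hz
            apply Submodule.smul_mem
            apply mem_sp
            exact Finset.mem_union_right _ (Finset.mem_erase.2
              ⟨Finset.ne_of_mem_erase hz, Finset.mem_insert_of_mem (Finset.mem_of_mem_erase hz)⟩)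
        · apply mem_sp
          rcases Finset.mem_union.1 hy with h | h
          · exact Finset.mem_union_left _ h
          · exact Finset.mem_union_right _ (Finset.mem_erase.2
              ⟨hyx, Finset.mem_insert_of_mem h⟩)
    · rw [Finset.card_erase_of_mem (Finset.mem_insert_of_mem hx),
        Finset.card_insert_of_notMem heR₀]
      omega
  -- product manipulations
  have hFZ : X \ (F ∪ R₀) = insert e (X \ (F ∪ Z)) := by
    ext x
    simp only [hZ, Finset.mem_sdiff, Finset.mem_union, Finset.mem_insert, not_or]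
    constructor
    · rintro ⟨h1, h2, h3⟩
      by_cases hxe : x = e
      · exact Or.inl hxe
      · exact Or.inr ⟨h1, h2, hxe, h3⟩
    · rintro (h | ⟨h1, h2, h3, h4⟩)
      · rw [h]; exact ⟨heX, heF, heR₀⟩
      · exact ⟨h1, h2, h4⟩
  have he1 : lin (v e) * pr v (X \ (F ∪ Z)) = pr v (X \ (F ∪ R₀)) := by
    rw [hFZ, pr_insert]
    simp [hZ]
  have he2 : ∀ x ∈ R₀, lin (v x) * pr v (X \ (F ∪ Z)) = pr v (X \ (F ∪ Z.erase x)) := by
    intro x hx
    have hxe : x ≠ e := fun h => heR₀ (h ▸ hx)
    have : X \ (F ∪ Z.erase x) = insert x (X \ (F ∪ Z)) := by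
      ext y
      simp only [hZ, Finset.mem_sdiff, Finset.mem_union, Finset.mem_insert, not_or,
        Finset.mem_erase, not_and]
      constructor
      · rintro ⟨h1, h2, h3⟩
        by_cases hyx : y = x
        · exact Or.inl hyx
        · exact Or.inr ⟨h1, h2, h3 hyx⟩
      · rintro (h | ⟨h1, h2, h3, h4⟩)
        · rw [h]; exact ⟨hR₀X hx, hFR x (hR₀R hx), fun h' => absurd rfl h'⟩
        · exact ⟨h1, h2, fun _ => ⟨h3, h4⟩⟩
    rw [this, pr_insert]
    simp [hZ, hx]
  -- ψ' is in Psi v X
  set ψ' : MvPolynomial (Fin m) K := φ g * pr v (X \ (F ∪ Z)) with hψ'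
  have hψ'mem : ψ' ∈ Psi v X := by
    intro w hw
    have hw' : w ∈ sp v F ⊔ sp v R₀ := by
      rw [← sp_union, ← hspX]; exact hw
    obtain ⟨w1, hw1, w2, hw2, rfl⟩ := Submodule.mem_sup.1 hw'
    rw [map_add, add_mul]
    apply Submodule.add_mem
    · have h1 : lin w1 * ψ' = φ w1 * pr v (X \ (F ∪ R₀))
          - ∑ x ∈ R₀, c x • (φ w1 * pr v (X \ (F ∪ Z.erase x))) := by
        have hlg : (lin g : MvPolynomial (Fin m) K) = lin (v e) - ∑ x ∈ R₀, c x • lin (v x) := by
          have : g = v e - ∑ x ∈ R₀, c x • v x := by rw [← hρ0, ← hgρ]; abel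
          rw [this, map_sub, map_sum]
          congr 1
          apply Finset.sum_congr rfl
          intro x _; rw [map_smul]
        rw [hψ', ← mul_assoc, φ2 g hg w1 hw1, hlg, sub_mul, sub_mul, ← he1]
        congr 1
        · ring
        · rw [Finset.sum_mul, Finset.sum_mul]
          apply Finset.sum_congr rfl
          intro x hx
          rw [← he2 x hx, smul_mul_assoc, smul_mul_assoc]
          congr 1
          ring
      rw [h1]
      apply Submodule.sub_mem
      · exact M1 v hFX hcob0 _ (φ1 w1 hw1)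
      · apply Submodule.sum_mem
        intro x hx
        apply Submodule.smul_mem
        exact M1 v hFX (hcobr x hx) _ (φ1 w1 hw1)
    · obtain ⟨a, ha⟩ := (Submodule.mem_span_image_finset_iff_exists_fun' K).1 hw2
      have h1 : lin w2 * ψ' = ∑ x ∈ R₀, a x • (φ g * pr v (X \ (F ∪ Z.erase x))) := by
        rw [← ha, map_sum, Finset.sum_mul]
        apply Finset.sum_congr rfl
        intro x hx
        rw [map_smul, smul_mul_assoc, ← he2 x hx, hψ']
        congr 1
        ring
      rw [h1]
      apply Submodule.sum_mem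
      intro x hx
      apply Submodule.smul_mem
      exact M1 v hFX (hcobr x hx) _ (φ1 g hg)
  -- use the inductive statement
  have hcobX : Cob v E X (R \ R₀) := by
    refine ⟨?_, ?_, ?_⟩
    · intro x hx
      rw [Finset.mem_sdiff] at hx
      exact Finset.mem_sdiff.2 ⟨hRE hx.1, fun h => hx.2 (hRX x hx.1 h)⟩
    · apply le_antisymm
      · exact sp_mono v (Finset.union_subset hXE (Finset.sdiff_subset.trans hRE))
      · rw [← hR2]
        apply sp_mono
        intro x hx
        rcases Finset.mem_union.1 hx with h | h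
        · exact Finset.mem_union_left _ (hFX h)
        · by_cases h' : x ∈ R₀
          · exact Finset.mem_union_left _ (hR₀X h')
          · exact Finset.mem_union_right _ (Finset.mem_sdiff.2 ⟨h, h'⟩)
    · have h4 : (R \ R₀).card = R.card - R₀.card := Finset.card_sdiff_of_subset hR₀R
      have h5 : R₀.card ≤ R.card := Finset.card_le_card hR₀R
      omega
  have hfin := hSX ψ' hψ'mem (v e) (mem_sp v heX) (R \ R₀) hcobX
  have hprod : lin (v e) * ψ' * pr v (E \ (X ∪ (R \ R₀))) = φ g * pr v (E \ (F ∪ R)) := by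
    have h1 : pr v (E \ (F ∪ R)) = pr v (X \ (F ∪ R₀)) * pr v (E \ (X ∪ (R \ R₀))) := by
      rw [← pr_union]
      · congr 1
        ext x
        simp only [Finset.mem_sdiff, Finset.mem_union, not_or, not_and, not_not]
        constructor
        · rintro ⟨h1, h2, h3⟩
          by_cases hx : x ∈ X
          · exact Or.inl ⟨hx, h2, fun h => h3 (hR₀R h)⟩
          · exact Or.inr ⟨h1, hx, fun h => absurd h h3⟩
        · rintro (⟨h1, h2, h3⟩ | ⟨h1, h2, h3⟩)
          · exact ⟨hXE h1, h2, fun h => h3 (hRX x h h1)⟩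
          · exact ⟨h1, fun h => h2 (hFX h), fun h => h2 (hR₀X (h3 h))⟩
      · rw [Finset.disjoint_left]
        intro x hx hx'
        simp only [Finset.mem_sdiff, Finset.mem_union, not_or] at hx hx'
        exact hx'.2.1 hx.1
    rw [h1, ← he1, hψ']
    ring
  rw [hprod] at hfin
  exact hfin

/-- the inductive step -/
theorem step (E : Finset α) (hrd : Round (rk v) E) (F : Finset α) (hFE : F ⊆ E)
    (hflat : ∀ x ∈ E, v x ∈ sp v F → x ∈ F) (hFne : F ≠ E)
    (φ : (Fin m → K) →ₗ[K] MvPolynomial (Fin m) K)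
    (φ1 : ∀ f ∈ sp v F, φ f ∈ Asp v F)
    (φ2 : ∀ f ∈ sp v F, ∀ g ∈ sp v F, lin g * φ f = lin f * φ g)
    (IH : ∀ X, F ⊂ X → X ⊆ E → (∀ x ∈ E, v x ∈ sp v X → x ∈ X) → SF v E X)
    (R : Finset α) (hR : Cob v E F R) :
    ∀ f ∈ sp v F, φ f * pr v (E \ (F ∪ R)) ∈ Tsp v E := by
  have hlt : rk v F ≠ rk v E := by
    intro h
    apply hFne
    apply Finset.Subset.antisymm hFE
    intro x hx
    apply hflat x hx
    rw [sp_eq_of_rk v hFE h]
    exact mem_sp v hx
  have hEF : rk v (E \ F) = rk v E := by
    rcases hrd F (E \ F) (by rw [Finset.union_sdiff_of_subset hFE]) with h | h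
    · exact absurd h hlt
    · exact h
  have hsp : sp v (E \ F) = sp v E := sp_eq_of_rk v Finset.sdiff_subset hEF
  have key : ∀ f ∈ sp v (E \ F), ∃ g ∈ sp v F, ∃ ρ ∈ sp v R,
      f = g + ρ ∧ φ g * pr v (E \ (F ∪ R)) ∈ Tsp v E := by
    intro f hf
    unfold sp at hf
    induction hf using Submodule.span_induction with
    | mem f hf =>
      obtain ⟨e, he, rfl⟩ := hf
      have he' := Finset.mem_sdiff.1 (show e ∈ E \ F by exact_mod_cast he)
      exact step_base v E F hFE hflat φ φ1 φ2 IH R hR e he'.1 he'.2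
    | zero =>
      exact ⟨0, Submodule.zero_mem _, 0, Submodule.zero_mem _, by simp, by
        rw [map_zero, zero_mul]; exact Submodule.zero_mem _⟩
    | add x y _ _ hx hy =>
      obtain ⟨g1, hg1, r1, hr1, h1, h1'⟩ := hx
      obtain ⟨g2, hg2, r2, hr2, h2, h2'⟩ := hy
      refine ⟨g1 + g2, Submodule.add_mem _ hg1 hg2, r1 + r2, Submodule.add_mem _ hr1 hr2, ?_, ?_⟩
      · rw [h1, h2]; abel
      · rw [map_add, add_mul]; exact Submodule.add_mem _ h1' h2'
    | smul c x _ hx =>
      obtain ⟨g1, hg1, r1, hr1, h1, h1'⟩ := hx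
      refine ⟨c • g1, Submodule.smul_mem _ _ hg1, c • r1, Submodule.smul_mem _ _ hr1, ?_, ?_⟩
      · rw [h1, smul_add]
      · rw [map_smul, smul_mul_assoc]; exact Submodule.smul_mem _ _ h1'
  intro f hf
  obtain ⟨g, hg, ρ, hρ, hgρ, hmem⟩ := key f (by rw [hsp]; exact sp_mono v hFE hf)
  have hρ0 : ρ ∈ sp v F ⊓ sp v R := by
    refine ⟨?_, hρ⟩
    have : ρ = f - g := by rw [hgρ]; abel
    rw [this]; exact Submodule.sub_mem _ hf hg
  rw [cob_disj v hR] at hρ0
  have : f = g := by rw [hgρ, (Submodule.mem_bot K).1 hρ0, add_zero]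
  rw [this]; exact hmem

/-- the statement `SF` holds for all flats -/
theorem SF_all (E : Finset α) (hrd : Round (rk v) E) :
    ∀ N : ℕ, ∀ F : Finset α, F ⊆ E → (∀ x ∈ E, v x ∈ sp v F → x ∈ F) → (E \ F).card = N →
      SF v E F := by
  intro N
  induction N using Nat.strong_induction_on with
  | _ N ih =>
    intro F hFE hflat hN
    by_cases hFne : F = E
    · subst hFne
      intro ψ hψ w hw R hR
      have hR0 : R = ∅ := by
        have := hR.1
        rw [Finset.sdiff_self] at this
        exact Finset.subset_empty.1 this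
      subst hR0
      have : F \ (F ∪ ∅) = ∅ := by simp
      rw [this]
      have h1 : pr v (∅ : Finset α) = 1 := by simp [pr]
      rw [h1, mul_one]
      exact Submodule.subset_span ⟨w, hw, ψ, hψ, rfl⟩
    · intro ψ hψ w hw R hR
      have := step v E hrd F hFE hflat hFne
        ((LinearMap.mulRight K ψ).comp lin)
        (fun f hf => by simpa using hψ f hf)
        (fun f _ g _ => by simp [mul_left_comm])
        (fun X hFX hXE hXflat => ih (E \ X).card (by
          rw [← hN]
          apply Finset.card_lt_card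
          rw [Finset.ssubset_iff_of_subset (Finset.sdiff_subset_sdiff (le_refl E) hFX.1)]
          obtain ⟨x, hx, hx'⟩ := Finset.exists_of_ssubset hFX
          exact ⟨x, Finset.mem_sdiff.2 ⟨hXE hx, hx'⟩, fun h => (Finset.mem_sdiff.1 h).2 hx⟩)
          X hXE hXflat rfl)
        R hR w hw
      simpa using this

end

theorem main_span {K : Type} [Field K] {α : Type} [DecidableEq α] {m : ℕ}
    (v : α → (Fin m → K)) (E : Finset α) (hr : Round (rk v) E)
    (hl : ∀ e ∈ E, v e ≠ 0) (h2 : 2 ≤ rk v E) :
    Asp v E ≤ Submodule.span K {p | ∃ w ∈ Submodule.span K (v '' (E : Set α)),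
      ∃ ψ ∈ Psi v E, p = lin w * ψ} := by
  classical
  change Asp v E ≤ Tsp v E
  unfold Asp
  rw [Submodule.span_le]
  rintro _ ⟨B, ⟨hB1, hB2, hB3⟩, rfl⟩
  have hBne : B.Nonempty := by
    rw [← Finset.card_pos]; omega
  obtain ⟨p, hp⟩ := hBne
  have hvp : v p ≠ 0 := hl p (hB1 hp)
  obtain ⟨i0, hi0⟩ : ∃ i, v p i ≠ 0 := by
    by_contra h; push_neg at h; exact hvp (funext h)
  set F : Finset α := E.filter (fun x => v x ∈ Submodule.span K {v p}) with hF
  have hFE : F ⊆ E := Finset.filter_subset _ _
  have hpF : p ∈ F := Finset.mem_filter.2 ⟨hB1 hp, Submodule.mem_span_singleton_self _⟩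
  have hspF : sp v F = Submodule.span K {v p} := by
    apply le_antisymm
    · rw [sp_le_iff]; intro x hx; exact (Finset.mem_filter.1 hx).2
    · rw [Submodule.span_singleton_le_iff_mem]; exact mem_sp v hpF
  have hrkF : rk v F = 1 := by
    have : rk v F = Module.finrank K (Submodule.span K {v p}) := by
      unfold rk; rw [← hspF]
    rw [this]; exact finrank_span_singleton hvp
  have hflat : ∀ x ∈ E, v x ∈ sp v F → x ∈ F := by
    intro x hx h; rw [hspF] at h; exact Finset.mem_filter.2 ⟨hx, h⟩
  have hFne : F ≠ E := by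
    intro h; rw [h] at hrkF; omega
  -- elements of B other than p are not in F
  have hBF : ∀ x ∈ B, x ∈ F → x = p := by
    intro x hx hxF
    by_contra hne
    have h1 : v x ∈ Submodule.span K {v p} := (Finset.mem_filter.1 hxF).2
    have h2 : sp v B = sp v (B.erase x) := by
      apply le_antisymm
      · rw [sp_le_iff]; intro y hy
        by_cases hyx : y = x
        · rw [hyx]
          have : Submodule.span K {v p} ≤ sp v (B.erase x) := by
            rw [Submodule.span_singleton_le_iff_mem]
            exact mem_sp v (Finset.mem_erase.2 ⟨fun h => hne h.symm, hp⟩)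
          exact this h1
        · exact mem_sp v (Finset.mem_erase.2 ⟨hyx, hy⟩)
      · exact sp_mono v (Finset.erase_subset _ _)
    have h3 := rk_eq_of_sp v h2
    have h4 := rk_le_card' v (B.erase x)
    rw [Finset.card_erase_of_mem hx] at h4
    have h5 : 0 < B.card := Finset.card_pos.2 ⟨x, hx⟩
    omega
  have hcob : Cob v E F (B.erase p) := by
    refine ⟨?_, ?_, ?_⟩
    · intro x hx
      refine Finset.mem_sdiff.2 ⟨hB1 (Finset.mem_of_mem_erase hx), fun h => ?_⟩
      exact Finset.ne_of_mem_erase hx (hBF x (Finset.mem_of_mem_erase hx) h)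
    · apply le_antisymm
      · exact sp_mono v (Finset.union_subset hFE ((Finset.erase_subset _ _).trans hB1))
      · rw [← sp_eq_of_rk v hB1 hB3]
        apply sp_mono
        intro x hx
        by_cases hxp : x = p
        · rw [hxp]; exact Finset.mem_union_left _ hpF
        · exact Finset.mem_union_right _ (Finset.mem_erase.2 ⟨hxp, hx⟩)
    · rw [Finset.card_erase_of_mem hp, hrkF]
      have : 0 < B.card := Finset.card_pos.2 ⟨p, hp⟩
      omega
  set φ : (Fin m → K) →ₗ[K] MvPolynomial (Fin m) K :=
    { toFun := fun w => (w i0 / v p i0) • pr v (F.erase p)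
      map_add' := by intro a b; simp [add_div, add_smul]
      map_smul' := by intro c a; simp [mul_div_assoc, mul_smul] } with hφ
  have hφp : φ (v p) = pr v (F.erase p) := by
    simp [hφ, div_self hi0]
  have hmemF : pr v (F.erase p) ∈ Asp v F := by
    apply Submodule.subset_span
    refine ⟨{p}, ⟨?_, ?_, ?_⟩, ?_⟩
    · simpa using hpF
    · have : rk v {p} = 1 := by
        have h0 : Submodule.span K (v '' (({p} : Finset α) : Set α)) = Submodule.span K {v p} := by
          rw [Finset.coe_singleton, Set.image_singleton]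
        unfold rk; rw [h0]
        exact finrank_span_singleton hvp
      rw [this]; simp
    · have : rk v {p} = 1 := by
        have h0 : Submodule.span K (v '' (({p} : Finset α) : Set α)) = Submodule.span K {v p} := by
          rw [Finset.coe_singleton, Set.image_singleton]
        unfold rk; rw [h0]
        exact finrank_span_singleton hvp
      rw [this, hrkF]
    · rw [Finset.sdiff_singleton_eq_erase]
  have hres := step v E hr F hFE hflat hFne φ
    (fun f hf => by
      change (f i0 / v p i0) • pr v (F.erase p) ∈ Asp v F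
      exact Submodule.smul_mem _ _ hmemF)
    (fun f hf g hg => by
      rw [hspF] at hf hg
      obtain ⟨a, rfl⟩ := Submodule.mem_span_singleton.1 hf
      obtain ⟨b, rfl⟩ := Submodule.mem_span_singleton.1 hg
      rw [map_smul, map_smul, map_smul, map_smul, smul_mul_smul_comm, smul_mul_smul_comm,
        mul_comm b a])
    (fun X hFX hXE hXflat => SF_all v E hr _ X hXE hXflat rfl)
    (B.erase p) hcob (v p) (by rw [hspF]; exact Submodule.mem_span_singleton_self _)
  rw [hφp, ← pr_union] at hres
  · have : F.erase p ∪ E \ (F ∪ B.erase p) = E \ B := by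
      ext x
      simp only [Finset.mem_union, Finset.mem_erase, Finset.mem_sdiff, not_or, not_and]
      constructor
      · rintro (⟨h1, h2⟩ | ⟨h1, h2, h3⟩)
        · exact ⟨hFE h2, fun h => h1 (hBF x h h2)⟩
        · refine ⟨h1, fun h => h3 ?_ h⟩
          intro hxp; exact h2 (hxp ▸ hpF)
      · rintro ⟨h1, h2⟩
        by_cases hxF : x ∈ F
        · exact Or.inl ⟨fun h => h2 (h ▸ hp), hxF⟩
        · exact Or.inr ⟨h1, hxF, fun _ => h2⟩
    rw [this] at hres
    exact hres
  · rw [Finset.disjoint_left]
    intro x hx hx'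
    simp only [Finset.mem_erase, Finset.mem_sdiff, Finset.mem_union, not_or] at hx hx'
    exact hx'.2.1 hx.2


end A8
end DC813
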