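import Pool.Agent.Helper813.DC.Defs
import Pool.Agent.Helper813.DC.A1
import Pool.Agent.Helper813.DC.A2
import Pool.Agent.Helper813.DC.A4
import Pool.Agent.Helper813.DC.A5
import Pool.Agent.Helper813.DC.A7
import Pool.Agent.Helper813.DC.A8

set_option autoImplicit false

namespace DC813
namespace A9
open Finset
open A1 A2 A4 A5 A7 A8



theorem A9_ext {α : Type} [DecidableEq α] {r : Finset α → ℕ} (hr : IsRk r) (B X : Finset α)
    (h : ∀ e ∈ X, r (insert e B) = r B) : r (B ∪ X) = r B := by
  induction X using Finset.induction_on with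
  | empty => simp
  | insert e X _ ih =>
    have ih' := ih (fun f hf => h f (Finset.mem_insert_of_mem hf))
    have h1 := h e (Finset.mem_insert_self e X)
    have h2 := hr.submod (B ∪ X) (insert e B)
    have h3 : r B ≤ r ((B ∪ X) ∩ insert e B) := hr.mono _ _ (fun y hy => by
      simp [hy])
    have h4 : B ∪ insert e X = (B ∪ X) ∪ insert e B := by
      ext y; simp only [Finset.mem_union, Finset.mem_insert]; tauto
    have h5 : r B ≤ r (B ∪ insert e X) := hr.mono _ _ Finset.subset_union_left
    rw [h4] at h5 ⊢
    omega

theorem A9_base {K : Type} [Field K] {α : Type} [DecidableEq α] {m : ℕ}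
    (v : α → (Fin m → K)) (E : Finset α) : ∃ B, IsBase v E B := by
  classical
  have hr := rk_isRk v
  -- a maximal independent subset
  obtain ⟨B, hB, hmax⟩ := Finset.exists_max_image (E.powerset.filter (fun B => rk v B = B.card))
    (fun B => B.card) ⟨∅, by simp [hr.empty]⟩
  rw [Finset.mem_filter, Finset.mem_powerset] at hB
  refine ⟨B, hB.1, hB.2, ?_⟩
  have h1 : ∀ e ∈ E, rk v (insert e B) = rk v B := by
    intro e he
    by_cases heB : e ∈ B
    · rw [Finset.insert_eq_of_mem heB]
    · by_contra hne
      have h2 := hr.insert_le B e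
      have h3 := hr.mono B (insert e B) (Finset.subset_insert _ _)
      have h4 : rk v (insert e B) = (insert e B).card := by
        rw [Finset.card_insert_of_notMem heB]; omega
      have h5 := hmax (insert e B) (by
        rw [Finset.mem_filter, Finset.mem_powerset]
        exact ⟨Finset.insert_subset he hB.1, h4⟩)
      simp only [Finset.card_insert_of_notMem heB] at h5
      omega
  have h2 := A9_ext hr B E h1
  rw [Finset.union_eq_right.2 hB.1] at h2
  exact h2.symm

/-- the inequality `mu ≤ rank * beta` for non-splitting loopless configurations -/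
theorem E1 {K : Type} [Field K] {α : Type} [DecidableEq α] {m : ℕ}
    (v : α → (Fin m → K)) (E : Finset α) (hr : Round (rk v) E)
    (hl : ∀ e ∈ E, v e ≠ 0) (h1 : 1 ≤ rk v E) :
    mu (rk v) E ≤ (rk v E : ℤ) * beta (rk v) E := by
  rcases Nat.lt_or_ge (rk v E) 2 with h2 | h2
  · have h3 : rk v E = 1 := by omega
    rw [h3, mu_eq_beta_rank_one (rk v) (rk_isRk v) E h3]
    simp
  · obtain ⟨hfd, hP⟩ := Psi_finrank_le v E h1
    have hA := le_Asp_finrank v E
    have hms := main_span v E hr hl h2
    set U := Submodule.span K (v '' (E : Set α)) with hU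
    let b := Module.finBasis K U
    let T : (Fin (Module.finrank K U) → Psi v E) →ₗ[K] MvPolynomial (Fin m) K :=
      ∑ i, (LinearMap.mulLeft K (lin (b i : Fin m → K))) ∘ₗ (Psi v E).subtype ∘ₗ
        (LinearMap.proj i)
    have hT : ∀ ψ, T ψ = ∑ i, lin (b i : Fin m → K) * (ψ i : MvPolynomial (Fin m) K) := by
      intro ψ
      simp [T]
    have hle : Asp v E ≤ LinearMap.range T := by
      refine hms.trans (Submodule.span_le.2 ?_)
      rintro p ⟨w, hw, ψ, hψ, rfl⟩
      refine ⟨fun i => (b.repr ⟨w, hw⟩ i) • (⟨ψ, hψ⟩ : Psi v E), ?_⟩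
      rw [hT]
      have hw' : w = ∑ i, b.repr ⟨w, hw⟩ i • (b i : Fin m → K) := by
        have := congrArg (Submodule.subtype U) (b.sum_repr ⟨w, hw⟩)
        rw [map_sum] at this
        simpa using this.symm
      conv_rhs => rw [hw', map_sum, Finset.sum_mul]
      refine Finset.sum_congr rfl (fun i _ => ?_)
      rw [map_smul]
      simp only [Submodule.coe_smul, smul_mul_assoc, mul_smul_comm]
    have hf1 : Module.finrank K (Asp v E) ≤ Module.finrank K (LinearMap.range T) :=
      Submodule.finrank_mono hle
    have hf2 : Module.finrank K (LinearMap.range T) ≤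
        Module.finrank K (Fin (Module.finrank K U) → Psi v E) := LinearMap.finrank_range_le T
    have hf3 : Module.finrank K (Fin (Module.finrank K U) → Psi v E) =
        rk v E * Module.finrank K (Psi v E) := by
      rw [Module.finrank_pi_fintype, Finset.sum_const, Finset.card_univ, Fintype.card_fin,
        smul_eq_mul]
      rfl
    have hf4 : (Module.finrank K (Asp v E) : ℤ) ≤ (rk v E : ℤ) * Module.finrank K (Psi v E) := by
      have := hf1.trans (hf2.trans hf3.le)
      exact_mod_cast this
    have hf5 : (rk v E : ℤ) * Module.finrank K (Psi v E) ≤ (rk v E : ℤ) * beta (rk v) E :=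
      mul_le_mul_of_nonneg_left hP (by positivity)
    linarith

/-- positivity of `mu` for loopless configurations -/
theorem mu_pos {K : Type} [Field K] {α : Type} [DecidableEq α] {m : ℕ}
    (v : α → (Fin m → K)) (E : Finset α) (hl : ∀ e ∈ E, v e ≠ 0) :
    1 ≤ mu (rk v) E := by
  obtain ⟨hfd, hle⟩ := Asp_finrank_le v E
  obtain ⟨B, hB⟩ := A9_base v E
  have h1 : pr v (E \ B) ≠ 0 := by
    unfold pr
    rw [Finset.prod_ne_zero_iff]
    intro f hf
    exact lin_ne_zero _ (hl f (Finset.mem_sdiff.1 hf).1)
  have h2 : pr v (E \ B) ∈ Asp v E := Submodule.subset_span ⟨B, hB, rfl⟩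
  have h3 : Asp v E ≠ ⊥ := by
    intro h
    rw [h, Submodule.mem_bot] at h2
    exact h1 h2
  have h4 : 1 ≤ Module.finrank K (Asp v E) := Submodule.one_le_finrank_iff.2 h3
  have h5 : (1 : ℤ) ≤ Module.finrank K (Asp v E) := by exact_mod_cast h4
  linarith

theorem A9_d (c k : ℕ) : Polynomial.eval 1 (Polynomial.derivative
    ((-1 : Polynomial ℤ) ^ c * Polynomial.X ^ k)) = (-1 : ℤ) ^ c * (k : ℤ) := by
  have : (-1 : Polynomial ℤ) ^ c = Polynomial.C ((-1) ^ c) := by simp
  rw [this, Polynomial.derivative_C_mul_X_pow]
  simp

theorem A9_f0 (n : ℕ) : ∏ i ∈ Finset.Icc 1 n, (0 - (i : ℤ)) = (-1) ^ n * (n.factorial : ℤ) := by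
  induction n with
  | zero => simp
  | succ n ih =>
    rw [Finset.prod_Icc_succ_top (by omega), ih, Nat.factorial_succ]
    push_cast
    ring

theorem A9_f1 (n : ℕ) : ∏ i ∈ Finset.Icc 2 (n + 1), (1 - (i : ℤ)) =
    (-1) ^ n * (n.factorial : ℤ) := by
  induction n with
  | zero => simp
  | succ n ih =>
    rw [Finset.prod_Icc_succ_top (by omega), ih, Nat.factorial_succ]
    push_cast
    ring

/-- non-splitting matroid with falling factorial characteristic polynomial is critical -/
theorem crit_of_rep {K : Type} [Field K] {α : Type} [Fintype α] [DecidableEq α] {m : ℕ}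
    (n : ℕ) (hn : 1 ≤ n) (v : α → (Fin m → K)) (hr : Round (rk v) univ)
    (hs : ∀ a b : α, rk v {a, b} = ({a, b} : Finset α).card)
    (hχ : (∑ X : Finset α, (-1 : Polynomial ℤ) ^ X.card *
            Polynomial.X ^ (rk v Finset.univ - rk v X))
        = ∏ i ∈ Finset.Icc 1 n, (Polynomial.X - Polynomial.C (i : ℤ)))
    (hrk : rk v univ = n) :
    Crit (rk v) := by
  classical
  have hR := rk_isRk v
  have hle : ∀ X, rk v X ≤ n := fun X => hrk ▸ hR.mono X univ (Finset.subset_univ X)
  have hone : ∀ x, rk v {x} = 1 := by
    intro x
    have := hs x x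
    simpa using this
  intro x
  rcases Nat.lt_or_ge n 2 with hn2 | hn2
  · have hn1 : n = 1 := by omega
    refine ⟨∅, ∅, ?_, ?_, by simp, by simp, ?_⟩
    · intro e _
      rw [hR.empty]
      have : insert e (∅ : Finset α) = {e} := rfl
      rw [this, hone]
      norm_num
    · intro e _
      rw [hR.empty]
      have : insert e (∅ : Finset α) = {e} := rfl
      rw [this, hone]
      norm_num
    · intro y hy
      exfalso
      have h1 := hs y x
      have h2 := hle {y, x}
      rw [Finset.card_pair hy] at h1
      omega
  · by_contra hcon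
    set E' := (univ : Finset α).erase x with hE'
    have hxE' : insert x E' = univ := Finset.insert_erase (Finset.mem_univ x)
    -- (i)
    have h1 : rk v E' = n := by
      rcases hr E' {x} (by
        ext y
        simp only [hE', Finset.mem_union, Finset.mem_erase, Finset.mem_univ, and_true,
          Finset.mem_singleton, iff_true]
        tauto) with h | h
      · rw [h, hrk]
      · rw [hone, hrk] at h; omega
    -- (ii)
    have hcl : ∀ X : Finset α, ∃ F, X ⊆ F ∧ Flat (rk v) F ∧ rk v F = rk v X := by
      intro X
      set F := univ.filter (fun y => rk v (insert y X) = rk v X) with hF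
      have hXF : X ⊆ F := by
        intro y hy
        rw [hF, Finset.mem_filter]
        exact ⟨Finset.mem_univ y, by rw [Finset.insert_eq_of_mem hy]⟩
      have hrF : rk v F = rk v X := by
        have h3 := A9_ext hR X F (fun e he => (Finset.mem_filter.1 he).2)
        rwa [Finset.union_eq_right.2 hXF] at h3
      refine ⟨F, hXF, ?_, hrF⟩
      intro e he
      have h4 : rk v (insert e X) ≠ rk v X := fun h5 =>
        he (Finset.mem_filter.2 ⟨Finset.mem_univ e, h5⟩)
      have h5 := hR.mono X (insert e X) (Finset.subset_insert _ _)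
      have h6 := hR.mono (insert e X) (insert e F) (Finset.insert_subset_insert _ hXF)
      omega
    have h2 : Round (rk v) E' := by
      intro X Y hXY
      by_contra hne
      push Not at hne
      obtain ⟨hX, hY⟩ := hne
      rw [h1] at hX hY
      obtain ⟨F₁, hF1, hF1f, hF1r⟩ := hcl X
      obtain ⟨F₂, hF2, hF2f, hF2r⟩ := hcl Y
      have hcov : ∀ y, y ≠ x → y ∈ X ∨ y ∈ Y := by
        intro y hy
        have : y ∈ X ∪ Y := by
          rw [hXY, hE']
          exact Finset.mem_erase.2 ⟨hy, Finset.mem_univ y⟩
        exact Finset.mem_union.1 this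
      by_cases hx1 : x ∈ F₁
      · rcases hr F₁ Y (by
          ext y
          simp only [Finset.mem_union, Finset.mem_univ, iff_true]
          by_cases hy : y = x
          · subst hy; exact Or.inl hx1
          · rcases hcov y hy with h | h
            · exact Or.inl (hF1 h)
            · exact Or.inr h) with h | h
        · rw [hF1r, hrk] at h; exact hX h
        · rw [hrk] at h; exact hY h
      · by_cases hx2 : x ∈ F₂
        · rcases hr X F₂ (by
            ext y
            simp only [Finset.mem_union, Finset.mem_univ, iff_true]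
            by_cases hy : y = x
            · subst hy; exact Or.inr hx2
            · rcases hcov y hy with h | h
              · exact Or.inl h
              · exact Or.inr (hF2 h)) with h | h
          · rw [hrk] at h; exact hX h
          · rw [hF2r, hrk] at h; exact hY h
        · exact hcon ⟨F₁, F₂, hF1f, hF2f, hx1, hx2, fun y hy => by
            rcases hcov y hy with h | h
            · exact Or.inl (hF1 h)
            · exact Or.inr (hF2 h)⟩
    -- (iii)
    have hvne : ∀ y, v y ≠ 0 := by
      intro y hy
      have h3 := rk_insert_loop v y hy ∅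
      have h4 : insert y (∅ : Finset α) = {y} := rfl
      rw [h4, hone, hR.empty] at h3
      omega
    obtain ⟨π, -, hπ, -, -⟩ := exists_contr (v x) (hvne x)
    set v' : α → (Fin m → K) := fun f => π (v f) with hv'
    have hcontr : ∀ X, rk v' X + 1 = rk v (insert x X) := fun X => rk_contr v x (hvne x) π hπ X
    have hR' := rk_isRk v'
    have hv'ne : ∀ e ∈ E', v' e ≠ 0 := by
      intro y hy h0
      have hyx : y ≠ x := (Finset.mem_erase.1 hy).1
      have h3 := rk_insert_loop v' y h0 ∅
      have h4 := hcontr (insert y ∅)
      rw [h3, hR'.empty] at h4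
      have h5 := hs x y
      rw [Finset.card_pair hyx.symm] at h5
      have h6 : insert x (insert y (∅ : Finset α)) = {x, y} := rfl
      rw [h6, h5] at h4
      omega
    have hrk' : rk v' E' + 1 = n := by
      rw [hcontr, hxE', hrk]
    have h3 : Round (rk v') E' := by
      intro X Y hXY
      rcases hr (insert x X) (insert x Y) (by
        ext y
        simp only [Finset.mem_union, Finset.mem_univ, iff_true, Finset.mem_insert]
        by_cases hy : y = x
        · exact Or.inl (Or.inl hy)
        · have : y ∈ X ∪ Y := by
            rw [hXY, hE']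
            exact Finset.mem_erase.2 ⟨hy, Finset.mem_univ y⟩
          rcases Finset.mem_union.1 this with h | h
          · exact Or.inl (Or.inr h)
          · exact Or.inr (Or.inr h)) with h | h
      · left
        have := hcontr X
        omega
      · right
        have := hcontr Y
        omega
    -- (iv)
    have hE1 := E1 v E' h2 (fun e _ => hvne e) (by omega)
    have hE2 := E1 v' E' h3 hv'ne (by omega)
    have hmp := mu_pos v' E' hv'ne
    have hmr := mu_rec (rk v) (rk v') univ x (Finset.mem_univ x) (by rw [← hE', h1, hrk])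
      (fun X _ => hcontr X)
    have hne' : E'.Nonempty := by
      rw [Finset.nonempty_iff_ne_empty]
      intro h0
      rw [h0, hR.empty] at h1
      omega
    have hbr := beta_rec (rk v) (rk v') univ x (Finset.mem_univ x) hne' (by rw [← hE', h1, hrk])
      (fun X _ => hcontr X)
    rw [← hE'] at hmr hbr
    rw [h1] at hE1
    have hrk'' : (rk v' E' : ℤ) = n - 1 := by
      have : ((rk v' E' + 1 : ℕ) : ℤ) = (n : ℤ) := by exact_mod_cast hrk'
      push_cast at this
      linarith
    rw [hrk''] at hE2
    have hn2' : (2 : ℤ) ≤ n := by exact_mod_cast hn2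
    have hbpos : 1 ≤ beta (rk v') E' := by
      by_contra hb
      push Not at hb
      have hb0 : beta (rk v') E' ≤ 0 := by omega
      nlinarith
    have hlt : mu (rk v) univ < n * beta (rk v) univ := by
      rw [hmr, hbr]
      nlinarith
    -- (v)
    have hmu : mu (rk v) univ = n.factorial := by
      have h4 := congrArg (Polynomial.eval 0) hχ
      rw [Polynomial.eval_finset_sum, Polynomial.eval_prod] at h4
      simp only [Polynomial.eval_sub, Polynomial.eval_X, Polynomial.eval_C] at h4
      rw [A9_f0] at h4
      unfold mu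
      have h5 : ∑ X ∈ (univ : Finset α).powerset.filter (fun X => rk v X = rk v univ),
          (-1 : ℤ) ^ X.card = (-1) ^ n * (n.factorial : ℤ) := by
        rw [← h4, Finset.sum_filter, Finset.powerset_univ]
        refine Finset.sum_congr rfl (fun X _ => ?_)
        rw [Polynomial.eval_mul, Polynomial.eval_pow, Polynomial.eval_pow, Polynomial.eval_neg,
          Polynomial.eval_one, Polynomial.eval_X]
        have h6 := hle X
        rw [hrk]
        by_cases h7 : rk v X = n
        · rw [if_pos h7, h7]; simp
        · rw [if_neg h7, zero_pow (by omega), mul_zero]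
      rw [h5, hrk, ← mul_assoc, ← pow_add, ← two_mul, pow_mul]
      simp
    have hbe : beta (rk v) univ = (n - 1).factorial := by
      have h4 := congrArg (fun p => Polynomial.eval 1 (Polynomial.derivative p)) hχ
      simp only [Polynomial.derivative_sum, Polynomial.eval_finset_sum, A9_d] at h4
      obtain ⟨k, rfl⟩ : ∃ k, n = k + 1 := ⟨n - 1, by omega⟩
      have h5 : Finset.Icc 1 (k + 1) = insert 1 (Finset.Icc 2 (k + 1)) := by
        ext y; simp only [Finset.mem_Icc, Finset.mem_insert]; omega
      rw [h5, Finset.prod_insert (by simp), Polynomial.derivative_mul] at h4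
      simp only [Polynomial.eval_add, Polynomial.eval_mul, Polynomial.eval_sub, Polynomial.eval_X,
        Polynomial.eval_C, Polynomial.derivative_sub, Polynomial.derivative_X,
        Polynomial.derivative_C, Polynomial.eval_one, Polynomial.eval_zero, sub_zero, one_mul,
        Nat.cast_one, sub_self, zero_mul, add_zero, Polynomial.eval_prod] at h4
      rw [A9_f1] at h4
      have h6 : ∀ X : Finset α, (((rk v univ - rk v X : ℕ)) : ℤ) = (k + 1 : ℤ) - rk v X := by
        intro X
        rw [hrk, Nat.cast_sub (hle X)]
        push_cast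
        ring
      simp only [h6, mul_sub, Finset.sum_sub_distrib, ← Finset.sum_mul] at h4
      have h7 : ∑ X : Finset α, (-1 : ℤ) ^ X.card = 0 := by
        have := Finset.sum_powerset_neg_one_pow_card_of_nonempty (x := (univ : Finset α))
          ⟨x, Finset.mem_univ x⟩
        rwa [Finset.powerset_univ] at this
      rw [h7, zero_mul, zero_sub] at h4
      unfold beta
      rw [Finset.powerset_univ, hrk]
      have h8 : ∑ X : Finset α, (-1 : ℤ) ^ X.card * (rk v X : ℤ) =
          -((-1) ^ k * (k.factorial : ℤ)) := by linarith
      rw [h8, pow_succ]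
      have h9 : ((-1 : ℤ) ^ k) * (-1) ^ k = 1 := by
        rw [← pow_add, ← two_mul, pow_mul]; simp
      simp only [Nat.add_sub_cancel]
      linear_combination (k.factorial : ℤ) * h9
    rw [hmu, hbe] at hlt
    obtain ⟨k, rfl⟩ : ∃ k, n = k + 1 := ⟨n - 1, by omega⟩
    rw [Nat.factorial_succ] at hlt
    simp only [Nat.add_sub_cancel] at hlt
    push_cast at hlt
    exact lt_irrefl _ hlt


end A9
end DC813
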