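import Pool.Agent.Helper813.DC.Defs

set_option autoImplicit false

namespace DC813
namespace B1
open Finset


section aux
variable {α : Type} [DecidableEq α] {r : Finset α → ℕ}

theorem cl_le (hr : IsRk r) {X Y : Finset α} {e : α} (hXY : X ⊆ Y) (h : r (insert e X) ≤ r X) :
    r (insert e Y) ≤ r Y := by
  have h1 := hr.submod (insert e X) Y
  have h2 : insert e X ∪ Y = insert e Y := by
    rw [Finset.insert_union, Finset.union_eq_right.2 hXY]
  have h3 : r X ≤ r (insert e X ∩ Y) :=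
    hr.mono _ _ (Finset.subset_inter (Finset.subset_insert _ _) hXY)
  rw [h2] at h1
  omega

theorem flat_mem (hr : IsRk r) {F X : Finset α} {e : α} (hF : Flat r F) (hX : X ⊆ F)
    (h : r (insert e X) ≤ r X) : e ∈ F := by
  by_contra he
  have h1 := hF e he
  have h2 := cl_le hr hX h
  omega

theorem r_pair (hs : ∀ a b : α, r {a, b} = ({a, b} : Finset α).card) {a b : α} (h : a ≠ b) :
    r {a, b} = 2 := by
  rw [hs, Finset.card_pair h]

theorem pair_le (hr : IsRk r) (hs : ∀ a b : α, r {a, b} = ({a, b} : Finset α).card)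
    {t : Finset α} (ht : r t ≤ 2) {p q e : α} (hp : p ∈ t) (hq : q ∈ t) (he : e ∈ t)
    (hpq : p ≠ q) : r (insert e {p, q}) ≤ r {p, q} := by
  rw [r_pair hs hpq]
  refine (hr.mono _ t ?_).trans ht
  intro z hz
  rw [Finset.mem_insert, Finset.mem_insert, Finset.mem_singleton] at hz
  rcases hz with rfl | rfl | rfl <;> assumption

/-- a flat containing two points of a set of rank at most two contains the set -/
theorem flat_line (hr : IsRk r) (hs : ∀ a b : α, r {a, b} = ({a, b} : Finset α).card)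
    {F t : Finset α} (hF : Flat r F) (ht : r t ≤ 2) {p q e : α} (hp : p ∈ t) (hq : q ∈ t)
    (he : e ∈ t) (hpq : p ≠ q) (hpF : p ∈ F) (hqF : q ∈ F) : e ∈ F := by
  refine flat_mem hr hF (X := {p, q}) ?_ (pair_le hr hs ht hp hq he hpq)
  intro z hz
  rw [Finset.mem_insert, Finset.mem_singleton] at hz
  rcases hz with rfl | rfl <;> assumption

end aux

/-- lines have at most three points -/
theorem line3 {α : Type} [Fintype α] [DecidableEq α] (r : Finset α → ℕ) (hr : IsRk r)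
    (hs : ∀ a b : α, r {a, b} = ({a, b} : Finset α).card) (hc : Crit r) :
    ∀ t : Finset α, t.card = 3 → r t = 2 → ∀ y, y ∉ t → r (insert y t) = 3 := by
  intro t ht hrt y hy
  by_contra hne
  have h1 := hr.insert_le t y
  have h2 : r (insert y t) ≤ 2 := by omega
  obtain ⟨F1, F2, hF1, hF2, hy1, hy2, hcov⟩ := hc y
  obtain ⟨a, b, c, hab, hac, hbc, rfl⟩ := Finset.card_eq_three.1 ht
  have ha : a ∈ insert y ({a, b, c} : Finset α) := by simp
  have hb : b ∈ insert y ({a, b, c} : Finset α) := by simp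
  have hcm : c ∈ insert y ({a, b, c} : Finset α) := by simp
  have hym : y ∈ insert y ({a, b, c} : Finset α) := by simp
  have hya : a ≠ y := by rintro rfl; simp at hy
  have hyb : b ≠ y := by rintro rfl; simp at hy
  have hyc : c ≠ y := by rintro rfl; simp at hy
  rcases hcov a hya with a1 | a1 <;> rcases hcov b hyb with b1 | b1 <;>
    rcases hcov c hyc with c1 | c1
  · exact hy1 (flat_line hr hs hF1 h2 ha hb hym hab a1 b1)
  · exact hy1 (flat_line hr hs hF1 h2 ha hb hym hab a1 b1)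
  · exact hy1 (flat_line hr hs hF1 h2 ha hcm hym hac a1 c1)
  · exact hy2 (flat_line hr hs hF2 h2 hb hcm hym hbc b1 c1)
  · exact hy1 (flat_line hr hs hF1 h2 hb hcm hym hbc b1 c1)
  · exact hy2 (flat_line hr hs hF2 h2 ha hcm hym hac a1 c1)
  · exact hy2 (flat_line hr hs hF2 h2 ha hb hym hab a1 b1)
  · exact hy2 (flat_line hr hs hF2 h2 ha hb hym hab a1 b1)

theorem two_le {α : Type} [DecidableEq α] {r : Finset α → ℕ} (hr : IsRk r)
    (hs : ∀ a b : α, r {a, b} = ({a, b} : Finset α).card) {t : Finset α} (ht : t.card = 3) :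
    2 ≤ r t := by
  obtain ⟨a, b, c, hab, hac, hbc, rfl⟩ := Finset.card_eq_three.1 ht
  rw [← r_pair hs hab]
  refine hr.mono _ _ ?_
  intro z hz
  rw [Finset.mem_insert, Finset.mem_singleton] at hz
  rcases hz with rfl | rfl <;> simp

theorem card_le3 {α : Type} [DecidableEq α] {r : Finset α → ℕ} (hr : IsRk r)
    (hs : ∀ a b : α, r {a, b} = ({a, b} : Finset α).card)
    (hl : ∀ t : Finset α, t.card = 3 → r t = 2 → ∀ y, y ∉ t → r (insert y t) = 3)
    {Q : Finset α} (hQ : r Q ≤ 2) : Q.card ≤ 3 := by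
  by_contra hcon
  push Not at hcon
  obtain ⟨t, htQ, ht⟩ := Finset.exists_subset_card_eq (show 3 ≤ Q.card by omega)
  have h1 : t ≠ Q := by rintro rfl; omega
  obtain ⟨y, hyQ, hyt⟩ := Finset.exists_of_ssubset (Finset.ssubset_iff_subset_ne.2 ⟨htQ, h1⟩)
  have h2 : r t = 2 := le_antisymm ((hr.mono _ _ htQ).trans hQ) (two_le hr hs ht)
  have h3 := hl t ht h2 y hyt
  have h4 : r (insert y t) ≤ r Q := hr.mono _ _ (Finset.insert_subset hyQ htQ)
  omega

/-- the two parts of a plane with at least seven points -/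
theorem plane_parts {α : Type} [DecidableEq α] {r : Finset α → ℕ} (hr : IsRk r)
    (hs : ∀ a b : α, r {a, b} = ({a, b} : Finset α).card) (hc : Crit r)
    (hl : ∀ t : Finset α, t.card = 3 → r t = 2 → ∀ y, y ∉ t → r (insert y t) = 3)
    {P : Finset α} (hP3 : r P = 3) (hP7 : 7 ≤ P.card) {x : α} (hx : x ∈ P) :
    ∃ A B : Finset α, A ⊆ P ∧ B ⊆ P ∧ A.card = 3 ∧ B.card = 3 ∧ Disjoint A B ∧ x ∉ A ∧ x ∉ B ∧
      (∀ y ∈ P, y ≠ x → y ∈ A ∨ y ∈ B) ∧ r A ≤ 2 ∧ r B ≤ 2 ∧
      (∀ t : Finset α, t ⊆ P → r t ≤ 2 → ∀ p ∈ t, ∀ q ∈ t, p ≠ q → p ∈ A → q ∈ A → t ⊆ A) ∧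
      (∀ t : Finset α, t ⊆ P → r t ≤ 2 → ∀ p ∈ t, ∀ q ∈ t, p ≠ q → p ∈ B → q ∈ B → t ⊆ B) := by
  obtain ⟨F1, F2, hF1, hF2, hx1, hx2, hcov⟩ := hc x
  have key : ∀ F : Finset α, Flat r F → x ∉ F → r (F ∩ P) ≤ 2 ∧
      ∀ t : Finset α, t ⊆ P → r t ≤ 2 → ∀ p ∈ t, ∀ q ∈ t, p ≠ q → p ∈ F ∩ P → q ∈ F ∩ P →
        t ⊆ F ∩ P := by
    intro F hF hxF
    constructor
    · by_contra hcon
      push Not at hcon
      have h1 : r (insert x (F ∩ P)) ≤ r P :=
        hr.mono _ _ (Finset.insert_subset hx Finset.inter_subset_right)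
      exact hxF (flat_mem hr hF (X := F ∩ P) Finset.inter_subset_left (by omega))
    · intro t htP ht p hp q hq hpq hpF hqF e he
      rw [Finset.mem_inter] at hpF hqF ⊢
      exact ⟨flat_line hr hs hF ht hp hq he hpq hpF.1 hqF.1, htP he⟩
  obtain ⟨k1, k2⟩ := key F1 hF1 hx1
  obtain ⟨m1, m2⟩ := key F2 hF2 hx2
  have c1 := card_le3 hr hs hl k1
  have c2 := card_le3 hr hs hl m1
  have hcovP : ∀ y ∈ P, y ≠ x → y ∈ F1 ∩ P ∨ y ∈ F2 ∩ P := by
    intro y hy hyx
    rw [Finset.mem_inter, Finset.mem_inter]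
    rcases hcov y hyx with h | h
    · exact Or.inl ⟨h, hy⟩
    · exact Or.inr ⟨h, hy⟩
  have hsub : P ⊆ insert x ((F1 ∩ P) ∪ (F2 ∩ P)) := by
    intro y hy
    rw [Finset.mem_insert, Finset.mem_union]
    by_cases hyx : y = x
    · exact Or.inl hyx
    · exact Or.inr (hcovP y hy hyx)
  have h3 := Finset.card_le_card hsub
  have h4 := Finset.card_insert_le x ((F1 ∩ P) ∪ (F2 ∩ P))
  have h5 := Finset.card_union_add_card_inter (F1 ∩ P) (F2 ∩ P)
  refine ⟨F1 ∩ P, F2 ∩ P, Finset.inter_subset_right, Finset.inter_subset_right, by omega,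
    by omega, ?_, ?_, ?_, hcovP, k1, m1, k2, m2⟩
  · rw [Finset.disjoint_iff_inter_eq_empty, ← Finset.card_eq_zero]
    omega
  · exact fun h => hx1 (Finset.mem_inter.1 h).1
  · exact fun h => hx2 (Finset.mem_inter.1 h).1

/-- rank three flats have at most six points -/
theorem plane6 {α : Type} [Fintype α] [DecidableEq α] (r : Finset α → ℕ) (hr : IsRk r)
    (hs : ∀ a b : α, r {a, b} = ({a, b} : Finset α).card) (hc : Crit r)
    (hl : ∀ t : Finset α, t.card = 3 → r t = 2 → ∀ y, y ∉ t → r (insert y t) = 3) :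
    ∀ P : Finset α, Flat r P → r P = 3 → P.card ≤ 6 := by
  intro P _ hP3
  by_contra hcon
  push Not at hcon
  have hP7 : 7 ≤ P.card := hcon
  have hne : P.Nonempty := Finset.card_pos.1 (by omega)
  obtain ⟨x, hx⟩ := hne
  obtain ⟨A, B, hAP, hBP, hA, hB, hdis, hxA, hxB, hcov, hrA, hrB, clA, clB⟩ :=
    plane_parts hr hs hc hl hP3 hP7 hx
  obtain ⟨a1, a2, a3, h12, h13, h23, hAeq⟩ := Finset.card_eq_three.1 hA
  have ha1 : a1 ∈ A := by rw [hAeq]; simp
  have ha2 : a2 ∈ A := by rw [hAeq]; simp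
  have ha3 : a3 ∈ A := by rw [hAeq]; simp
  obtain ⟨A', B', hAP', hBP', hA', hB', hdis', hxA', hxB', hcov', hrA', hrB', clA', clB'⟩ :=
    plane_parts hr hs hc hl hP3 hP7 (hAP ha1)
  -- `a2`, `a3` are in different parts
  have n1 : ¬ (a2 ∈ A' ∧ a3 ∈ A') := by
    rintro ⟨h, h'⟩
    exact hxA' (clA' A hAP hrA a2 ha2 a3 ha3 h23 h h' ha1)
  have n2 : ¬ (a2 ∈ B' ∧ a3 ∈ B') := by
    rintro ⟨h, h'⟩
    exact hxB' (clB' A hAP hrA a2 ha2 a3 ha3 h23 h h' ha1)
  have c2 := hcov' a2 (hAP ha2) h12.symm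
  have c3 := hcov' a3 (hAP ha3) h13.symm
  -- two points of `B` in the same part
  have nA : ∀ p ∈ B, ∀ q ∈ B, p ≠ q → p ∈ A' → q ∈ A' → False := by
    intro p hp q hq hpq hpA hqA
    have h1 : B ⊆ A' := clA' B hBP hrB p hp q hq hpq hpA hqA
    have h2 : B = A' := Finset.eq_of_subset_of_card_le h1 (by omega)
    have h3 : ∀ a ∈ A, a ∉ A' := by
      intro a ha
      rw [← h2]
      exact Finset.disjoint_left.1 hdis ha
    exact n2 ⟨c2.resolve_left (h3 a2 ha2), c3.resolve_left (h3 a3 ha3)⟩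
  have nB : ∀ p ∈ B, ∀ q ∈ B, p ≠ q → p ∈ B' → q ∈ B' → False := by
    intro p hp q hq hpq hpA hqA
    have h1 : B ⊆ B' := clB' B hBP hrB p hp q hq hpq hpA hqA
    have h2 : B = B' := Finset.eq_of_subset_of_card_le h1 (by omega)
    have h3 : ∀ a ∈ A, a ∉ B' := by
      intro a ha
      rw [← h2]
      exact Finset.disjoint_left.1 hdis ha
    exact n1 ⟨c2.resolve_right (h3 a2 ha2), c3.resolve_right (h3 a3 ha3)⟩
  obtain ⟨b1, b2, b3, g12, g13, g23, hBeq⟩ := Finset.card_eq_three.1 hB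
  have hb1 : b1 ∈ B := by rw [hBeq]; simp
  have hb2 : b2 ∈ B := by rw [hBeq]; simp
  have hb3 : b3 ∈ B := by rw [hBeq]; simp
  have hne1 : ∀ b ∈ B, b ≠ a1 := by
    rintro b hb rfl
    exact Finset.disjoint_left.1 hdis ha1 hb
  have d1 := hcov' b1 (hBP hb1) (hne1 b1 hb1)
  have d2 := hcov' b2 (hBP hb2) (hne1 b2 hb2)
  have d3 := hcov' b3 (hBP hb3) (hne1 b3 hb3)
  rcases d1 with d1 | d1 <;> rcases d2 with d2 | d2 <;> rcases d3 with d3 | d3
  · exact nA b1 hb1 b2 hb2 g12 d1 d2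
  · exact nA b1 hb1 b2 hb2 g12 d1 d2
  · exact nA b1 hb1 b3 hb3 g13 d1 d3
  · exact nB b2 hb2 b3 hb3 g23 d2 d3
  · exact nA b2 hb2 b3 hb3 g23 d2 d3
  · exact nB b1 hb1 b3 hb3 g13 d1 d3
  · exact nB b1 hb1 b2 hb2 g12 d1 d2
  · exact nB b1 hb1 b2 hb2 g12 d1 d2

theorem tri_core {α : Type} [Fintype α] [DecidableEq α] {r : Finset α → ℕ} (hr : IsRk r)
    (hs : ∀ a b : α, r {a, b} = ({a, b} : Finset α).card)
    (hl : ∀ t : Finset α, t.card = 3 → r t = 2 → ∀ y, y ∉ t → r (insert y t) = 3)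
    {F1 F2 : Finset α} (hF1 : Flat r F1) (hF2 : Flat r F2) {x y z : α} (hy1 : y ∉ F1)
    (hy2 : y ∉ F2) (hcov : ∀ w, w ≠ y → w ∈ F1 ∨ w ∈ F2) (hxy : x ≠ y) (hxz : x ≠ z)
    (hyz : y ≠ z) (ht2 : r {x, y, z} = 2) (hx1 : x ∈ F1) {t' : Finset α} (ht' : t' ∈ trx r x)
    (hne : t' ≠ {x, y, z}) : t' ⊆ F1 := by
  have hxt : x ∈ ({x, y, z} : Finset α) := by simp
  have hyt : y ∈ ({x, y, z} : Finset α) := by simp
  have hzt : z ∈ ({x, y, z} : Finset α) := by simp
  have hcard : ({x, y, z} : Finset α).card = 3 := Finset.card_eq_three.2 ⟨x, y, z, hxy, hxz, hyz, rfl⟩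
  have hz1 : z ∉ F1 := fun h => hy1 (flat_line hr hs hF1 ht2.le hxt hzt hyt hxz hx1 h)
  have hz2 : z ∈ F2 := (hcov z hyz.symm).resolve_left hz1
  have hx2 : x ∉ F2 := fun h => hy2 (flat_line hr hs hF2 ht2.le hxt hzt hyt hxz h hz2)
  obtain ⟨htri, hxt'⟩ := Finset.mem_filter.1 ht'
  obtain ⟨-, hc3, hr2⟩ := Finset.mem_filter.1 htri
  have hyt' : y ∉ t' := by
    intro hy
    have hex : ∃ w ∈ t', w ∉ ({x, y, z} : Finset α) := by
      by_contra hcon
      push Not at hcon
      exact hne (Finset.eq_of_subset_of_card_le (fun w hw => hcon w hw) (by omega))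
    obtain ⟨w, hw, hwt⟩ := hex
    have h1 := pair_le hr hs hr2.le hxt' hy hw hxy
    have h2 : r (insert w {x, y, z}) ≤ r {x, y, z} := by
      refine cl_le hr ?_ h1
      intro v hv
      rw [Finset.mem_insert, Finset.mem_singleton] at hv
      rcases hv with rfl | rfl <;> simp
    have h3 := hl _ hcard ht2 w hwt
    omega
  -- one more point in `F1`
  have hex : ∃ a ∈ t', a ≠ x ∧ a ∈ F1 := by
    by_contra hcon
    push Not at hcon
    have hall : ∀ a ∈ t', a ≠ x → a ∈ F2 := by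
      intro a ha hax
      exact (hcov a (fun h => hyt' (h ▸ ha))).resolve_left (hcon a ha hax)
    have h1 : (t'.erase x).card = 2 := by
      rw [Finset.card_erase_of_mem hxt', hc3]
    obtain ⟨a, b, hab, heq⟩ := Finset.card_eq_two.1 h1
    have ha : a ∈ t'.erase x := by rw [heq]; simp
    have hb : b ∈ t'.erase x := by rw [heq]; simp
    rw [Finset.mem_erase] at ha hb
    exact hx2 (flat_line hr hs hF2 hr2.le ha.2 hb.2 hxt' hab (hall a ha.2 ha.1)
      (hall b hb.2 hb.1))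
  obtain ⟨a, ha, hax, haF⟩ := hex
  intro e he
  exact flat_line hr hs hF1 hr2.le hxt' ha he hax.symm hx1 haF

/-- triangles through a point are independent over this point -/
theorem tri_indep {α : Type} [Fintype α] [DecidableEq α] (r : Finset α → ℕ) (hr : IsRk r)
    (hs : ∀ a b : α, r {a, b} = ({a, b} : Finset α).card) (hc : Crit r)
    (hl : ∀ t : Finset α, t.card = 3 → r t = 2 → ∀ y, y ∉ t → r (insert y t) = 3) :
    ∀ x : α, ∀ T : Finset (Finset α), T ⊆ trx r x → r (insert x (T.biUnion id)) = T.card + 1 := by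
  intro x T
  induction T using Finset.induction_on with
  | empty =>
    intro _
    have h1 := hs x x
    simpa using h1
  | insert t T' htT ih =>
    intro hT
    have hT' : T' ⊆ trx r x := (Finset.subset_insert _ _).trans hT
    have ihh := ih hT'
    have ht : t ∈ trx r x := hT (Finset.mem_insert_self _ _)
    obtain ⟨htri, hxt⟩ := Finset.mem_filter.1 ht
    obtain ⟨-, hc3, hr2⟩ := Finset.mem_filter.1 htri
    have h1 : (t.erase x).card = 2 := by
      rw [Finset.card_erase_of_mem hxt, hc3]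
    obtain ⟨y, z, hyz, heq⟩ := Finset.card_eq_two.1 h1
    have hy : y ∈ t.erase x := by rw [heq]; simp
    have hz : z ∈ t.erase x := by rw [heq]; simp
    rw [Finset.mem_erase] at hy hz
    have hteq : t = {x, y, z} := by
      rw [← Finset.insert_erase hxt, heq]
    have hrt : r {x, y, z} = 2 := by rw [← hteq]; exact hr2
    obtain ⟨F1, F2, hF1, hF2, hy1, hy2, hcov⟩ := hc y
    have hUF : ∃ F : Finset α, Flat r F ∧ y ∉ F ∧ insert x (T'.biUnion id) ⊆ F := by
      rcases hcov x hy.1.symm with hx1 | hx1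
      · refine ⟨F1, hF1, hy1, Finset.insert_subset hx1 ?_⟩
        rw [Finset.biUnion_subset]
        intro t' ht'
        exact tri_core hr hs hl hF1 hF2 hy1 hy2 hcov hy.1.symm hz.1.symm hyz hrt hx1 (hT' ht')
          (by rw [← hteq]; rintro rfl; exact htT ht')
      · refine ⟨F2, hF2, hy2, Finset.insert_subset hx1 ?_⟩
        rw [Finset.biUnion_subset]
        intro t' ht'
        exact tri_core hr hs hl hF2 hF1 hy2 hy1 (fun w hw => (hcov w hw).symm) hy.1.symm
          hz.1.symm hyz hrt hx1 (hT' ht') (by rw [← hteq]; rintro rfl; exact htT ht')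
    obtain ⟨F, hF, hyF, hUF⟩ := hUF
    have h2 : r (insert y (insert x (T'.biUnion id))) = T'.card + 1 + 1 := by
      have h3 := hr.insert_le (insert x (T'.biUnion id)) y
      have h4 : r (insert x (T'.biUnion id)) < r (insert y (insert x (T'.biUnion id))) := by
        by_contra hcon
        push Not at hcon
        exact hyF (flat_mem hr hF hUF hcon)
      omega
    have h5 : r (insert z (insert y (insert x (T'.biUnion id)))) ≤
        r (insert y (insert x (T'.biUnion id))) := by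
      refine cl_le hr (X := {x, y}) ?_ ?_
      · intro v hv
        rw [Finset.mem_insert, Finset.mem_singleton] at hv
        rcases hv with rfl | rfl <;> simp
      · exact pair_le hr hs hr2.le hxt hy.2 hz.2 hy.1.symm
    have h6 : r (insert y (insert x (T'.biUnion id))) ≤
        r (insert z (insert y (insert x (T'.biUnion id)))) :=
      hr.mono _ _ (Finset.subset_insert _ _)
    have h7 : insert x ((insert t T').biUnion id) =
        insert z (insert y (insert x (T'.biUnion id))) := by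
      rw [Finset.biUnion_insert, id, hteq]
      ext w
      simp only [Finset.mem_insert, Finset.mem_union, Finset.mem_singleton]
      tauto
    rw [h7, Finset.card_insert_of_notMem htT]
    omega


end B1
end DC813
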