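import Pool.Agent.Helper813.DC.Defs

set_option autoImplicit false

namespace DC813
namespace B2
open Finset


theorem plane_sum {α : Type} [DecidableEq α] (P : Finset α) (T : Finset (Finset α))
    (hT : ∀ t ∈ T, t.card = 3 ∧ t ⊆ P) :
    ∑ x ∈ P, (T.filter (fun t => x ∈ t)).card = 3 * T.card := by
  simp only [card_filter]
  rw [sum_comm]
  have : ∀ t ∈ T, ∑ x ∈ P, (if x ∈ t then 1 else 0) = 3 := by
    intro t ht
    obtain ⟨h1, h2⟩ := hT t ht
    rw [← card_filter, filter_mem_eq_inter, inter_eq_right.2 h2, h1]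
  rw [sum_congr rfl this, sum_const, smul_eq_mul, mul_comm]

theorem plane_deg {α : Type} [DecidableEq α] (P : Finset α) (T : Finset (Finset α))
    (hT : ∀ t ∈ T, t.card = 3 ∧ t ⊆ P)
    (hTT : ∀ t ∈ T, ∀ t' ∈ T, t ≠ t' → (t ∩ t').card ≤ 1) (x : α) (hx : x ∈ P) :
    2 * (T.filter (fun t => x ∈ t)).card + 1 ≤ P.card := by
  have h1 : ((T.filter (fun t => x ∈ t)).biUnion (fun t => t.erase x)).card
      = ∑ t ∈ T.filter (fun t => x ∈ t), (t.erase x).card := by
    apply card_biUnion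
    intro t ht t' ht' hne
    rw [mem_coe, mem_filter] at ht ht'
    have h := hTT t ht.1 t' ht'.1 hne
    show Disjoint (t.erase x) (t'.erase x)
    rw [disjoint_left]
    intro y hy hy'
    rw [mem_erase] at hy hy'
    have h2 : ({x, y} : Finset α) ⊆ t ∩ t' := by
      intro z hz
      rw [mem_insert, mem_singleton] at hz
      rcases hz with rfl | rfl
      · exact mem_inter.2 ⟨ht.2, ht'.2⟩
      · exact mem_inter.2 ⟨hy.2, hy'.2⟩
    have h3 := card_le_card h2
    rw [card_pair (Ne.symm hy.1)] at h3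
    omega
  have h2 : ∑ t ∈ T.filter (fun t => x ∈ t), (t.erase x).card
      = 2 * (T.filter (fun t => x ∈ t)).card := by
    have : ∀ t ∈ T.filter (fun t => x ∈ t), (t.erase x).card = 2 := by
      intro t ht
      rw [mem_filter] at ht
      rw [card_erase_of_mem ht.2, (hT t ht.1).1]
    rw [sum_congr rfl this, sum_const, smul_eq_mul, mul_comm]
  have h3 : (T.filter (fun t => x ∈ t)).biUnion (fun t => t.erase x) ⊆ P.erase x := by
    intro y hy
    rw [mem_biUnion] at hy
    obtain ⟨t, ht, hy⟩ := hy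
    rw [mem_filter] at ht
    rw [mem_erase] at hy ⊢
    exact ⟨hy.1, (hT t ht.1).2 hy.2⟩
  have h4 := card_le_card h3
  rw [h1, h2, card_erase_of_mem hx] at h4
  have h5 : 0 < P.card := card_pos.2 ⟨x, hx⟩
  omega

/-- the per plane inequality, with its equality case -/
theorem plane_ineq {α : Type} [DecidableEq α] (P : Finset α) (T : Finset (Finset α))
    (h3 : 3 ≤ P.card) (h6 : P.card ≤ 6)
    (hT : ∀ t ∈ T, t.card = 3 ∧ t ⊆ P)
    (hTT : ∀ t ∈ T, ∀ t' ∈ T, t ≠ t' → (t ∩ t').card ≤ 1) :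
    0 ≤ ((P.card : ℤ) - 1) * (P.card - 2) * (P.card - 3) - 6 * T.card * (P.card - 3)
      + ∑ x ∈ P, ((T.filter (fun t => x ∈ t)).card : ℤ) * ((T.filter (fun t => x ∈ t)).card - 1) ∧
    (((P.card : ℤ) - 1) * (P.card - 2) * (P.card - 3) - 6 * T.card * (P.card - 3)
      + ∑ x ∈ P, ((T.filter (fun t => x ∈ t)).card : ℤ) * ((T.filter (fun t => x ∈ t)).card - 1) = 0 →
      ∀ t ∈ T, ∀ t' ∈ T, t ≠ t' → (t ∩ t').Nonempty →
        P.card = 6 ∧ T.card = 4 ∧ ∀ x ∈ P, (T.filter (fun t => x ∈ t)).card = 2) := by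
  have hsumN := plane_sum P T hT
  have hdeg := plane_deg P T hT hTT
  generalize hd : (fun x : α => (T.filter (fun t => x ∈ t)).card) = d
  have hd' : ∀ x, (T.filter (fun t => x ∈ t)).card = d x := fun x => by rw [← hd]
  simp only [hd'] at hsumN hdeg ⊢
  have hsum : ∑ x ∈ P, (d x : ℤ) = 3 * T.card := by exact_mod_cast hsumN
  have hm0 : 0 ≤ ∑ x ∈ P, (d x : ℤ) * ((d x : ℤ) - 1) := by
    apply sum_nonneg
    intro x _
    rcases Nat.eq_zero_or_pos (d x) with h | h
    · rw [h]; simp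
    · have : (1 : ℤ) ≤ d x := by exact_mod_cast h
      nlinarith
  have hm1 : 6 * (T.card : ℤ) - 2 * P.card ≤ ∑ x ∈ P, (d x : ℤ) * ((d x : ℤ) - 1) := by
    have h1 : ∑ x ∈ P, (2 * (d x : ℤ) - 2) ≤ ∑ x ∈ P, (d x : ℤ) * ((d x : ℤ) - 1) := by
      apply sum_le_sum
      intro x _
      rcases le_or_gt (d x) 1 with h | h
      · interval_cases (d x) <;> norm_num
      · have : (2 : ℤ) ≤ d x := by exact_mod_cast h
        nlinarith
    have h2 : ∑ x ∈ P, (2 * (d x : ℤ) - 2) = 6 * (T.card : ℤ) - 2 * P.card := by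
      rw [sum_sub_distrib, ← mul_sum, hsum, sum_const, nsmul_eq_mul]
      ring
    linarith
  have hub : ∀ t ∈ T, ∀ t' ∈ T, t ≠ t' → 5 ≤ (t ∪ t').card := by
    intro t ht t' ht' hne
    have h1 := card_union_add_card_inter t t'
    have h2 := hTT t ht t' ht' hne
    rw [(hT t ht).1, (hT t' ht').1] at h1
    omega
  have hub2 : ∀ t ∈ T, ∀ t' ∈ T, t ≠ t' → 5 ≤ P.card := by
    intro t ht t' ht' hne
    exact (hub t ht t' ht' hne).trans (card_le_card (union_subset (hT t ht).2 (hT t' ht').2))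
  have hT1 : P.card ≤ 4 → T.card ≤ 1 := by
    intro h
    rw [card_le_one]
    intro t ht t' ht'
    by_contra hne
    have := hub2 t ht t' ht' hne
    omega
  have hcases : P.card = 3 ∨ P.card = 4 ∨ P.card = 5 ∨ P.card = 6 := by omega
  rcases hcases with hp | hp | hp | hp
  · rw [hp]
    refine ⟨?_, ?_⟩
    · push_cast
      linarith
    · intro _ t ht t' ht' hne _
      have := hub2 t ht t' ht' hne
      omega
  · have h1 : (T.card : ℤ) ≤ 1 := by exact_mod_cast hT1 (by omega)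
    rw [hp]
    refine ⟨?_, ?_⟩
    · push_cast
      linarith
    · intro _ t ht t' ht' hne _
      have := hub2 t ht t' ht' hne
      omega
  · have h2 : T.card ≤ 2 := by
      by_contra hcon
      push Not at hcon
      rw [two_lt_card] at hcon
      obtain ⟨a, ha, b, hb, c, hc, hab, hac, hbc⟩ := hcon
      have h3 : a ∪ b = P := by
        apply eq_of_subset_of_card_le (union_subset (hT a ha).2 (hT b hb).2)
        rw [hp]
        exact hub a ha b hb hab
      have h4 : c = (a ∩ c) ∪ (b ∩ c) := by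
        rw [← union_inter_distrib_right, h3, inter_eq_right.2 (hT c hc).2]
      have h5 := card_union_le (a ∩ c) (b ∩ c)
      rw [← h4, (hT c hc).1] at h5
      have h6 := hTT a ha c hc hac
      have h7 := hTT b hb c hc hbc
      omega
    rw [hp] at hm1 ⊢
    have h3 : (0 : ℤ) < ((5 : ℕ) - 1) * ((5 : ℕ) - 2) * ((5 : ℕ) - 3) - 6 * T.card * ((5 : ℕ) - 3)
      + ∑ x ∈ P, (d x : ℤ) * ((d x : ℤ) - 1) := by
      have h4 : (T.card : ℤ) ≤ 2 := by exact_mod_cast h2
      push_cast at hm1 ⊢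
      rcases Nat.lt_or_ge T.card 2 with h5 | h5
      · have h6 : (T.card : ℤ) ≤ 1 := by exact_mod_cast (by omega : T.card ≤ 1)
        linarith
      · have h6 : (2 : ℤ) ≤ T.card := by exact_mod_cast h5
        linarith
    refine ⟨h3.le, ?_⟩
    intro h
    exact absurd h h3.ne'
  · have hd2 : ∀ x ∈ P, d x ≤ 2 := by
      intro x hx
      have := hdeg x hx
      omega
    have h4 : T.card ≤ 4 := by
      have h5 : ∑ x ∈ P, d x ≤ ∑ x ∈ P, 2 := sum_le_sum hd2
      rw [hsumN, sum_const, hp, smul_eq_mul] at h5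
      omega
    rw [hp] at hm1 ⊢
    rcases Nat.lt_or_ge T.card 4 with h5 | h5
    · have h6 : (T.card : ℤ) ≤ 3 := by exact_mod_cast (by omega : T.card ≤ 3)
      have h3 : (0 : ℤ) < ((6 : ℕ) - 1) * ((6 : ℕ) - 2) * ((6 : ℕ) - 3)
        - 6 * T.card * ((6 : ℕ) - 3) + ∑ x ∈ P, (d x : ℤ) * ((d x : ℤ) - 1) := by
        push_cast
        linarith
      refine ⟨h3.le, ?_⟩
      intro h
      exact absurd h h3.ne'
    · have h6 : T.card = 4 := le_antisymm h4 h5
      have hall : ∀ x ∈ P, d x = 2 := by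
        by_contra hcon
        push Not at hcon
        obtain ⟨x, hx, hne⟩ := hcon
        have h7 : ∑ x ∈ P, d x < ∑ x ∈ P, 2 :=
          sum_lt_sum hd2 ⟨x, hx, lt_of_le_of_ne (hd2 x hx) hne⟩
        rw [hsumN, sum_const, hp, smul_eq_mul] at h7
        omega
      refine ⟨?_, ?_⟩
      · rw [h6] at hm1 ⊢
        push_cast at hm1 ⊢
        linarith
      · intro _ t ht t' ht' hne _
        exact ⟨rfl, h6, hall⟩


end B2
end DC813
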