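import Pool.Agent.Helper813.DC.Defs

set_option autoImplicit false

namespace DC813
namespace B3
open Finset


lemma sp_mem_tri {α : Type} [Fintype α] [DecidableEq α] {r : Finset α → ℕ} {t : Finset α} :
    t ∈ tri r ↔ t.card = 3 ∧ r t = 2 := by simp [tri]

lemma sp_mem_planes {α : Type} [Fintype α] [DecidableEq α] {r : Finset α → ℕ} {P : Finset α} :
    P ∈ planes r ↔ r P = 3 ∧ Flat r P := by simp [planes]

lemma sp_mem_trx {α : Type} [Fintype α] [DecidableEq α] {r : Finset α → ℕ} {x : α}
    {t : Finset α} : t ∈ trx r x ↔ t ∈ tri r ∧ x ∈ t := by simp [trx]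

/-- every set of rank three lies in exactly one plane -/
lemma sp_unique {α : Type} [Fintype α] [DecidableEq α] {r : Finset α → ℕ} (hr : IsRk r)
    {X : Finset α} (hX : r X = 3) : ∃ P ∈ planes r, X ⊆ P ∧ ∀ P' ∈ planes r, X ⊆ P' → P' = P := by
  classical
  set C : Finset α := univ.filter (fun y => r (insert y X) = r X) with hC
  have hXC : X ⊆ C := by
    intro y hy
    rw [hC, mem_filter]
    exact ⟨mem_univ _, by rw [insert_eq_of_mem hy]⟩
  have hadd : ∀ Y : Finset α, Y ⊆ C → r (X ∪ Y) = r X := by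
    intro Y
    induction Y using Finset.induction_on with
    | empty => intro _; rw [union_empty]
    | insert y Y hy ih =>
      intro hYC
      have h1 := ih (fun z hz => hYC (mem_insert_of_mem hz))
      have h2 : r (insert y X) = r X := by
        have := hYC (mem_insert_self y Y)
        rw [hC, mem_filter] at this
        exact this.2
      have h3 := hr.submod (X ∪ Y) (insert y X)
      have h4 : (X ∪ Y) ∪ insert y X = X ∪ insert y Y := by
        ext z; simp only [mem_union, mem_insert]; tauto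
      have h5 : r X ≤ r ((X ∪ Y) ∩ insert y X) := by
        apply hr.mono
        intro z hz
        simp only [mem_inter, mem_union, mem_insert]
        exact ⟨Or.inl hz, Or.inr hz⟩
      have h6 : r X ≤ r (X ∪ insert y Y) := hr.mono _ _ subset_union_left
      rw [h4] at h3
      omega
  have hrC : r C = 3 := by
    have := hadd C (Subset.refl _)
    rw [union_eq_right.2 hXC, hX] at this
    exact this
  have hflat : Flat r C := by
    intro e he
    by_contra hcon
    push Not at hcon
    apply he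
    rw [hC, mem_filter]
    refine ⟨mem_univ _, ?_⟩
    have h1 : r (insert e X) ≤ r (insert e C) := hr.mono _ _ (insert_subset_insert e hXC)
    have h2 : r X ≤ r (insert e X) := hr.mono _ _ (subset_insert _ _)
    omega
  refine ⟨C, sp_mem_planes.2 ⟨hrC, hflat⟩, hXC, ?_⟩
  intro P hP hXP
  obtain ⟨hP3, hPf⟩ := sp_mem_planes.1 hP
  have hPC : P ⊆ C := by
    intro y hy
    rw [hC, mem_filter]
    refine ⟨mem_univ _, ?_⟩
    have h1 : r (insert y X) ≤ r P := hr.mono _ _ (insert_subset hy hXP)
    have h2 : r X ≤ r (insert y X) := hr.mono _ _ (subset_insert _ _)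
    omega
  apply Subset.antisymm hPC
  intro y hy
  by_contra hyP
  have h1 := hPf y hyP
  have h2 : r (insert y P) ≤ r C := hr.mono _ _ (insert_subset hy hPC)
  omega

/-- exchange of sums over planes -/
lemma sp_exch {α : Type} [Fintype α] [DecidableEq α] {r : Finset α → ℕ} (hr : IsRk r)
    {ι : Type} (s : Finset ι) (g : ι → Finset α) (hg : ∀ i ∈ s, r (g i) = 3) (f : ι → ℤ) :
    ∑ P ∈ planes r, ∑ i ∈ s.filter (fun i => g i ⊆ P), f i = ∑ i ∈ s, f i := by
  have h1 : ∀ P ∈ planes r, ∑ i ∈ s.filter (fun i => g i ⊆ P), f i =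
      ∑ i ∈ s, if g i ⊆ P then f i else 0 := fun P _ => sum_filter _ _
  rw [sum_congr rfl h1, sum_comm]
  refine sum_congr rfl fun i hi => ?_
  obtain ⟨P, hP, hgP, hu⟩ := sp_unique hr (hg i hi)
  rw [sum_eq_single P]
  · rw [if_pos hgP]
  · intro P' hP' hne
    rw [if_neg (fun h => hne (hu P' hP' h))]
  · intro h; exact absurd hP h

lemma sp_ch2 (p : ℕ) : (2 : ℤ) * (p.choose 2 : ℕ) = p * (p - 1) := by
  induction p with
  | zero => simp
  | succ p ih =>
    rw [Nat.choose_succ_succ' p 1, Nat.choose_one_right]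
    push_cast
    linarith

lemma sp_ch3 (p : ℕ) : (6 : ℤ) * (p.choose 3 : ℕ) = p * (p - 1) * (p - 2) := by
  induction p with
  | zero => simp
  | succ p ih =>
    rw [Nat.choose_succ_succ' p 2]
    push_cast
    have h2 := sp_ch2 p
    push_cast at h2
    linarith

section
variable {α : Type} [Fintype α] [DecidableEq α] {r : Finset α → ℕ} (hr : IsRk r)
    (hs : ∀ a b : α, r {a, b} = ({a, b} : Finset α).card)
    (hl : ∀ t : Finset α, t.card = 3 → r t = 2 → ∀ y, y ∉ t → r (insert y t) = 3)

include hr in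
lemma sp_rk_le_card (X : Finset α) : r X ≤ X.card := by
  induction X using Finset.induction_on with
  | empty => rw [hr.empty]; simp
  | insert y Y hy ih =>
    rw [card_insert_of_notMem hy]
    have := hr.insert_le Y y
    omega

include hr hs in
lemma sp_rk_two_le {X : Finset α} (h : 2 ≤ X.card) : 2 ≤ r X := by
  obtain ⟨a, ha, b, hb, hab⟩ := one_lt_card.1 h
  have h1 := hs a b
  rw [card_pair hab] at h1
  have h2 : r {a, b} ≤ r X := hr.mono _ _ (by
    intro z hz
    rw [mem_insert, mem_singleton] at hz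
    rcases hz with rfl | rfl <;> assumption)
  omega

include hr hs hl in
lemma sp_rk_four {X : Finset α} (h : 4 ≤ X.card) : 3 ≤ r X := by
  obtain ⟨t, htX, ht⟩ := exists_subset_card_eq (show 3 ≤ X.card by omega)
  have h2 : 2 ≤ r t := sp_rk_two_le hr hs (by omega)
  have h3 : r t ≤ r X := hr.mono _ _ htX
  by_cases h4 : r t = 2
  · obtain ⟨y, hyX, hyt⟩ := exists_mem_notMem_of_card_lt_card (show t.card < X.card by omega)
    have h5 := hl t ht h4 y hyt
    have h6 : r (insert y t) ≤ r X := hr.mono _ _ (insert_subset hyX htX)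
    omega
  · omega

include hr hs hl in
lemma sp_plane_ab {P : Finset α} (hP : P ∈ planes r) :
    6 * ∑ X ∈ ((univ : Finset (Finset α)).filter (fun X => r X = 3)).filter (fun X => X ⊆ P),
      ((-1 : ℤ) ^ X.card + if X.card = 3 then 1 else 0) =
      ((P.card : ℤ) - 1) * (P.card - 2) * (P.card - 3) := by
  classical
  obtain ⟨hP3, hPf⟩ := sp_mem_planes.1 hP
  have hne : P.Nonempty := by
    rw [nonempty_iff_ne_empty]
    intro h
    rw [h, hr.empty] at hP3
    omega
  have h1 : ((univ : Finset (Finset α)).filter (fun X => r X = 3)).filter (fun X => X ⊆ P) =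
      P.powerset.filter (fun X => r X = 3) := by
    ext X; simp only [mem_filter, mem_univ, true_and, mem_powerset]; tauto
  rw [h1, sum_filter]
  have h2 : ∀ X ∈ P.powerset, (if r X = 3 then ((-1 : ℤ) ^ X.card + if X.card = 3 then 1 else 0)
      else 0) = (-1 : ℤ) ^ X.card - (if X.card = 0 then 1 else 0) + (if X.card = 1 then 1 else 0) -
        (if X.card = 2 then 1 else 0) + (if X.card = 3 then 1 else 0) := by
    intro X hX
    rw [mem_powerset] at hX
    have hle := sp_rk_le_card hr X
    have hle3 : r X ≤ 3 := hP3 ▸ hr.mono _ _ hX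
    by_cases h4 : 4 ≤ X.card
    · have h5 : r X = 3 := le_antisymm hle3 (sp_rk_four hr hs hl h4)
      rw [if_pos h5, if_neg (by omega), if_neg (by omega), if_neg (by omega), if_neg (by omega)]
      ring
    · have h5 : X.card = 0 ∨ X.card = 1 ∨ X.card = 2 ∨ X.card = 3 := by omega
      rcases h5 with h5 | h5 | h5 | h5
      · rw [if_neg (by omega), h5]; norm_num
      · rw [if_neg (by omega), h5]; norm_num
      · rw [if_neg (by omega), h5]; norm_num
      · rw [h5]
        norm_num
  rw [sum_congr rfl h2, sum_add_distrib, sum_sub_distrib, sum_add_distrib, sum_sub_distrib,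
    sum_powerset_neg_one_pow_card_of_nonempty hne]
  have h3 : ∀ k : ℕ, (∑ X ∈ P.powerset, (if X.card = k then (1 : ℤ) else 0)) = (P.card.choose k : ℕ) := by
    intro k
    rw [← sum_filter, sum_const, nsmul_eq_mul, mul_one, ← powersetCard_eq_filter,
      card_powersetCard]
  rw [h3, h3, h3, h3, Nat.choose_zero_right, Nat.choose_one_right]
  have h4 := sp_ch2 P.card
  have h5 := sp_ch3 P.card
  push_cast at h4 h5 ⊢
  linarith

include hr hs in
lemma sp_card3 : ((((univ : Finset (Finset α)).filter (fun X => r X = 3)).filter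
      (fun X => X.card = 3)).card : ℤ) = ((Fintype.card α).choose 3 : ℕ) - ((tri r).card : ℤ) := by
  classical
  have h1 : ((univ : Finset (Finset α)).filter (fun X => X.card = 3)).card =
      (Fintype.card α).choose 3 := by
    rw [univ_filter_card_eq, card_powersetCard, card_univ]
  have h2 : ((univ : Finset (Finset α)).filter (fun X => X.card = 3)) =
      (((univ : Finset (Finset α)).filter (fun X => r X = 3)).filter
      (fun X => X.card = 3)) ∪ tri r := by
    ext X
    rw [mem_union, sp_mem_tri]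
    simp only [mem_filter, mem_univ, true_and]
    constructor
    · intro h
      have ha := sp_rk_le_card hr X
      have hb := sp_rk_two_le hr hs (X := X) (by omega)
      have hc : r X = 2 ∨ r X = 3 := by omega
      rcases hc with hc | hc
      · exact Or.inr ⟨h, hc⟩
      · exact Or.inl ⟨hc, h⟩
    · rintro (h | h)
      · exact h.2
      · exact h.1
  have h3 : Disjoint (((univ : Finset (Finset α)).filter (fun X => r X = 3)).filter
      (fun X => X.card = 3)) (tri r) := by
    rw [Finset.disjoint_left]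
    intro X hX hX'
    rw [sp_mem_tri] at hX'
    simp only [mem_filter, mem_univ, true_and] at hX
    omega
  rw [← h1, h2, card_union_of_disjoint h3]
  push_cast
  ring

include hr hs hl in
/-- (a) and (b) -/
lemma sp_ab : ∑ P ∈ planes r, (((P.card : ℤ) - 1) * (P.card - 2) * (P.card - 3)) =
    6 * (∑ X ∈ (univ : Finset (Finset α)).filter (fun X => r X = 3), (-1 : ℤ) ^ X.card +
      (((Fintype.card α).choose 3 : ℕ) - ((tri r).card : ℤ))) := by
  classical
  have h1 := sp_exch hr ((univ : Finset (Finset α)).filter (fun X => r X = 3)) id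
    (by intro X hX; simpa using hX) (fun X => (-1 : ℤ) ^ X.card + if X.card = 3 then 1 else 0)
  have h2 : ∑ P ∈ planes r, (((P.card : ℤ) - 1) * (P.card - 2) * (P.card - 3)) =
      ∑ P ∈ planes r, 6 * ∑ X ∈ ((univ : Finset (Finset α)).filter (fun X => r X = 3)).filter
        (fun X => id X ⊆ P), ((-1 : ℤ) ^ X.card + if X.card = 3 then 1 else 0) := by
    refine sum_congr rfl fun P hP => ?_
    exact (sp_plane_ab hr hs hl hP).symm
  rw [h2, ← mul_sum, h1, sum_add_distrib, ← sum_filter, sum_const, nsmul_eq_mul, mul_one,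
    sp_card3 hr hs]

include hr hl in
/-- (c) -/
lemma sp_c : ∑ P ∈ planes r, (((tri r).filter (fun t => t ⊆ P)).card : ℤ) * (P.card - 3) =
    ((tri r).card : ℤ) * ((Fintype.card α : ℤ) - 3) := by
  classical
  have h1 : ∀ t ∈ tri r, ∑ P ∈ planes r, ∑ _y ∈ (univ.filter (fun y => y ∉ t)).filter
      (fun y => insert y t ⊆ P), (1 : ℤ) = (Fintype.card α : ℤ) - 3 := by
    intro t ht
    obtain ⟨ht3, ht2⟩ := sp_mem_tri.1 ht
    rw [sp_exch hr (univ.filter (fun y => y ∉ t)) (fun y => insert y t)
      (by intro y hy; exact hl t ht3 ht2 y (by simpa using hy)) (fun _ => (1 : ℤ))]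
    rw [sum_const, nsmul_eq_mul, mul_one]
    have h2 : univ.filter (fun y => y ∉ t) = tᶜ := by ext y; simp
    have h3 := card_le_univ t
    rw [h2, card_compl, ht3] at *
    rw [Nat.cast_sub h3]
    rfl
  have h2 : ∑ t ∈ tri r, ∑ P ∈ planes r, ∑ _y ∈ (univ.filter (fun y => y ∉ t)).filter
      (fun y => insert y t ⊆ P), (1 : ℤ) = ((tri r).card : ℤ) * ((Fintype.card α : ℤ) - 3) := by
    rw [sum_congr rfl h1, sum_const, nsmul_eq_mul]
  rw [← h2, sum_comm]
  refine sum_congr rfl fun P _ => ?_
  have h3 : ∀ t ∈ tri r, ∑ _y ∈ (univ.filter (fun y => y ∉ t)).filter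
      (fun y => insert y t ⊆ P), (1 : ℤ) = if t ⊆ P then (P.card : ℤ) - 3 else 0 := by
    intro t ht
    obtain ⟨ht3, ht2⟩ := sp_mem_tri.1 ht
    rw [sum_const, nsmul_eq_mul, mul_one]
    by_cases htP : t ⊆ P
    · rw [if_pos htP]
      have h4 : (univ.filter (fun y => y ∉ t)).filter (fun y => insert y t ⊆ P) = P \ t := by
        ext y
        simp only [mem_filter, mem_univ, true_and, mem_sdiff, insert_subset_iff]
        tauto
      rw [h4, card_sdiff_of_subset htP, ht3, Nat.cast_sub (ht3 ▸ card_le_card htP)]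
      rfl
    · rw [if_neg htP]
      have h4 : (univ.filter (fun y => y ∉ t)).filter (fun y => insert y t ⊆ P) = ∅ := by
        ext y
        simp only [mem_filter, mem_univ, true_and, insert_subset_iff, notMem_empty, iff_false]
        tauto
      rw [h4]
      simp
  rw [sum_congr rfl h3, ← sum_filter, sum_const, nsmul_eq_mul]

include hr hs hl in
/-- (d) -/
lemma sp_d : ∑ P ∈ planes r, ∑ x ∈ P,
      ((((tri r).filter (fun t => t ⊆ P)).filter (fun t => x ∈ t)).card : ℤ)
          * ((((tri r).filter (fun t => t ⊆ P)).filter (fun t => x ∈ t)).card - 1) =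
    ∑ x : α, ((trx r x).card : ℤ) * ((trx r x).card - 1) := by
  classical
  have hoff : ∀ A : Finset (Finset α), (A.offDiag.card : ℤ) = (A.card : ℤ) * (A.card - 1) := by
    intro A
    rw [offDiag_card, Nat.cast_sub (Nat.le_mul_self _)]
    push_cast
    ring
  have h1 : ∀ x ∈ (univ : Finset α), ∑ P ∈ planes r, ∑ _p ∈ ((trx r x).offDiag).filter
      (fun p => p.1 ∪ p.2 ⊆ P), (1 : ℤ) = ((trx r x).card : ℤ) * ((trx r x).card - 1) := by
    intro x _
    rw [sp_exch hr ((trx r x).offDiag) (fun p => p.1 ∪ p.2) _ (fun _ => (1 : ℤ))]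
    · rw [sum_const, nsmul_eq_mul, mul_one, hoff]
    · rintro ⟨t, t'⟩ hp
      rw [mem_offDiag] at hp
      obtain ⟨ht, ht', hne⟩ := hp
      simp only at ht ht' hne ⊢
      rw [sp_mem_trx, sp_mem_tri] at ht ht'
      obtain ⟨⟨ht3, ht2⟩, hxt⟩ := ht
      obtain ⟨⟨ht3', ht2'⟩, hxt'⟩ := ht'
      have hex : ∃ y ∈ t', y ∉ t := by
        by_contra hcon
        push Not at hcon
        exact hne (eq_of_subset_of_card_le (s := t') (t := t) hcon (by omega)).symm
      obtain ⟨y, hyt', hyt⟩ := hex
      have ha := hl t ht3 ht2 y hyt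
      have hb : r (insert y t) ≤ r (t ∪ t') := hr.mono _ _
        (insert_subset (mem_union_right _ hyt') subset_union_left)
      have hc := hr.submod t t'
      have hd : r {x, x} ≤ r (t ∩ t') := hr.mono _ _ (by
        intro z hz
        simp only [mem_insert, mem_singleton, or_self] at hz
        rw [hz, mem_inter]
        exact ⟨hxt, hxt'⟩)
      have he : r {x, x} = 1 := by
        rw [hs x x]; simp
      omega
  rw [← sum_congr rfl h1, sum_comm]
  refine sum_congr rfl fun P _ => ?_
  have h3 : ∀ x : α, ∑ _p ∈ ((trx r x).offDiag).filter (fun p => p.1 ∪ p.2 ⊆ P), (1 : ℤ) =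
      ((((tri r).filter (fun t => t ⊆ P)).filter (fun t => x ∈ t)).card : ℤ)
          * ((((tri r).filter (fun t => t ⊆ P)).filter (fun t => x ∈ t)).card - 1) := by
    intro x
    rw [sum_const, nsmul_eq_mul, mul_one, ← hoff]
    congr 2
    ext ⟨t, t'⟩
    simp only [mem_filter, mem_offDiag, sp_mem_trx, union_subset_iff]
    tauto
  rw [sum_congr rfl fun x _ => h3 x]
  refine sum_subset (subset_univ P) fun x _ hx => ?_
  have h4 : ((tri r).filter (fun t => t ⊆ P)).filter (fun t => x ∈ t) = ∅ := by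
    ext t
    simp only [mem_filter, notMem_empty, iff_false]
    rintro ⟨⟨_, h5⟩, h6⟩
    exact hx (h5 h6)
  rw [h4]
  simp

end

/-- the sum of the per plane expressions vanishes for the numbers of `K_{n+1}` -/
theorem sum_planes {α : Type} [Fintype α] [DecidableEq α] (n : ℕ) (hn : 1 ≤ n)
    (r : Finset α → ℕ) (hr : IsRk r)
    (hs : ∀ a b : α, r {a, b} = ({a, b} : Finset α).card)
    (hl : ∀ t : Finset α, t.card = 3 → r t = 2 → ∀ y, y ∉ t → r (insert y t) = 3)
    (hN : 2 * (Fintype.card α : ℤ) = n * (n + 1))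
    (hT : 6 * ((tri r).card : ℤ) = (n + 1) * n * (n - 1))
    (hw3 : 48 * ∑ X ∈ (univ : Finset (Finset α)).filter (fun X => r X = 3), (-1 : ℤ) ^ X.card
      = - (n ^ 2 * (n + 1) ^ 2 * (n - 1) * (n - 2)))
    (hd : ∀ x : α, ((trx r x).card : ℤ) = n - 1) :
    ∑ P ∈ planes r, (((P.card : ℤ) - 1) * (P.card - 2) * (P.card - 3)
      - 6 * ((tri r).filter (fun t => t ⊆ P)).card * (P.card - 3)
      + ∑ x ∈ P, ((((tri r).filter (fun t => t ⊆ P)).filter (fun t => x ∈ t)).card : ℤ)
          * ((((tri r).filter (fun t => t ⊆ P)).filter (fun t => x ∈ t)).card - 1)) = 0 := by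
  have ha := sp_ab hr hs hl
  have hc := sp_c hr hl
  have hdd := sp_d hr hs hl
  have hd' : ∑ x : α, ((trx r x).card : ℤ) * ((trx r x).card - 1) =
      (Fintype.card α : ℤ) * ((n - 1) * (n - 1 - 1)) := by
    rw [sum_congr rfl fun x _ => by rw [hd x], sum_const, nsmul_eq_mul, card_univ]
  rw [hd'] at hdd
  rw [sum_add_distrib, sum_sub_distrib, ha, hdd]
  have hc' : ∑ P ∈ planes r, (6 : ℤ) * ((tri r).filter (fun t => t ⊆ P)).card * (P.card - 3) =
      6 * (((tri r).card : ℤ) * ((Fintype.card α : ℤ) - 3)) := by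
    rw [← hc, mul_sum]
    refine sum_congr rfl fun P _ => ?_
    ring
  rw [hc']
  have h3 := sp_ch3 (Fintype.card α)
  set W : ℤ := ∑ X ∈ (univ : Finset (Finset α)).filter (fun X => r X = 3), (-1 : ℤ) ^ X.card
  set T : ℤ := ((tri r).card : ℤ)
  set N : ℤ := (Fintype.card α : ℤ)
  set B : ℤ := (((Fintype.card α).choose 3 : ℕ) : ℤ)
  have h4 : 8 * (6 * (W + (B - T)) - 6 * (T * (N - 3)) + N * ((n - 1) * (n - 1 - 1))) = 0 := by
    have e1 : 8 * (6 * (W + (B - T)) - 6 * (T * (N - 3)) + N * ((n - 1) * (n - 1 - 1))) =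
        48 * W + (2 * N) * (2 * N - 2) * (2 * N - 4) - 8 * (6 * T) -
          4 * (6 * T) * (2 * N - 6) + 4 * (2 * N) * ((n - 1) * (n - 2)) := by
      have e2 : 8 * (6 * (W + (B - T)) - 6 * (T * (N - 3)) + N * ((n - 1) * (n - 1 - 1))) =
        48 * W + 8 * (6 * B) - 8 * (6 * T) -
          4 * (6 * T) * (2 * N - 6) + 4 * (2 * N) * ((n - 1) * (n - 2)) := by ring
      rw [e2, h3]
      ring
    rw [e1, hw3, hN, hT]
    ring
  linarith


end B3
end DC813
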