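import Pool.Agent.Helper813.DC.Defs

set_option autoImplicit false

namespace DC813
namespace B4
open Finset


section struct_aux

variable {α : Type} [Fintype α] [DecidableEq α] {r : Finset α → ℕ}

/-- the hypotheses of the reconstruction -/
structure struct_H (r : Finset α → ℕ) : Prop where
  hr : IsRk r
  hs : ∀ a b : α, r {a, b} = ({a, b} : Finset α).card
  hl : ∀ t : Finset α, t.card = 3 → r t = 2 → ∀ y, y ∉ t → r (insert y t) = 3
  hind : ∀ x : α, ∀ T : Finset (Finset α), T ⊆ trx r x →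
      r (insert x (T.biUnion id)) = T.card + 1
  hK : ∀ e a b c d : α, ({e, a, b} : Finset α) ∈ tri r → ({e, c, d} : Finset α) ∈ tri r →
      ({e, a, b} : Finset α) ≠ {e, c, d} →
      ∃ f, (({a, c, f} : Finset α) ∈ tri r ∧ ({b, d, f} : Finset α) ∈ tri r ∧
              ∀ g, ({a, d, g} : Finset α) ∉ tri r ∧ ({b, c, g} : Finset α) ∉ tri r) ∨
           (({a, d, f} : Finset α) ∈ tri r ∧ ({b, c, f} : Finset α) ∈ tri r ∧
              ∀ g, ({a, c, g} : Finset α) ∉ tri r ∧ ({b, d, g} : Finset α) ∉ tri r)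

theorem struct_mem {t : Finset α} : t ∈ tri r ↔ t.card = 3 ∧ r t = 2 := by
  unfold tri; simp

theorem struct_memx {t : Finset α} {x : α} : t ∈ trx r x ↔ t ∈ tri r ∧ x ∈ t := by
  unfold trx; simp

theorem struct_ne {x y z : α} (h : ({x, y, z} : Finset α) ∈ tri r) : x ≠ y ∧ x ≠ z ∧ y ≠ z := by
  have h1 := (struct_mem.mp h).1
  refine ⟨?_, ?_, ?_⟩
  · rintro rfl
    have h2 : ({x, x, z} : Finset α) = {x, z} := by simp
    rw [h2] at h1
    have := Finset.card_le_two (a := x) (b := z)
    omega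
  · rintro rfl
    have h2 : ({x, y, x} : Finset α) = {x, y} := by
      ext w; simp only [mem_insert, mem_singleton]; tauto
    rw [h2] at h1
    have := Finset.card_le_two (a := x) (b := y)
    omega
  · rintro rfl
    have h2 : ({x, y, y} : Finset α) = {x, y} := by simp
    rw [h2] at h1
    have := Finset.card_le_two (a := x) (b := y)
    omega

theorem struct_swap {x y z : α} (h : ({x, y, z} : Finset α) ∈ tri r) :
    ({y, x, z} : Finset α) ∈ tri r := by
  rwa [Finset.insert_comm]

theorem struct_swap' {x y z : α} (h : ({x, y, z} : Finset α) ∈ tri r) :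
    ({x, z, y} : Finset α) ∈ tri r := by
  rwa [Finset.pair_comm z y]

theorem struct_share (H : struct_H r) {s t : Finset α} (hs : s ∈ tri r) (ht : t ∈ tri r)
    {x y : α} (hxy : x ≠ y) (hxs : x ∈ s) (hys : y ∈ s) (hxt : x ∈ t) (hyt : y ∈ t) : s = t := by
  by_contra hne
  obtain ⟨cs, rs⟩ := struct_mem.mp hs
  obtain ⟨ct, rt⟩ := struct_mem.mp ht
  have hz : ∃ z ∈ s, z ∉ t := by
    by_contra hcon
    push Not at hcon
    exact hne (Finset.eq_of_subset_of_card_le hcon (by omega))
  obtain ⟨z, hzs, hzt⟩ := hz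
  have h1 := H.hl t ct rt z hzt
  have h2 := H.hr.submod s t
  have h3 : r {x, y} ≤ r (s ∩ t) := H.hr.mono _ _ (by
    intro w hw
    simp only [mem_insert, mem_singleton] at hw
    rcases hw with rfl | rfl
    · exact mem_inter.mpr ⟨hxs, hxt⟩
    · exact mem_inter.mpr ⟨hys, hyt⟩)
  rw [H.hs, Finset.card_pair hxy] at h3
  have h4 := H.hr.mono (insert z t) (s ∪ t) (by
    intro w hw
    rcases mem_insert.mp hw with rfl | hw
    · exact mem_union_left _ hzs
    · exact mem_union_right _ hw)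
  omega

theorem struct_close (H : struct_H r) {x y z : α} (h : ({x, y, z} : Finset α) ∈ tri r)
    {Z : Finset α} (hx : x ∈ Z) (hy : y ∈ Z) : r (insert z Z) ≤ r Z := by
  have h0 := struct_ne h
  have h1 := (struct_mem.mp h).2
  have h2 := H.hr.submod {x, y, z} Z
  have h3 : r {x, y} ≤ r ({x, y, z} ∩ Z) := H.hr.mono _ _ (by
    intro w hw
    simp only [mem_insert, mem_singleton] at hw
    rcases hw with rfl | rfl
    · exact mem_inter.mpr ⟨by simp, hx⟩
    · exact mem_inter.mpr ⟨by simp, hy⟩)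
  rw [H.hs, Finset.card_pair h0.1] at h3
  have h4 := H.hr.mono (insert z Z) ({x, y, z} ∪ Z) (by
    intro w hw
    rcases mem_insert.mp hw with rfl | hw
    · exact mem_union_left _ (by simp)
    · exact mem_union_right _ hw)
  omega

/-- third point of a triangle through two points is unique -/
theorem struct_uniq (H : struct_H r) {x y z w : α} (h : ({x, y, z} : Finset α) ∈ tri r)
    (h' : ({x, y, w} : Finset α) ∈ tri r) : z = w := by
  have h0 := struct_ne h
  have h1 := struct_share H h h' h0.1 (by simp) (by simp) (by simp) (by simp)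
  have h2 : z ∈ ({x, y, w} : Finset α) := by rw [← h1]; simp
  simp only [mem_insert, mem_singleton] at h2
  rcases h2 with h2 | h2 | h2
  · exact absurd h2.symm h0.2.1
  · exact absurd h2.symm h0.2.2
  · exact h2

theorem struct_legs (H : struct_H r) {e a1 b1 a2 b2 : α} (h1 : ({e, a1, b1} : Finset α) ∈ tri r)
    (h2 : ({e, a2, b2} : Finset α) ∈ tri r) (d : ({e, a1, b1} : Finset α) ≠ {e, a2, b2}) :
    a1 ≠ a2 ∧ a1 ≠ b2 ∧ b1 ≠ a2 ∧ b1 ≠ b2 := by
  have n1 := struct_ne h1
  refine ⟨?_, ?_, ?_, ?_⟩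
  · rintro rfl
    exact d (struct_share H h1 h2 n1.1 (by simp) (by simp) (by simp) (by simp))
  · rintro rfl
    exact d (struct_share H h1 h2 n1.1 (by simp) (by simp) (by simp) (by simp))
  · rintro rfl
    exact d (struct_share H h1 h2 n1.2.1 (by simp) (by simp) (by simp) (by simp))
  · rintro rfl
    exact d (struct_share H h1 h2 n1.2.1 (by simp) (by simp) (by simp) (by simp))

theorem struct_rank2 (H : struct_H r) {e : α} {t1 t2 : Finset α} (h1 : t1 ∈ trx r e)
    (h2 : t2 ∈ trx r e) (d : t1 ≠ t2) : r (t1 ∪ t2) = 3 := by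
  have h := H.hind e {t1, t2} (by
    intro t ht
    simp only [mem_insert, mem_singleton] at ht
    rcases ht with rfl | rfl <;> assumption)
  rw [Finset.card_pair d] at h
  have he : insert e (({t1, t2} : Finset (Finset α)).biUnion id) = t1 ∪ t2 := by
    have := (struct_memx.mp h1).2
    ext w
    simp only [mem_insert, mem_biUnion, mem_singleton, id, mem_union]
    constructor
    · rintro (rfl | ⟨t, rfl | rfl, hw⟩)
      · exact Or.inl this
      · exact Or.inl hw
      · exact Or.inr hw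
    · rintro (hw | hw)
      · exact Or.inr ⟨t1, Or.inl rfl, hw⟩
      · exact Or.inr ⟨t2, Or.inr rfl, hw⟩
  rwa [he] at h

theorem struct_rank3 (H : struct_H r) {e : α} {t1 t2 t3 : Finset α} (h1 : t1 ∈ trx r e)
    (h2 : t2 ∈ trx r e) (h3 : t3 ∈ trx r e) (d12 : t1 ≠ t2) (d13 : t1 ≠ t3) (d23 : t2 ≠ t3)
    (Z : Finset α) (hZ1 : t1 ⊆ Z) (hZ2 : t2 ⊆ Z) (hZ3 : t3 ⊆ Z) : 4 ≤ r Z := by
  have h := H.hind e {t1, t2, t3} (by
    intro t ht
    simp only [mem_insert, mem_singleton] at ht
    rcases ht with rfl | rfl | rfl <;> assumption)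
  have hc : ({t1, t2, t3} : Finset (Finset α)).card = 3 :=
    Finset.card_eq_three.mpr ⟨t1, t2, t3, d12, d13, d23, rfl⟩
  rw [hc] at h
  have he : insert e (({t1, t2, t3} : Finset (Finset α)).biUnion id) ⊆ Z := by
    have := (struct_memx.mp h1).2
    intro w
    simp only [mem_insert, mem_biUnion, mem_singleton, id]
    rintro (rfl | ⟨t, rfl | rfl | rfl, hw⟩)
    · exact hZ1 this
    · exact hZ1 hw
    · exact hZ2 hw
    · exact hZ3 hw
  have := H.hr.mono _ _ he
  omega

theorem struct_rank4 (H : struct_H r) {e : α} {t1 t2 t3 t4 : Finset α} (h1 : t1 ∈ trx r e)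
    (h2 : t2 ∈ trx r e) (h3 : t3 ∈ trx r e) (h4 : t4 ∈ trx r e) (d12 : t1 ≠ t2) (d13 : t1 ≠ t3)
    (d14 : t1 ≠ t4) (d23 : t2 ≠ t3) (d24 : t2 ≠ t4) (d34 : t3 ≠ t4)
    (Z : Finset α) (hZ1 : t1 ⊆ Z) (hZ2 : t2 ⊆ Z) (hZ3 : t3 ⊆ Z) (hZ4 : t4 ⊆ Z) : 5 ≤ r Z := by
  have h := H.hind e {t1, t2, t3, t4} (by
    intro t ht
    simp only [mem_insert, mem_singleton] at ht
    rcases ht with rfl | rfl | rfl | rfl <;> assumption)
  have hc : ({t1, t2, t3, t4} : Finset (Finset α)).card = 4 := by
    rw [Finset.card_insert_of_notMem, Finset.card_eq_three.mpr ⟨t2, t3, t4, d23, d24, d34, rfl⟩]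
    simp only [mem_insert, mem_singleton]
    tauto
  rw [hc] at h
  have he : insert e (({t1, t2, t3, t4} : Finset (Finset α)).biUnion id) ⊆ Z := by
    have := (struct_memx.mp h1).2
    intro w
    simp only [mem_insert, mem_biUnion, mem_singleton, id]
    rintro (rfl | ⟨t, rfl | rfl | rfl | rfl, hw⟩)
    · exact hZ1 this
    · exact hZ1 hw
    · exact hZ2 hw
    · exact hZ3 hw
    · exact hZ4 hw
  have := H.hr.mono _ _ he
  omega

/-- a point of the closure of two triangles is not a leg of a third one -/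
theorem struct_far (H : struct_H r) {e a3 b3 z : α} {t1 t2 : Finset α} (h1 : t1 ∈ trx r e)
    (h2 : t2 ∈ trx r e) (h3 : ({e, a3, b3} : Finset α) ∈ tri r) (d12 : t1 ≠ t2)
    (d13 : t1 ≠ {e, a3, b3}) (d23 : t2 ≠ {e, a3, b3})
    (hz : r (insert z (t1 ∪ t2)) ≤ 3) : z ≠ a3 ∧ z ≠ b3 := by
  have he := (struct_memx.mp h1).2
  have h3' : ({e, a3, b3} : Finset α) ∈ trx r e := struct_memx.mpr ⟨h3, by simp⟩
  constructor
  · rintro rfl
    have h4 := struct_close H h3 (Z := insert z (t1 ∪ t2)) (by simp [he]) (by simp)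
    have h5 := struct_rank3 H h1 h2 h3' d12 d13 d23 (insert b3 (insert z (t1 ∪ t2)))
      (by intro w hw; simp [hw]) (by intro w hw; simp [hw]) (by
        intro w hw
        simp only [mem_insert, mem_singleton] at hw
        rcases hw with rfl | rfl | rfl <;> simp [he])
    omega
  · rintro rfl
    have h4 := struct_close H (struct_swap' h3) (Z := insert z (t1 ∪ t2)) (by simp [he]) (by simp)
    have h5 := struct_rank3 H h1 h2 h3' d12 d13 d23 (insert a3 (insert z (t1 ∪ t2)))
      (by intro w hw; simp [hw]) (by intro w hw; simp [hw]) (by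
        intro w hw
        simp only [mem_insert, mem_singleton] at hw
        rcases hw with rfl | rfl | rfl <;> simp [he])
    omega

/-- the third point over two legs -/
theorem struct_third (H : struct_H r) {e a1 b1 a2 b2 f : α}
    (h1 : ({e, a1, b1} : Finset α) ∈ tri r) (h2 : ({e, a2, b2} : Finset α) ∈ tri r)
    (d : ({e, a1, b1} : Finset α) ≠ {e, a2, b2}) (h : ({a1, a2, f} : Finset α) ∈ tri r) :
    f ≠ e ∧ f ≠ b1 ∧ f ≠ b2 ∧ r (insert f ({e, a1, b1} ∪ {e, a2, b2})) ≤ 3 := by
  have n1 := struct_ne h1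
  have n2 := struct_ne h2
  have nf := struct_ne h
  have hL := struct_legs H h1 h2 d
  refine ⟨?_, ?_, ?_, ?_⟩
  · rintro rfl
    have h3 := struct_share H h h1 nf.2.1 (by simp) (by simp) (by simp) (by simp)
    have h4 : a2 ∈ ({f, a1, b1} : Finset α) := by rw [← h3]; simp
    simp only [mem_insert, mem_singleton] at h4
    rcases h4 with h4 | h4 | h4
    · exact n2.1 h4.symm
    · exact hL.1 h4.symm
    · exact hL.2.2.1 h4.symm
  · rintro rfl
    have h3 := struct_share H h h1 nf.2.1 (by simp) (by simp) (by simp) (by simp)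
    have h4 : a2 ∈ ({e, a1, f} : Finset α) := by rw [← h3]; simp
    simp only [mem_insert, mem_singleton] at h4
    rcases h4 with h4 | h4 | h4
    · exact n2.1 h4.symm
    · exact hL.1 h4.symm
    · exact hL.2.2.1 h4.symm
  · rintro rfl
    have h3 := struct_share H h h2 nf.2.2 (by simp) (by simp) (by simp) (by simp)
    have h4 : a1 ∈ ({e, a2, f} : Finset α) := by rw [← h3]; simp
    simp only [mem_insert, mem_singleton] at h4
    rcases h4 with h4 | h4 | h4
    · exact n1.1 h4.symm
    · exact hL.1 h4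
    · exact hL.2.1 h4
  · have h3 := struct_close H h (Z := {e, a1, b1} ∪ {e, a2, b2}) (by simp) (by simp)
    have h4 := struct_rank2 H (e := e) (struct_memx.mpr ⟨h1, by simp⟩)
      (struct_memx.mpr ⟨h2, by simp⟩) d
    omega

/-- first option of `hK` -/
theorem struct_opt (H : struct_H r) {e a1 b1 a2 b2 f : α}
    (h1 : ({e, a1, b1} : Finset α) ∈ tri r) (h2 : ({e, a2, b2} : Finset α) ∈ tri r)
    (d : ({e, a1, b1} : Finset α) ≠ {e, a2, b2}) (h : ({a1, a2, f} : Finset α) ∈ tri r) :
    ({b1, b2, f} : Finset α) ∈ tri r := by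
  obtain ⟨g, ⟨k1, k2, _⟩ | ⟨_, _, k3⟩⟩ := H.hK e a1 b1 a2 b2 h1 h2 d
  · rw [struct_uniq H h k1]; exact k2
  · exact absurd h (k3 f).1

set_option maxHeartbeats 4000000 in
/-- transitivity of the relation between legs -/
theorem struct_trans (H : struct_H r) {e a1 b1 a2 b2 a3 b3 f12 f23 : α}
    (h1 : ({e, a1, b1} : Finset α) ∈ tri r) (h2 : ({e, a2, b2} : Finset α) ∈ tri r)
    (h3 : ({e, a3, b3} : Finset α) ∈ tri r)
    (d12 : ({e, a1, b1} : Finset α) ≠ {e, a2, b2}) (d13 : ({e, a1, b1} : Finset α) ≠ {e, a3, b3})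
    (d23 : ({e, a2, b2} : Finset α) ≠ {e, a3, b3})
    (k12 : ({a1, a2, f12} : Finset α) ∈ tri r) (k23 : ({a2, a3, f23} : Finset α) ∈ tri r) :
    ∃ f, ({a1, a3, f} : Finset α) ∈ tri r := by
  by_contra hcon
  push Not at hcon
  have x1 : ({e, a1, b1} : Finset α) ∈ trx r e := struct_memx.mpr ⟨h1, by simp⟩
  have x2 : ({e, a2, b2} : Finset α) ∈ trx r e := struct_memx.mpr ⟨h2, by simp⟩
  have x3 : ({e, a3, b3} : Finset α) ∈ trx r e := struct_memx.mpr ⟨h3, by simp⟩
  have n1 := struct_ne h1
  have n2 := struct_ne h2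
  have n3 := struct_ne h3
  have n12 := struct_ne k12
  have n23 := struct_ne k23
  have L12 := struct_legs H h1 h2 d12
  have L13 := struct_legs H h1 h3 d13
  have L23 := struct_legs H h2 h3 d23
  have F12 := struct_third H h1 h2 d12 k12
  have F23 := struct_third H h2 h3 d23 k23
  have far12 := struct_far H x1 x2 h3 d12 d13 d23 F12.2.2.2
  have far23 := struct_far H x2 x3 h1 d23 d12.symm d13.symm F23.2.2.2
  -- the second option for 1 and 3
  obtain ⟨f13, ⟨k1, _, _⟩ | ⟨k13, _, _⟩⟩ := H.hK e a1 b1 a3 b3 h1 h3 d13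
  · exact hcon _ k1
  have n13 := struct_ne k13
  -- the point a2
  have hd : ({a2, a1, f12} : Finset α) ≠ {a2, a3, f23} := by
    intro he
    have : a3 ∈ ({a2, a1, f12} : Finset α) := by rw [he]; simp
    simp only [mem_insert, mem_singleton] at this
    rcases this with h | h | h
    · exact L23.1 h.symm
    · exact L13.1 h.symm
    · exact far12.1 h.symm
  obtain ⟨g, ⟨k1, _, _⟩ | ⟨kg, _, _⟩⟩ := H.hK a2 a1 f12 a3 f23 (struct_swap k12) k23 hd
  · exact hcon _ k1
  have ng := struct_ne kg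
  have hb := struct_opt H h2 h3 d23 k23
  -- four triangles through a1
  have y1 : ({e, a1, b1} : Finset α) ∈ trx r a1 := struct_memx.mpr ⟨h1, by simp⟩
  have y2 : ({a1, a2, f12} : Finset α) ∈ trx r a1 := struct_memx.mpr ⟨k12, by simp⟩
  have y3 : ({a1, b3, f13} : Finset α) ∈ trx r a1 := struct_memx.mpr ⟨k13, by simp⟩
  have y4 : ({a1, f23, g} : Finset α) ∈ trx r a1 := struct_memx.mpr ⟨kg, by simp⟩
  have e12 : ({e, a1, b1} : Finset α) ≠ {a1, a2, f12} := by
    intro he
    have : a2 ∈ ({e, a1, b1} : Finset α) := by rw [he]; simp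
    simp only [mem_insert, mem_singleton] at this
    rcases this with h | h | h
    · exact n2.1 h.symm
    · exact L12.1 h.symm
    · exact L12.2.2.1 h.symm
  have e13 : ({e, a1, b1} : Finset α) ≠ {a1, b3, f13} := by
    intro he
    have : b3 ∈ ({e, a1, b1} : Finset α) := by rw [he]; simp
    simp only [mem_insert, mem_singleton] at this
    rcases this with h | h | h
    · exact n3.2.1 h.symm
    · exact L13.2.1 h.symm
    · exact L13.2.2.2 h.symm
  have e14 : ({e, a1, b1} : Finset α) ≠ {a1, f23, g} := by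
    intro he
    have : f23 ∈ ({e, a1, b1} : Finset α) := by rw [he]; simp
    simp only [mem_insert, mem_singleton] at this
    rcases this with h | h | h
    · exact F23.1 h
    · exact far23.1 h
    · exact far23.2 h
  have e23 : ({a1, a2, f12} : Finset α) ≠ {a1, b3, f13} := by
    intro he
    have : b3 ∈ ({a1, a2, f12} : Finset α) := by rw [he]; simp
    simp only [mem_insert, mem_singleton] at this
    rcases this with h | h | h
    · exact L13.2.1 h.symm
    · exact L23.2.1 h.symm
    · exact far12.2 h.symm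
  have e24 : ({a1, a2, f12} : Finset α) ≠ {a1, f23, g} := by
    intro he
    have : f23 ∈ ({a1, a2, f12} : Finset α) := by rw [he]; simp
    simp only [mem_insert, mem_singleton] at this
    rcases this with h | h | h
    · exact far23.1 h
    · exact n23.2.1 h.symm
    · subst h
      have h5 := struct_share H k12 k23 n12.2.2 (by simp) (by simp) (by simp) (by simp)
      have h6 : a3 ∈ ({a1, a2, f23} : Finset α) := by rw [h5]; simp
      simp only [mem_insert, mem_singleton] at h6
      rcases h6 with h | h | h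
      · exact L13.1 h.symm
      · exact L23.1 h.symm
      · exact far12.1 h.symm
  have e34 : ({a1, b3, f13} : Finset α) ≠ {a1, f23, g} := by
    intro he
    have : f23 ∈ ({a1, b3, f13} : Finset α) := by rw [he]; simp
    simp only [mem_insert, mem_singleton] at this
    rcases this with h | h | h
    · exact far23.1 h
    · exact F23.2.2.1 h
    · subst h
      have h5 := struct_share H k13 hb n13.2.2 (by simp) (by simp) (by simp) (by simp)
      have h6 : a1 ∈ ({b2, b3, f23} : Finset α) := by rw [← h5]; simp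
      simp only [mem_insert, mem_singleton] at h6
      rcases h6 with h | h | h
      · exact L12.2.1 h
      · exact L13.2.1 h
      · exact far23.1 h.symm
  -- everything lies in a set of rank four
  have c0 : r ({e, a1, a2, a3} : Finset α) ≤ 4 := by
    have q1 := H.hr.insert_le ({a1, a2, a3} : Finset α) e
    have q2 := H.hr.insert_le ({a2, a3} : Finset α) a1
    have q3 := H.hs a2 a3
    have q4 := Finset.card_le_two (a := a2) (b := a3)
    omega
  have c1 := struct_close H h1 (Z := ({e, a1, a2, a3} : Finset α)) (by simp) (by simp)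
  have c2 := struct_close H k12 (Z := insert b1 ({e, a1, a2, a3} : Finset α)) (by simp) (by simp)
  have c3 := struct_close H h3 (Z := insert f12 (insert b1 ({e, a1, a2, a3} : Finset α)))
    (by simp) (by simp)
  have c4 := struct_close H k13
    (Z := insert b3 (insert f12 (insert b1 ({e, a1, a2, a3} : Finset α)))) (by simp) (by simp)
  have c5 := struct_close H k23
    (Z := insert f13 (insert b3 (insert f12 (insert b1 ({e, a1, a2, a3} : Finset α)))))
    (by simp) (by simp)
  have c6 := struct_close H kg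
    (Z := insert f23 (insert f13 (insert b3 (insert f12 (insert b1
      ({e, a1, a2, a3} : Finset α)))))) (by simp) (by simp)
  have c7 := struct_rank4 H y1 y2 y3 y4 e12 e13 e14 e23 e24 e34
    (insert g (insert f23 (insert f13 (insert b3 (insert f12 (insert b1
      ({e, a1, a2, a3} : Finset α)))))))
    (by intro w hw; simp only [mem_insert, mem_singleton] at hw; rcases hw with rfl | rfl | rfl <;> simp)
    (by intro w hw; simp only [mem_insert, mem_singleton] at hw; rcases hw with rfl | rfl | rfl <;> simp)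
    (by intro w hw; simp only [mem_insert, mem_singleton] at hw; rcases hw with rfl | rfl | rfl <;> simp)
    (by intro w hw; simp only [mem_insert, mem_singleton] at hw; rcases hw with rfl | rfl | rfl <;> simp)
  omega

/-- triangles over three legs -/
theorem struct_tri3 (H : struct_H r) {e a1 b1 a2 b2 a3 b3 f12 f23 f13 : α}
    (h1 : ({e, a1, b1} : Finset α) ∈ tri r) (h2 : ({e, a2, b2} : Finset α) ∈ tri r)
    (h3 : ({e, a3, b3} : Finset α) ∈ tri r)
    (d12 : ({e, a1, b1} : Finset α) ≠ {e, a2, b2}) (d13 : ({e, a1, b1} : Finset α) ≠ {e, a3, b3})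
    (d23 : ({e, a2, b2} : Finset α) ≠ {e, a3, b3})
    (k12 : ({a1, a2, f12} : Finset α) ∈ tri r) (k23 : ({a2, a3, f23} : Finset α) ∈ tri r)
    (k13 : ({a1, a3, f13} : Finset α) ∈ tri r) :
    ({f12, f23, f13} : Finset α) ∈ tri r := by
  have x1 : ({e, a1, b1} : Finset α) ∈ trx r e := struct_memx.mpr ⟨h1, by simp⟩
  have x2 : ({e, a2, b2} : Finset α) ∈ trx r e := struct_memx.mpr ⟨h2, by simp⟩
  have L13 := struct_legs H h1 h3 d13
  have L23 := struct_legs H h2 h3 d23
  have F12 := struct_third H h1 h2 d12 k12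
  have far12 := struct_far H x1 x2 h3 d12 d13 d23 F12.2.2.2
  have hd : ({a2, a1, f12} : Finset α) ≠ {a2, a3, f23} := by
    intro he
    have : a3 ∈ ({a2, a1, f12} : Finset α) := by rw [he]; simp
    simp only [mem_insert, mem_singleton] at this
    rcases this with h | h | h
    · exact L23.1 h.symm
    · exact L13.1 h.symm
    · exact far12.1 h.symm
  obtain ⟨g, ⟨k1, k2, _⟩ | ⟨_, _, kc⟩⟩ := H.hK a2 a1 f12 a3 f23 (struct_swap k12) k23 hd
  · rwa [struct_uniq H k1 k13] at k2
  · exact absurd k13 (kc f13).1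

set_option maxHeartbeats 4000000 in
/-- the points over disjoint pairs of legs are different -/
theorem struct_disj (H : struct_H r) {e a1 b1 a2 b2 a3 b3 a4 b4 f g : α}
    (h1 : ({e, a1, b1} : Finset α) ∈ tri r) (h2 : ({e, a2, b2} : Finset α) ∈ tri r)
    (h3 : ({e, a3, b3} : Finset α) ∈ tri r) (h4 : ({e, a4, b4} : Finset α) ∈ tri r)
    (d12 : ({e, a1, b1} : Finset α) ≠ {e, a2, b2}) (d13 : ({e, a1, b1} : Finset α) ≠ {e, a3, b3})
    (d14 : ({e, a1, b1} : Finset α) ≠ {e, a4, b4}) (d23 : ({e, a2, b2} : Finset α) ≠ {e, a3, b3})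
    (d24 : ({e, a2, b2} : Finset α) ≠ {e, a4, b4}) (d34 : ({e, a3, b3} : Finset α) ≠ {e, a4, b4})
    (k12 : ({a1, a2, f} : Finset α) ∈ tri r) (k34 : ({a3, a4, g} : Finset α) ∈ tri r) :
    f ≠ g := by
  rintro rfl
  have x1 : ({e, a1, b1} : Finset α) ∈ trx r e := struct_memx.mpr ⟨h1, by simp⟩
  have x2 : ({e, a2, b2} : Finset α) ∈ trx r e := struct_memx.mpr ⟨h2, by simp⟩
  have x3 : ({e, a3, b3} : Finset α) ∈ trx r e := struct_memx.mpr ⟨h3, by simp⟩
  have x4 : ({e, a4, b4} : Finset α) ∈ trx r e := struct_memx.mpr ⟨h4, by simp⟩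
  have F12 := struct_third H h1 h2 d12 k12
  have F34 := struct_third H h3 h4 d34 k34
  have c1 := H.hr.submod (insert f ({e, a1, b1} ∪ {e, a2, b2}))
    (insert f ({e, a3, b3} ∪ {e, a4, b4}))
  have c2 := struct_rank4 H x1 x2 x3 x4 d12 d13 d14 d23 d24 d34
    (insert f ({e, a1, b1} ∪ {e, a2, b2}) ∪ insert f ({e, a3, b3} ∪ {e, a4, b4}))
    (by intro w hw; simp only [mem_insert, mem_singleton] at hw; rcases hw with rfl | rfl | rfl <;> simp)
    (by intro w hw; simp only [mem_insert, mem_singleton] at hw; rcases hw with rfl | rfl | rfl <;> simp)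
    (by intro w hw; simp only [mem_insert, mem_singleton] at hw; rcases hw with rfl | rfl | rfl <;> simp)
    (by intro w hw; simp only [mem_insert, mem_singleton] at hw; rcases hw with rfl | rfl | rfl <;> simp)
  have c3 : r {f, e} ≤ r (insert f ({e, a1, b1} ∪ {e, a2, b2}) ∩
      insert f ({e, a3, b3} ∪ {e, a4, b4})) := H.hr.mono _ _ (by
    intro w hw
    simp only [mem_insert, mem_singleton] at hw
    rcases hw with rfl | rfl <;> simp)
  rw [H.hs, Finset.card_pair F12.1] at c3
  have c4 := F12.2.2.2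
  have c5 := F34.2.2.2
  omega

end struct_aux

section struct_aux2

variable {α : Type} [Fintype α] [DecidableEq α] {r : Finset α → ℕ}

/-- the labelled triangles through a point -/
structure struct_D (r : Finset α → ℕ) {m : ℕ} (e0 : α) (a b : Fin (m + 1) → α)
    (f : Fin (m + 1) → Fin (m + 1) → α) : Prop where
  t : ∀ i, ({e0, a i, b i} : Finset α) ∈ tri r
  d : ∀ i j, i ≠ j → ({e0, a i, b i} : Finset α) ≠ {e0, a j, b j}
  fa : ∀ i j, i ≠ j → ({a i, a j, f i j} : Finset α) ∈ tri r
  fb : ∀ i j, i ≠ j → ({b i, b j, f i j} : Finset α) ∈ tri r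

/-- the labelling of the edges of the complete graph -/
def struct_g {m : ℕ} (e0 : α) (a b : Fin (m + 1) → α) (f : Fin (m + 1) → Fin (m + 1) → α)
    (u v : Fin (m + 3)) : α :=
  Fin.cases (motive := fun _ => α)
    (Fin.cases (motive := fun _ => α) e0 (Fin.cases (motive := fun _ => α) e0 a) v)
    (fun u' => Fin.cases (motive := fun _ => α)
      (Fin.cases (motive := fun _ => α) e0 (Fin.cases (motive := fun _ => α) e0 b) v)
      (fun i => Fin.cases (motive := fun _ => α) (a i)
        (Fin.cases (motive := fun _ => α) (b i) (f i)) v) u') u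

theorem struct_split {m : ℕ} (u : Fin (m + 3)) :
    u = 0 ∨ u = (0 : Fin (m + 2)).succ ∨ ∃ i : Fin (m + 1), u = i.succ.succ := by
  refine Fin.cases (Or.inl rfl) (fun u' => Or.inr ?_) u
  refine Fin.cases (Or.inl rfl) (fun i => Or.inr ⟨i, rfl⟩) u'

theorem struct_fsymm (H : struct_H r) {m : ℕ} {e0 : α} {a b : Fin (m + 1) → α}
    {f : Fin (m + 1) → Fin (m + 1) → α} (D : struct_D r e0 a b f) (i j : Fin (m + 1)) :
    f i j = f j i := by
  by_cases h : i = j
  · subst h; rfl
  · exact struct_uniq H (D.fa i j h) (struct_swap (D.fa j i (Ne.symm h)))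

theorem struct_gsymm (H : struct_H r) {m : ℕ} {e0 : α} {a b : Fin (m + 1) → α}
    {f : Fin (m + 1) → Fin (m + 1) → α} (D : struct_D r e0 a b f) (u v : Fin (m + 3)) :
    struct_g e0 a b f u v = struct_g e0 a b f v u := by
  rcases struct_split u with rfl | rfl | ⟨i, rfl⟩ <;>
    rcases struct_split v with rfl | rfl | ⟨j, rfl⟩
  · rfl
  · rfl
  · rfl
  · rfl
  · rfl
  · rfl
  · rfl
  · rfl
  · exact struct_fsymm H D i j

theorem struct_lt {m : ℕ} {i j : Fin (m + 1)} (h : i.succ.succ < j.succ.succ) : i < j := by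
  rw [Fin.succ_lt_succ_iff, Fin.succ_lt_succ_iff] at h
  exact h

theorem struct_gtri_sorted (H : struct_H r) {m : ℕ} {e0 : α} {a b : Fin (m + 1) → α}
    {f : Fin (m + 1) → Fin (m + 1) → α} (D : struct_D r e0 a b f) (u v w : Fin (m + 3))
    (huv : u < v) (hvw : v < w) :
    ({struct_g e0 a b f u v, struct_g e0 a b f v w, struct_g e0 a b f u w} : Finset α) ∈ tri r := by
  rcases struct_split u with rfl | rfl | ⟨i, rfl⟩ <;>
    rcases struct_split v with rfl | rfl | ⟨j, rfl⟩ <;>
    rcases struct_split w with rfl | rfl | ⟨k, rfl⟩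
  all_goals first
    | (exfalso; have hh := Fin.lt_def.mp huv; simp only [Fin.val_zero, Fin.val_succ] at hh; (try omega); done)
    | (exfalso; have hh := Fin.lt_def.mp hvw; simp only [Fin.val_zero, Fin.val_succ] at hh; (try omega); done)
    | skip
  · show ({e0, b k, a k} : Finset α) ∈ tri r
    exact struct_swap' (D.t k)
  · show ({a j, f j k, a k} : Finset α) ∈ tri r
    exact struct_swap' (D.fa j k (struct_lt hvw).ne)
  · show ({b j, f j k, b k} : Finset α) ∈ tri r
    exact struct_swap' (D.fb j k (struct_lt hvw).ne)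
  · show ({f i j, f j k, f i k} : Finset α) ∈ tri r
    have h1 := (struct_lt huv).ne
    have h2 := (struct_lt hvw).ne
    have h3 := ((struct_lt huv).trans (struct_lt hvw)).ne
    exact struct_tri3 H (D.t i) (D.t j) (D.t k) (D.d i j h1) (D.d i k h3) (D.d j k h2)
      (D.fa i j h1) (D.fa j k h2) (D.fa i k h3)

theorem struct_gtri (H : struct_H r) {m : ℕ} {e0 : α} {a b : Fin (m + 1) → α}
    {f : Fin (m + 1) → Fin (m + 1) → α} (D : struct_D r e0 a b f) (u v w : Fin (m + 3))
    (huv : u ≠ v) (hvw : v ≠ w) (huw : u ≠ w) :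
    ({struct_g e0 a b f u v, struct_g e0 a b f v w, struct_g e0 a b f u w} : Finset α) ∈ tri r := by
  have s12 : ∀ u v w : Fin (m + 3), ({struct_g e0 a b f u v, struct_g e0 a b f v w,
      struct_g e0 a b f u w} : Finset α) ∈ tri r → ({struct_g e0 a b f v u,
      struct_g e0 a b f u w, struct_g e0 a b f v w} : Finset α) ∈ tri r := by
    intro u v w h
    rw [struct_gsymm H D v u]
    exact struct_swap' h
  have s23 : ∀ u v w : Fin (m + 3), ({struct_g e0 a b f u v, struct_g e0 a b f v w,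
      struct_g e0 a b f u w} : Finset α) ∈ tri r → ({struct_g e0 a b f u w,
      struct_g e0 a b f w v, struct_g e0 a b f u v} : Finset α) ∈ tri r := by
    intro u v w h
    rw [struct_gsymm H D w v]
    exact struct_swap' (struct_swap (struct_swap' h))
  rcases lt_or_gt_of_ne huv with h1 | h1 <;> rcases lt_or_gt_of_ne hvw with h2 | h2 <;>
    rcases lt_or_gt_of_ne huw with h3 | h3
  · exact struct_gtri_sorted H D u v w h1 h2
  · exact absurd (h1.trans h2) (not_lt.mpr h3.le)
  · exact s23 _ _ _ (struct_gtri_sorted H D u w v h3 h2)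
  · exact s23 _ _ _ (s12 _ _ _ (struct_gtri_sorted H D w u v h3 h1))
  · exact s12 _ _ _ (struct_gtri_sorted H D v u w h1 h3)
  · exact s12 _ _ _ (s23 _ _ _ (struct_gtri_sorted H D v w u h2 h3))
  · exact absurd (h2.trans h1) (not_lt.mpr h3.le)
  · exact s12 _ _ _ (s23 _ _ _ (s12 _ _ _ (struct_gtri_sorted H D w v u h2 h1)))

theorem struct_gdisj_sorted (H : struct_H r) {m : ℕ} {e0 : α} {a b : Fin (m + 1) → α}
    {f : Fin (m + 1) → Fin (m + 1) → α} (D : struct_D r e0 a b f) (u v w x : Fin (m + 3))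
    (huv : u < v) (hwx : w < x) (huw : u < w) (hvw : v ≠ w) (hvx : v ≠ x) :
    struct_g e0 a b f u v ≠ struct_g e0 a b f w x := by
  have mx : ∀ i, ({e0, a i, b i} : Finset α) ∈ trx r e0 := fun i =>
    struct_memx.mpr ⟨D.t i, by simp⟩
  have far : ∀ i j k, i ≠ j → i ≠ k → j ≠ k → f i j ≠ a k ∧ f i j ≠ b k := by
    intro i j k hij hik hjk
    exact struct_far H (mx i) (mx j) (D.t k) (D.d i j hij) (D.d i k hik) (D.d j k hjk)
      (struct_third H (D.t i) (D.t j) (D.d i j hij) (D.fa i j hij)).2.2.2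
  have ss : ∀ i j : Fin (m + 1), i.succ.succ ≠ j.succ.succ → i ≠ j := by
    intro i j h he; exact h (by rw [he])
  rcases struct_split u with rfl | rfl | ⟨i, rfl⟩ <;>
    rcases struct_split v with rfl | rfl | ⟨j, rfl⟩ <;>
    rcases struct_split w with rfl | rfl | ⟨k, rfl⟩ <;>
    rcases struct_split x with rfl | rfl | ⟨l, rfl⟩
  all_goals first
    | (exfalso; have hh := Fin.lt_def.mp huv; simp only [Fin.val_zero, Fin.val_succ] at hh; (try omega); done)
    | (exfalso; have hh := Fin.lt_def.mp hwx; simp only [Fin.val_zero, Fin.val_succ] at hh; (try omega); done)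
    | (exfalso; have hh := Fin.lt_def.mp huw; simp only [Fin.val_zero, Fin.val_succ] at hh; (try omega); done)
    | exact absurd rfl hvw
    | exact absurd rfl hvx
    | skip
  · show e0 ≠ f k l
    have h := (struct_lt hwx).ne
    exact (struct_third H (D.t k) (D.t l) (D.d k l h) (D.fa k l h)).1.symm
  · show a j ≠ b l
    exact (struct_legs H (D.t j) (D.t l) (D.d j l (ss _ _ hvx))).2.1
  · show a j ≠ f k l
    exact (far k l j (struct_lt hwx).ne (ss _ _ hvw).symm (ss _ _ hvx).symm).1.symm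
  · show b j ≠ f k l
    exact (far k l j (struct_lt hwx).ne (ss _ _ hvw).symm (ss _ _ hvx).symm).2.symm
  · show f i j ≠ f k l
    have h1 := (struct_lt huv).ne
    have h2 := (struct_lt hwx).ne
    have h3 := (struct_lt huw).ne
    have h4 := ((struct_lt huw).trans (struct_lt hwx)).ne
    have h5 := ss _ _ hvw
    have h6 := ss _ _ hvx
    exact struct_disj H (D.t i) (D.t j) (D.t k) (D.t l) (D.d i j h1) (D.d i k h3) (D.d i l h4)
      (D.d j k h5) (D.d j l h6) (D.d k l h2) (D.fa i j h1) (D.fa k l h2)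

theorem struct_gdisj (H : struct_H r) {m : ℕ} {e0 : α} {a b : Fin (m + 1) → α}
    {f : Fin (m + 1) → Fin (m + 1) → α} (D : struct_D r e0 a b f) (u v w x : Fin (m + 3))
    (huv : u ≠ v) (hwx : w ≠ x) (huw : u ≠ w) (hux : u ≠ x) (hvw : v ≠ w) (hvx : v ≠ x) :
    struct_g e0 a b f u v ≠ struct_g e0 a b f w x := by
  wlog h1 : u < v generalizing u v
  · rw [struct_gsymm H D u v]
    exact this v u huv.symm hvw hvx huw hux (lt_of_le_of_ne (not_lt.mp h1) huv.symm)
  wlog h2 : w < x generalizing w x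
  · rw [struct_gsymm H D w x]
    exact this x w hwx.symm hux huw hvx hvw (lt_of_le_of_ne (not_lt.mp h2) hwx.symm)
  rcases lt_or_gt_of_ne huw with h3 | h3
  · exact struct_gdisj_sorted H D u v w x h1 h2 h3 hvw hvx
  · exact (struct_gdisj_sorted H D w x u v h2 h1 h3 hux.symm hvx.symm).symm

theorem struct_ginj (H : struct_H r) {m : ℕ} {e0 : α} {a b : Fin (m + 1) → α}
    {f : Fin (m + 1) → Fin (m + 1) → α} (D : struct_D r e0 a b f) (u v w x : Fin (m + 3))
    (huv : u ≠ v) (hwx : w ≠ x) (h : struct_g e0 a b f u v = struct_g e0 a b f w x) :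
    s(u, v) = s(w, x) := by
  by_cases h1 : u = w
  · subst h1
    by_cases h2 : v = x
    · rw [h2]
    · exact absurd h (struct_ne (struct_gtri H D u v x huv h2 hwx)).2.1
  by_cases h2 : u = x
  · subst h2
    by_cases h3 : v = w
    · rw [h3]; exact Sym2.eq_swap
    · rw [struct_gsymm H D w u] at h
      exact absurd h (struct_ne (struct_gtri H D u v w huv h3 h1)).2.1
  by_cases h3 : v = w
  · subst h3
    exact absurd h (struct_ne (struct_gtri H D u v x huv hwx h2)).1
  by_cases h4 : v = x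
  · subst h4
    rw [struct_gsymm H D w v] at h
    exact absurd h (struct_ne (struct_gtri H D u v w huv h3 h1)).1
  exact absurd h (struct_gdisj H D u v w x huv hwx h1 h2 h3 h4)

theorem struct_exlegs {t : Finset α} {e : α} (ht : t ∈ tri r) (he : e ∈ t) :
    ∃ a b, t = {e, a, b} := by
  obtain ⟨x, y, z, _, _, _, rfl⟩ := Finset.card_eq_three.mp (struct_mem.mp ht).1
  simp only [mem_insert, mem_singleton] at he
  rcases he with rfl | rfl | rfl
  · exact ⟨y, z, rfl⟩
  · exact ⟨x, z, Finset.insert_comm _ _ _⟩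
  · refine ⟨x, y, ?_⟩
    ext w
    simp only [mem_insert, mem_singleton]
    tauto

theorem struct_exD (H : struct_H r) (m : ℕ) (e0 : α) (hc : (trx r e0).card = m + 1) :
    ∃ (a b : Fin (m + 1) → α) (f : Fin (m + 1) → Fin (m + 1) → α), struct_D r e0 a b f := by
  obtain ⟨t, ht1, ht2⟩ : ∃ t : Fin (m + 1) → Finset α, (∀ i, t i ∈ trx r e0) ∧
      Function.Injective t :=
    ⟨fun i => ((Finset.equivFinOfCardEq hc).symm i).1,
      fun i => ((Finset.equivFinOfCardEq hc).symm i).2,
      Subtype.val_injective.comp (Finset.equivFinOfCardEq hc).symm.injective⟩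
  have ht3 : ∀ i, t i ∈ tri r := fun i => (struct_memx.mp (ht1 i)).1
  have hex : ∀ i, ∃ a b, t i = {e0, a, b} := fun i =>
    struct_exlegs (ht3 i) (struct_memx.mp (ht1 i)).2
  obtain ⟨a0, b0, h0⟩ := hex 0
  have hab : ∀ i, ∃ ab : α × α, t i = {e0, ab.1, ab.2} ∧ (i = 0 → ab = (a0, b0)) ∧
      (i ≠ 0 → ∃ f, ({a0, ab.1, f} : Finset α) ∈ tri r) := by
    intro i
    by_cases hi : i = 0
    · subst hi
      exact ⟨(a0, b0), h0, fun _ => rfl, fun h => absurd rfl h⟩
    · obtain ⟨a, b, hi2⟩ := hex i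
      have k0 : ({e0, a0, b0} : Finset α) ∈ tri r := h0 ▸ ht3 0
      have ki : ({e0, a, b} : Finset α) ∈ tri r := hi2 ▸ ht3 i
      have kd : ({e0, a0, b0} : Finset α) ≠ {e0, a, b} := by
        rw [← h0, ← hi2]
        exact fun h => hi (ht2 h).symm
      obtain ⟨f, ⟨k1, _, _⟩ | ⟨k1, _, _⟩⟩ := H.hK e0 a0 b0 a b k0 ki kd
      · exact ⟨(a, b), hi2, fun h => absurd h hi, fun _ => ⟨f, k1⟩⟩
      · refine ⟨(b, a), ?_, fun h => absurd h hi, fun _ => ⟨f, k1⟩⟩
        rw [hi2]
        show ({e0, a, b} : Finset α) = {e0, b, a}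
        rw [Finset.pair_comm]
  choose ab hab1 hab2 hab3 using hab
  have hT : ∀ i, ({e0, (ab i).1, (ab i).2} : Finset α) ∈ tri r := fun i => hab1 i ▸ ht3 i
  have hd : ∀ i j, i ≠ j → ({e0, (ab i).1, (ab i).2} : Finset α) ≠ {e0, (ab j).1, (ab j).2} := by
    intro i j hij
    rw [← hab1, ← hab1]
    exact fun h => hij (ht2 h)
  have hadj : ∀ i j, i ≠ j → ∃ f, ({(ab i).1, (ab j).1, f} : Finset α) ∈ tri r := by
    intro i j hij
    have e00 : (ab 0).1 = a0 := by rw [hab2 0 rfl]
    by_cases hi : i = 0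
    · subst hi
      rw [e00]
      exact hab3 j (Ne.symm hij)
    by_cases hj : j = 0
    · subst hj
      rw [e00]
      obtain ⟨f, hf⟩ := hab3 i hi
      exact ⟨f, struct_swap hf⟩
    obtain ⟨f1, hf1⟩ := hab3 i hi
    obtain ⟨f2, hf2⟩ := hab3 j hj
    rw [← e00] at hf1 hf2
    exact struct_trans H (hT i) (hT 0) (hT j) (hd i 0 hi) (hd i j hij) (hd 0 j (Ne.symm hj))
      (struct_swap hf1) hf2
  have hf : ∀ i j, ∃ f, i ≠ j → ({(ab i).1, (ab j).1, f} : Finset α) ∈ tri r := by
    intro i j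
    by_cases hij : i = j
    · exact ⟨e0, fun h => absurd hij h⟩
    · obtain ⟨f, hf⟩ := hadj i j hij
      exact ⟨f, fun _ => hf⟩
  choose f hf using hf
  exact ⟨fun i => (ab i).1, fun i => (ab i).2, f, hT, hd, hf, fun i j hij =>
    struct_opt H (hT i) (hT j) (hd i j hij) (hf i j hij)⟩

end struct_aux2

/-- reconstruction of the complete graph from triangles -/
theorem struct {α : Type} [Fintype α] [DecidableEq α] (n : ℕ) (hn : 1 ≤ n)
    (r : Finset α → ℕ) (hr : IsRk r)
    (hs : ∀ a b : α, r {a, b} = ({a, b} : Finset α).card)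
    (hl : ∀ t : Finset α, t.card = 3 → r t = 2 → ∀ y, y ∉ t → r (insert y t) = 3)
    (hrk : r univ = n)
    (hN : 2 * (Fintype.card α : ℤ) = n * (n + 1))
    (hd : ∀ x : α, ((trx r x).card : ℤ) = n - 1)
    (hind : ∀ x : α, ∀ T : Finset (Finset α), T ⊆ trx r x →
      r (insert x (T.biUnion id)) = T.card + 1)
    (hK : ∀ e a b c d : α, ({e, a, b} : Finset α) ∈ tri r → ({e, c, d} : Finset α) ∈ tri r →
      ({e, a, b} : Finset α) ≠ {e, c, d} →
      ∃ f, (({a, c, f} : Finset α) ∈ tri r ∧ ({b, d, f} : Finset α) ∈ tri r ∧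
              ∀ g, ({a, d, g} : Finset α) ∉ tri r ∧ ({b, c, g} : Finset α) ∉ tri r) ∨
           (({a, d, f} : Finset α) ∈ tri r ∧ ({b, c, f} : Finset α) ∈ tri r ∧
              ∀ g, ({a, c, g} : Finset α) ∉ tri r ∧ ({b, d, g} : Finset α) ∉ tri r)) :
    ∃ e : α ≃ {s : Sym2 (Fin (n + 1)) // ¬ s.IsDiag},
      ∀ (i j k : Fin (n + 1)) (hij : i ≠ j) (hjk : j ≠ k) (hik : i ≠ k),
        r {e.symm ⟨s(i, j), by simpa using hij⟩, e.symm ⟨s(j, k), by simpa using hjk⟩,
           e.symm ⟨s(i, k), by simpa using hik⟩} ≤ 2 := by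
  have H : struct_H r := ⟨hr, hs, hl, hind, hK⟩
  have hcard2 : ∀ k : ℕ, Fintype.card {s : Sym2 (Fin k) // ¬ s.IsDiag} = k.choose 2 := by
    intro k
    have := Sym2.card_subtype_not_diag (α := Fin k)
    rw [Fintype.card_fin] at this
    exact this
  have hcα : Fintype.card α = Fintype.card {s : Sym2 (Fin (n + 1)) // ¬ s.IsDiag} := by
    rw [hcard2, Nat.choose_two_right, Nat.add_sub_cancel]
    have h1 : 2 * Fintype.card α = n * (n + 1) := by exact_mod_cast hN
    rw [mul_comm (n + 1) n, ← h1]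
    omega
  obtain rfl | ⟨m, rfl⟩ : n = 1 ∨ ∃ m, n = m + 2 := by
    rcases Nat.lt_or_ge n 2 with h | h
    · left; omega
    · right; exact ⟨n - 2, by omega⟩
  · refine ⟨Fintype.equivOfCardEq hcα, fun i j k hij hjk hik => ?_⟩
    exfalso
    rw [Ne, Fin.ext_iff] at hij hjk hik
    omega
  · have hpos : 0 < Fintype.card α := by
      have h1 : 2 * Fintype.card α = (m + 2) * ((m + 2) + 1) := by exact_mod_cast hN
      have h2 : 0 < (m + 2) * ((m + 2) + 1) := by positivity
      omega
    obtain ⟨e0⟩ := Fintype.card_pos_iff.mp hpos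
    have hc : (trx r e0).card = m + 1 := by
      have := hd e0
      push_cast at this
      omega
    obtain ⟨a, b, f, D⟩ := struct_exD H m e0 hc
    obtain ⟨G, hG⟩ : ∃ G : {s : Sym2 (Fin (m + 2 + 1)) // ¬ s.IsDiag} → α,
        ∀ (u v : Fin (m + 3)) (h : ¬ (s(u, v)).IsDiag), G ⟨s(u, v), h⟩ =
          struct_g e0 a b f u v :=
      ⟨fun s => Sym2.lift ⟨struct_g e0 a b f, struct_gsymm H D⟩ s.1, fun u v h => rfl⟩
    have hinj : Function.Injective G := by
      rintro ⟨s, hs1⟩ ⟨s', hs2⟩ h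
      induction s with | _ u v
      induction s' with | _ w x
      rw [hG, hG] at h
      apply Subtype.ext
      exact struct_ginj H D u v w x (by simpa using hs1) (by simpa using hs2) h
    have hbij : Function.Bijective G :=
      (Fintype.bijective_iff_injective_and_card G).mpr ⟨hinj, hcα.symm⟩
    refine ⟨(Equiv.ofBijective G hbij).symm, fun i j k hij hjk hik => ?_⟩
    rw [Equiv.symm_symm]
    show r {G _, G _, G _} ≤ 2
    rw [hG, hG, hG]
    exact (struct_mem.mp (struct_gtri H D i j k hij hjk hik)).2.le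


end B4
end DC813
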