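import Pool.Agent.Helper813.DC.Defs

set_option autoImplicit false

namespace DC813
namespace B5
open Finset


theorem gi_card {α : Type} [DecidableEq α] {r : Finset α → ℕ} (hr : IsRk r) (X : Finset α) :
    r X ≤ X.card := by
  induction X using Finset.induction_on with
  | empty => rw [hr.empty]; simp
  | insert a s ha ih =>
    rw [Finset.card_insert_of_notMem ha]
    have := hr.insert_le s a
    omega

theorem gi_union_card {α : Type} [DecidableEq α] {r : Finset α → ℕ} (hr : IsRk r)
    (X Z : Finset α) : r (X ∪ Z) ≤ r X + Z.card := by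
  have h1 := hr.submod X Z
  have h2 := gi_card hr Z
  omega

theorem gi_cl_mono {α : Type} [DecidableEq α] {r : Finset α → ℕ} (hr : IsRk r)
    {X Y : Finset α} (hXY : X ⊆ Y) {x : α} (hx : r (insert x X) = r X) :
    r (insert x Y) = r Y := by
  have h1 := hr.submod (insert x X) Y
  have h2 : insert x X ∪ Y = insert x Y := by
    ext z
    simp only [Finset.mem_union, Finset.mem_insert]
    constructor
    · rintro ((h | h) | h)
      · exact Or.inl h
      · exact Or.inr (hXY h)
      · exact Or.inr h
    · rintro (h | h)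
      · exact Or.inl (Or.inl h)
      · exact Or.inr h
  have h3 : r X ≤ r (insert x X ∩ Y) :=
    hr.mono _ _ (Finset.subset_inter (Finset.subset_insert _ _) hXY)
  have h4 := hr.mono Y (insert x Y) (Finset.subset_insert _ _)
  rw [h2] at h1
  omega

theorem gi_cl_union {α : Type} [DecidableEq α] {r : Finset α → ℕ} (hr : IsRk r)
    (X Z : Finset α) (h : ∀ z ∈ Z, r (insert z X) = r X) : r (X ∪ Z) = r X := by
  induction Z using Finset.induction_on with
  | empty => rw [Finset.union_empty]
  | insert a s ha ih =>
    have h1 := ih (fun z hz => h z (Finset.mem_insert_of_mem hz))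
    rw [Finset.union_insert]
    rw [gi_cl_mono hr Finset.subset_union_left (h a (Finset.mem_insert_self _ _)), h1]

theorem gi_adj {α : Type} [DecidableEq α] (n : ℕ)
    (e : α ≃ {s : Sym2 (Fin (n + 1)) // ¬ s.IsDiag}) (I : Finset α) (u v : Fin (n + 1)) :
    (SimpleGraph.fromEdgeSet (Subtype.val '' (e '' (I : Set α)))).Adj u v ↔
      ∃ x ∈ I, (e x).1 = s(u, v) := by
  rw [SimpleGraph.fromEdgeSet_adj]
  constructor
  · rintro ⟨⟨y, ⟨x, hx, rfl⟩, hy⟩, _⟩
    exact ⟨x, hx, hy⟩
  · rintro ⟨x, hx, hy⟩
    refine ⟨⟨e x, ⟨x, hx, rfl⟩, hy⟩, ?_⟩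
    rintro rfl
    have := (e x).2
    rw [hy] at this
    exact this (by simp)

theorem gi_key {α : Type} [Fintype α] [DecidableEq α] (n : ℕ)
    (r : Finset α → ℕ) (hr : IsRk r)
    (e : α ≃ {s : Sym2 (Fin (n + 1)) // ¬ s.IsDiag})
    (he : ∀ (i j k : Fin (n + 1)) (hij : i ≠ j) (hjk : j ≠ k) (hik : i ≠ k),
        r {e.symm ⟨s(i, j), by simpa using hij⟩, e.symm ⟨s(j, k), by simpa using hjk⟩,
           e.symm ⟨s(i, k), by simpa using hik⟩} ≤ 2)
    (hs : ∀ a b : α, r {a, b} = ({a, b} : Finset α).card) (I : Finset α)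
    (G : SimpleGraph (Fin (n + 1)))
    (hG : ∀ u v, G.Adj u v → ∃ x ∈ I, (e x).1 = s(u, v)) (u v : Fin (n + 1))
    (p : G.Walk u v) :
    ∀ x : α, (e x).1 = s(u, v) → r (insert x I) = r I := by
  induction p with
  | nil =>
    intro x hx
    exfalso
    have := (e x).2
    rw [hx] at this
    exact this (by simp)
  | @cons u w v hadj p ih =>
    intro x hx
    have huv : u ≠ v := by
      rintro rfl
      have := (e x).2
      rw [hx] at this
      exact this (by simp)
    obtain ⟨a, haI, ha⟩ := hG _ _ hadj
    have huw : u ≠ w := hadj.ne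
    by_cases hwv : w = v
    · subst hwv
      have : x = a := e.injective (Subtype.ext (hx.trans ha.symm))
      rw [this, Finset.insert_eq_of_mem haI]
    · obtain ⟨b, hb⟩ : ∃ b, (e b).1 = s(w, v) :=
        ⟨e.symm ⟨s(w, v), by simpa using hwv⟩, by rw [Equiv.apply_symm_apply]⟩
      have hbI := ih b hb
      have e1 : e.symm ⟨s(u, w), by simpa using huw⟩ = a := by
        rw [Equiv.symm_apply_eq]; exact Subtype.ext ha.symm
      have e2 : e.symm ⟨s(w, v), by simpa using hwv⟩ = b := by
        rw [Equiv.symm_apply_eq]; exact Subtype.ext hb.symm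
      have e3 : e.symm ⟨s(u, v), by simpa using huv⟩ = x := by
        rw [Equiv.symm_apply_eq]; exact Subtype.ext hx.symm
      have ht := he u w v huw hwv huv
      rw [e1, e2, e3] at ht
      have hab : a ≠ b := by
        rintro rfl
        have h5 : s(u, w) = s(w, v) := ha.symm.trans hb
        rw [Sym2.eq_iff] at h5
        rcases h5 with ⟨h6, _⟩ | ⟨h6, _⟩
        · exact huw h6
        · exact huv h6
      have h2 : r {a, b} = 2 := by
        rw [hs, Finset.card_pair hab]
      have hcl : r (insert x {a, b}) = r {a, b} := by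
        have h3 : (insert x {a, b} : Finset α) = {a, b, x} := by
          ext z; simp only [Finset.mem_insert, Finset.mem_singleton]; tauto
        have h4 := hr.mono {a, b} (insert x {a, b}) (Finset.subset_insert _ _)
        rw [h3] at h4 ⊢
        omega
      have h5 : r (I ∪ {a, b}) = r I := by
        apply gi_cl_union hr
        intro z hz
        rw [Finset.mem_insert, Finset.mem_singleton] at hz
        rcases hz with rfl | rfl
        · rw [Finset.insert_eq_of_mem haI]
        · exact hbI
      have h6 := gi_cl_mono hr (Finset.subset_union_right : {a, b} ⊆ I ∪ {a, b}) hcl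
      have h7 := hr.mono (insert x I) (insert x (I ∪ {a, b}))
        (Finset.insert_subset_insert _ Finset.subset_union_left)
      have h8 := hr.mono I (insert x I) (Finset.subset_insert _ _)
      omega

/-- a rank `n` matroid on the edges of `K_{n+1}` in which graph triangles are dependent
is the cycle matroid -/
theorem graph_iso {α : Type} [Fintype α] [DecidableEq α] (n : ℕ)
    (r : Finset α → ℕ) (hr : IsRk r)
    (hrk : r univ = n)
    (e : α ≃ {s : Sym2 (Fin (n + 1)) // ¬ s.IsDiag})
    (he : ∀ (i j k : Fin (n + 1)) (hij : i ≠ j) (hjk : j ≠ k) (hik : i ≠ k),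
        r {e.symm ⟨s(i, j), by simpa using hij⟩, e.symm ⟨s(j, k), by simpa using hjk⟩,
           e.symm ⟨s(i, k), by simpa using hik⟩} ≤ 2)
    (hs : ∀ a b : α, r {a, b} = ({a, b} : Finset α).card) :
    ∀ I : Finset α, r I = I.card ↔
      (SimpleGraph.fromEdgeSet (Subtype.val '' (e '' (I : Set α)))).IsAcyclic := by
  classical
  intro I
  constructor
  · intro hI
    rw [SimpleGraph.isAcyclic_iff_forall_adj_isBridge]
    intro u v huv
    rw [SimpleGraph.isBridge_iff]
    rintro ⟨p⟩
    obtain ⟨x, hxI, hx⟩ := (gi_adj n e I u v).mp huv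
    have h1 := gi_key n r hr e he hs (I.erase x) _ ?_ u v p x hx
    · rw [Finset.insert_erase hxI] at h1
      have h2 := gi_card hr (I.erase x)
      rw [Finset.card_erase_of_mem hxI] at h2
      have h3 : 0 < I.card := Finset.card_pos.mpr ⟨x, hxI⟩
      omega
    · intro a b hab
      rw [SimpleGraph.deleteEdges_adj] at hab
      obtain ⟨y, hyI, hy⟩ := (gi_adj n e I a b).mp hab.1
      refine ⟨y, Finset.mem_erase.mpr ⟨?_, hyI⟩, hy⟩
      rintro rfl
      apply hab.2
      rw [Set.mem_singleton_iff, ← hy, hx]
  · intro hI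
    obtain ⟨T, hT1, _, hT⟩ := (SimpleGraph.connected_top
      (V := Fin (n + 1))).exists_isTree_le_of_le_of_isAcyclic le_top hI
    have hcard := hT.card_edgeFinset
    rw [Fintype.card_fin] at hcard
    obtain ⟨J, hJ⟩ : ∃ J : Finset α, J = univ.filter (fun x => (e x).1 ∈ T.edgeSet) := ⟨_, rfl⟩
    have hmem : ∀ x, x ∈ J ↔ (e x).1 ∈ T.edgeSet := by
      intro x; rw [hJ]; simp
    have hJcard : J.card = n := by
      have h1 : J.card = T.edgeFinset.card := by
        refine Finset.card_bij (fun x _ => (e x).1) ?_ ?_ ?_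
        · intro x hx
          rw [SimpleGraph.mem_edgeFinset]
          exact (hmem x).mp hx
        · intro x _ y _ hxy
          exact e.injective (Subtype.ext hxy)
        · intro s hs'
          rw [SimpleGraph.mem_edgeFinset] at hs'
          refine ⟨e.symm ⟨s, T.not_isDiag_of_mem_edgeSet hs'⟩, ?_, ?_⟩
          · rw [hmem, Equiv.apply_symm_apply]
            exact hs'
          · rw [Equiv.apply_symm_apply]
      omega
    have hall : ∀ x : α, r (insert x J) = r J := by
      intro x
      obtain ⟨⟨u, v⟩, huv⟩ := Quot.exists_rep (e x).1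
      have hreach : T.Reachable u v := hT.connected.preconnected u v
      obtain ⟨p⟩ := hreach
      refine gi_key n r hr e he hs J T ?_ u v p x huv.symm
      intro a b hab
      refine ⟨e.symm ⟨s(a, b), by simpa using hab.ne⟩, ?_, ?_⟩
      · rw [hmem, Equiv.apply_symm_apply]
        exact hab
      · rw [Equiv.apply_symm_apply]
    have hJr : r J = n := by
      have h1 := gi_cl_union hr J univ (fun z _ => hall z)
      rw [Finset.union_eq_right.mpr (Finset.subset_univ J), hrk] at h1
      exact h1.symm
    have hIJ : I ⊆ J := by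
      intro x hx
      rw [hmem]
      obtain ⟨⟨u, v⟩, huv⟩ := Quot.exists_rep (e x).1
      have h1 : (SimpleGraph.fromEdgeSet (Subtype.val '' (e '' (I : Set α)))).Adj u v :=
        (gi_adj n e I u v).mpr ⟨x, hx, huv.symm⟩
      have h2 := hT1 h1
      rw [← huv]
      exact h2
    have h3 := gi_union_card hr I (J \ I)
    rw [Finset.union_sdiff_of_subset hIJ, Finset.card_sdiff_of_subset hIJ] at h3
    have h4 := gi_card hr I
    have h5 := Finset.card_le_card hIJ
    omega


end B5
end DC813
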