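import Pool.Agent.Helper813.DC.Defs

set_option autoImplicit false

namespace DC813
namespace B6
open Finset


theorem j13629_term (c e j : ℕ) : ((-1 : Polynomial ℤ) ^ c * Polynomial.X ^ e).coeff j =
    if j = e then (-1 : ℤ) ^ c else 0 := by
  have h : (-1 : Polynomial ℤ) ^ c = Polynomial.C ((-1 : ℤ) ^ c) := by simp
  rw [h, Polynomial.coeff_C_mul, Polynomial.coeff_X_pow]
  split_ifs <;> simp

theorem j13629_Q (n : ℕ) :
    (∀ j, n + 3 < j → (Polynomial.X ^ 3 *
      ∏ i ∈ Finset.Icc 1 n, (Polynomial.X - Polynomial.C (i : ℤ))).coeff j = 0) ∧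
    (Polynomial.X ^ 3 *
      ∏ i ∈ Finset.Icc 1 n, (Polynomial.X - Polynomial.C (i : ℤ))).coeff (n + 3) = 1 ∧
    2 * (Polynomial.X ^ 3 *
      ∏ i ∈ Finset.Icc 1 n, (Polynomial.X - Polynomial.C (i : ℤ))).coeff (n + 2) =
      -((n : ℤ) * (n + 1)) ∧
    24 * (Polynomial.X ^ 3 *
      ∏ i ∈ Finset.Icc 1 n, (Polynomial.X - Polynomial.C (i : ℤ))).coeff (n + 1) =
      ((n : ℤ) - 1) * n * (n + 1) * (3 * n + 2) ∧
    48 * (Polynomial.X ^ 3 *
      ∏ i ∈ Finset.Icc 1 n, (Polynomial.X - Polynomial.C (i : ℤ))).coeff n =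
      - ((n : ℤ) ^ 2 * (n + 1) ^ 2 * (n - 1) * (n - 2)) := by
  induction n with
  | zero =>
    simp only [Finset.Icc_eq_empty_of_lt Nat.zero_lt_one, Finset.prod_empty, mul_one,
      Polynomial.coeff_X_pow]
    refine ⟨?_, ?_, ?_, ?_, ?_⟩
    · intro j hj
      rw [if_neg (by omega)]
    · norm_num
    · norm_num
    · norm_num
    · norm_num
  | succ n ih =>
    obtain ⟨h0, h1, h2, h3, h4⟩ := ih
    rw [Finset.prod_Icc_succ_top (by omega), ← mul_assoc]
    set A : Polynomial ℤ := Polynomial.X ^ 3 *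
      ∏ i ∈ Finset.Icc 1 n, (Polynomial.X - Polynomial.C (i : ℤ)) with hA
    refine ⟨?_, ?_, ?_, ?_, ?_⟩
    · intro j hj
      obtain ⟨j, rfl⟩ : ∃ j', j = j' + 1 := ⟨j - 1, by omega⟩
      rw [Polynomial.coeff_mul_X_sub_C, h0 j (by omega), h0 (j + 1) (by omega)]
      ring
    · have e : n + 1 + 3 = (n + 3) + 1 := by ring
      rw [e, Polynomial.coeff_mul_X_sub_C, h1, h0 (n + 3 + 1) (by omega)]
      ring
    · have e : n + 1 + 2 = (n + 2) + 1 := by ring
      rw [e, Polynomial.coeff_mul_X_sub_C, h1]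
      push_cast
      linear_combination h2
    · rw [Polynomial.coeff_mul_X_sub_C]
      have e : n + 1 + 1 = n + 2 := by ring
      rw [e]
      push_cast
      linear_combination h3 - 12 * ((n : ℤ) + 1) * h2
    · rw [Polynomial.coeff_mul_X_sub_C]
      push_cast
      linear_combination h4 - 2 * ((n : ℤ) + 1) * h3

theorem j13629_P {α : Type} [Fintype α] [DecidableEq α] (r : Finset α → ℕ) (hr : IsRk r)
    (k : ℕ) (hk : k ≤ 3) :
    (Polynomial.X ^ 3 * ∑ X : Finset α, (-1 : Polynomial ℤ) ^ X.card *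
      Polynomial.X ^ (r Finset.univ - r X)).coeff (r univ + 3 - k) =
      ∑ X ∈ (univ : Finset (Finset α)).filter (fun X => r X = k), (-1 : ℤ) ^ X.card := by
  rw [Finset.mul_sum, Polynomial.finsetSum_coeff, Finset.sum_filter]
  refine Finset.sum_congr rfl fun X _ => ?_
  have e : Polynomial.X ^ 3 * ((-1 : Polynomial ℤ) ^ X.card *
      Polynomial.X ^ (r Finset.univ - r X)) =
      (-1 : Polynomial ℤ) ^ X.card * Polynomial.X ^ (r Finset.univ - r X + 3) := by
    rw [pow_add]; ring
  rw [e, j13629_term]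
  have hX : r X ≤ r univ := hr.mono _ _ (Finset.subset_univ X)
  have hiff : (r univ + 3 - k = r univ - r X + 3) ↔ r X = k := by omega
  simp only [hiff]

theorem j13629_P_high {α : Type} [Fintype α] [DecidableEq α] (r : Finset α → ℕ)
    (j : ℕ) (hj : r univ + 3 < j) :
    (Polynomial.X ^ 3 * ∑ X : Finset α, (-1 : Polynomial ℤ) ^ X.card *
      Polynomial.X ^ (r Finset.univ - r X)).coeff j = 0 := by
  rw [Finset.mul_sum, Polynomial.finsetSum_coeff]
  refine Finset.sum_eq_zero fun X _ => ?_
  have e : Polynomial.X ^ 3 * ((-1 : Polynomial ℤ) ^ X.card *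
      Polynomial.X ^ (r Finset.univ - r X)) =
      (-1 : Polynomial ℤ) ^ X.card * Polynomial.X ^ (r Finset.univ - r X + 3) := by
    rw [pow_add]; ring
  rw [e, j13629_term, if_neg]
  omega

theorem j13629_one {α : Type} [DecidableEq α] (r : Finset α → ℕ)
    (hs : ∀ a b : α, r {a, b} = ({a, b} : Finset α).card) (x : α) : r {x} = 1 := by
  have := hs x x
  simpa using this

theorem j13629_two {α : Type} [DecidableEq α] (r : Finset α → ℕ)
    (hs : ∀ a b : α, r {a, b} = ({a, b} : Finset α).card) {X : Finset α} (hX : X.card = 2) :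
    r X = 2 := by
  obtain ⟨a, b, hab, rfl⟩ := Finset.card_eq_two.1 hX
  rw [hs, hX]

/-- a set with at least two elements has rank at least two -/
theorem j13629_two_le {α : Type} [DecidableEq α] (r : Finset α → ℕ) (hr : IsRk r)
    (hs : ∀ a b : α, r {a, b} = ({a, b} : Finset α).card) {X : Finset α} (hX : 2 ≤ X.card) :
    2 ≤ r X := by
  obtain ⟨Y, hY, hYc⟩ := Finset.exists_subset_card_eq hX
  rw [← j13629_two r hs hYc]
  exact hr.mono _ _ hY

theorem j13629_zero_iff {α : Type} [DecidableEq α] (r : Finset α → ℕ) (hr : IsRk r)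
    (hs : ∀ a b : α, r {a, b} = ({a, b} : Finset α).card) (X : Finset α) :
    r X = 0 ↔ X = ∅ := by
  constructor
  · intro h
    by_contra hne
    obtain ⟨x, hx⟩ := Finset.nonempty_iff_ne_empty.2 hne
    have h1 := hr.mono {x} X (Finset.singleton_subset_iff.2 hx)
    rw [j13629_one r hs x] at h1
    omega
  · rintro rfl
    exact hr.empty

theorem j13629_one_iff {α : Type} [DecidableEq α] (r : Finset α → ℕ) (hr : IsRk r)
    (hs : ∀ a b : α, r {a, b} = ({a, b} : Finset α).card) (X : Finset α) :
    r X = 1 ↔ X.card = 1 := by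
  constructor
  · intro h
    have h1 : X.card ≠ 0 := by
      intro h0
      rw [Finset.card_eq_zero] at h0
      rw [h0, hr.empty] at h
      omega
    have h2 : ¬ 2 ≤ X.card := by
      intro h2
      have := j13629_two_le r hr hs h2
      omega
    omega
  · intro h
    obtain ⟨x, rfl⟩ := Finset.card_eq_one.1 h
    exact j13629_one r hs x

theorem j13629_two_iff {α : Type} [DecidableEq α] (r : Finset α → ℕ) (hr : IsRk r)
    (hs : ∀ a b : α, r {a, b} = ({a, b} : Finset α).card)
    (hl : ∀ t : Finset α, t.card = 3 → r t = 2 → ∀ y, y ∉ t → r (insert y t) = 3)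
    (X : Finset α) :
    r X = 2 ↔ (X.card = 2 ∨ (X.card = 3 ∧ r X = 2)) := by
  constructor
  · intro h
    have h1 : 2 ≤ X.card := by
      by_contra hlt
      have h0 : X.card = 0 ∨ X.card = 1 := by omega
      rcases h0 with h0 | h0
      · rw [Finset.card_eq_zero] at h0
        rw [h0, hr.empty] at h
        omega
      · have := (j13629_one_iff r hr hs X).2 h0
        omega
    have h2 : ¬ 4 ≤ X.card := by
      intro h4
      obtain ⟨t, ht, htc⟩ := Finset.exists_subset_card_eq (show 3 ≤ X.card by omega)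
      have h5 : 2 ≤ r t := j13629_two_le r hr hs (by omega)
      have h6 : r t ≤ 2 := by rw [← h]; exact hr.mono _ _ ht
      have hlt : t.card < X.card := by omega
      obtain ⟨y, hy, hyt⟩ := Finset.exists_mem_notMem_of_card_lt_card hlt
      have h7 := hl t htc (by omega) y hyt
      have h8 : r (insert y t) ≤ r X := hr.mono _ _ (Finset.insert_subset hy ht)
      omega
    have h3 : X.card = 2 ∨ X.card = 3 := by omega
    rcases h3 with h3 | h3
    · exact Or.inl h3
    · exact Or.inr ⟨h3, h⟩
  · rintro (h | h)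
    · exact j13629_two r hs h
    · exact h.2

/-- the numbers read off from the characteristic polynomial -/
theorem coeffs {α : Type} [Fintype α] [DecidableEq α] (n : ℕ) (hn : 1 ≤ n)
    (r : Finset α → ℕ) (hr : IsRk r)
    (hs : ∀ a b : α, r {a, b} = ({a, b} : Finset α).card)
    (hl : ∀ t : Finset α, t.card = 3 → r t = 2 → ∀ y, y ∉ t → r (insert y t) = 3)
    (hχ : (∑ X : Finset α, (-1 : Polynomial ℤ) ^ X.card * Polynomial.X ^ (r Finset.univ - r X))
        = ∏ i ∈ Finset.Icc 1 n, (Polynomial.X - Polynomial.C (i : ℤ))) :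
    r univ = n ∧ 2 * (Fintype.card α : ℤ) = n * (n + 1) ∧
    6 * ((tri r).card : ℤ) = (n + 1) * n * (n - 1) ∧
    48 * ∑ X ∈ (univ : Finset (Finset α)).filter (fun X => r X = 3), (-1 : ℤ) ^ X.card
      = - ((n : ℤ) ^ 2 * (n + 1) ^ 2 * (n - 1) * (n - 2)) := by
  classical
  obtain ⟨q0, q1, q2, q3, q4⟩ := j13629_Q n
  rw [← hχ] at q0 q1 q2 q3 q4
  have hS0 : ∑ X ∈ (univ : Finset (Finset α)).filter (fun X => r X = 0), (-1 : ℤ) ^ X.card = 1 := by
    have h1 : (univ : Finset (Finset α)).filter (fun X => r X = 0) = {∅} := by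
      ext X
      rw [Finset.mem_filter, Finset.mem_singleton, j13629_zero_iff r hr hs X]
      simp
    rw [h1, Finset.sum_singleton, Finset.card_empty, pow_zero]
  have hRn : r univ = n := by
    have p0 := j13629_P r hr 0 (by norm_num)
    rw [hS0, Nat.sub_zero] at p0
    rcases lt_trichotomy (r univ) n with h | h | h
    · have := j13629_P_high r (n + 3) (by omega)
      rw [q1] at this
      omega
    · exact h
    · have := q0 (r univ + 3) (by omega)
      rw [p0] at this
      omega
  have p1 := j13629_P r hr 1 (by norm_num)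
  have p2 := j13629_P r hr 2 (by norm_num)
  have p3 := j13629_P r hr 3 (by norm_num)
  rw [show r univ + 3 - 1 = n + 2 by omega] at p1
  rw [show r univ + 3 - 2 = n + 1 by omega] at p2
  rw [show r univ + 3 - 3 = n by omega] at p3
  rw [p1] at q2
  rw [p2] at q3
  rw [p3] at q4
  have hS1 : ∑ X ∈ (univ : Finset (Finset α)).filter (fun X => r X = 1), (-1 : ℤ) ^ X.card =
      -(Fintype.card α : ℤ) := by
    have h1 : (univ : Finset (Finset α)).filter (fun X => r X = 1) =
        (univ : Finset α).powersetCard 1 := by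
      ext X
      rw [Finset.mem_filter, Finset.mem_powersetCard, j13629_one_iff r hr hs X]
      simp
    rw [h1, Finset.sum_congr rfl (g := fun _ => (-1 : ℤ))]
    · rw [Finset.sum_const, Finset.card_powersetCard, Nat.choose_one_right, Finset.card_univ]
      simp
    · intro X hX
      rw [(Finset.mem_powersetCard.1 hX).2, pow_one]
  have hS2 : ∑ X ∈ (univ : Finset (Finset α)).filter (fun X => r X = 2), (-1 : ℤ) ^ X.card =
      ((Fintype.card α).choose 2 : ℤ) - (tri r).card := by
    have h1 : (univ : Finset (Finset α)).filter (fun X => r X = 2) =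
        (univ : Finset α).powersetCard 2 ∪ tri r := by
      ext X
      rw [Finset.mem_filter, Finset.mem_union, Finset.mem_powersetCard]
      unfold tri
      rw [Finset.mem_filter]
      have := j13629_two_iff r hr hs hl X
      constructor
      · rintro ⟨_, h⟩
        rcases this.1 h with h | h
        · exact Or.inl ⟨Finset.subset_univ _, h⟩
        · exact Or.inr ⟨Finset.mem_univ _, h⟩
      · rintro (h | h)
        · exact ⟨Finset.mem_univ _, this.2 (Or.inl h.2)⟩
        · exact ⟨Finset.mem_univ _, this.2 (Or.inr h.2)⟩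
    have hdisj : Disjoint ((univ : Finset α).powersetCard 2) (tri r) := by
      rw [Finset.disjoint_left]
      intro X hX hX'
      unfold tri at hX'
      rw [Finset.mem_filter] at hX'
      have := (Finset.mem_powersetCard.1 hX).2
      omega
    rw [h1, Finset.sum_union hdisj, Finset.sum_congr rfl (g := fun _ => (1 : ℤ)),
      Finset.sum_congr (s₁ := tri r) rfl (g := fun _ => (-1 : ℤ))]
    · rw [Finset.sum_const, Finset.sum_const, Finset.card_powersetCard, Finset.card_univ]
      simp
      ring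
    · intro X hX
      unfold tri at hX
      rw [Finset.mem_filter] at hX
      rw [hX.2.1]
      norm_num
    · intro X hX
      rw [(Finset.mem_powersetCard.1 hX).2]
      norm_num
  rw [hS1] at q2
  rw [hS2] at q3
  have hN : 2 * (Fintype.card α : ℤ) = n * (n + 1) := by linarith
  have hch : 2 * ((Fintype.card α).choose 2 : ℤ) =
      (Fintype.card α : ℤ) * ((Fintype.card α : ℤ) - 1) := by
    have h1 := Nat.choose_two_right (Fintype.card α)
    have h2 : 2 * (Fintype.card α).choose 2 = Fintype.card α * (Fintype.card α - 1) := by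
      rw [h1]
      exact Nat.mul_div_cancel' (Nat.even_mul_pred_self _).two_dvd
    rcases Nat.eq_zero_or_pos (Fintype.card α) with h3 | h3
    · rw [h3]; simp
    · have h4 : ((Fintype.card α - 1 : ℕ) : ℤ) = (Fintype.card α : ℤ) - 1 := by
        rw [Nat.cast_sub h3]; simp
      rw [← h4]
      exact_mod_cast h2
  refine ⟨hRn, hN, ?_, q4⟩
  have h24 : 24 * ((tri r).card : ℤ) = 4 * (((n : ℤ) + 1) * n * (n - 1)) := by
    have e1 : 24 * ((Fintype.card α).choose 2 : ℤ) =
        3 * (2 * (Fintype.card α : ℤ)) * (2 * (Fintype.card α : ℤ) - 2) := by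
      linear_combination 12 * hch
    rw [hN] at e1
    linear_combination e1 - q3
  linarith


end B6
end DC813
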