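import Pool.Agent.Helper813.DC.Defs
import Pool.Agent.Helper813.DC.B1
import Pool.Agent.Helper813.DC.B2
import Pool.Agent.Helper813.DC.B3
import Pool.Agent.Helper813.DC.B4
import Pool.Agent.Helper813.DC.B5
import Pool.Agent.Helper813.DC.B6

set_option autoImplicit false

namespace DC813
namespace B7
open Finset
open B1 B2 B3 B4 B5 B6



section T1aux
variable {α : Type} [DecidableEq α] {r : Finset α → ℕ}

theorem T1_cl_le (hr : IsRk r) {X Y : Finset α} {e : α} (hXY : X ⊆ Y)
    (h : r (insert e X) ≤ r X) : r (insert e Y) ≤ r Y := by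
  have h1 := hr.submod (insert e X) Y
  have h2 : insert e X ∪ Y = insert e Y := by
    rw [Finset.insert_union, Finset.union_eq_right.2 hXY]
  have h3 : r X ≤ r (insert e X ∩ Y) :=
    hr.mono _ _ (Finset.subset_inter (Finset.subset_insert _ _) hXY)
  rw [h2] at h1
  omega

theorem T1_flat_mem (hr : IsRk r) {F X : Finset α} {e : α} (hF : Flat r F) (hX : X ⊆ F)
    (h : r (insert e X) ≤ r X) : e ∈ F := by
  by_contra he
  have h1 := hF e he
  have h2 := T1_cl_le hr hX h
  omega

theorem T1_pair (hs : ∀ a b : α, r {a, b} = ({a, b} : Finset α).card) {a b : α} (h : a ≠ b) :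
    r {a, b} = 2 := by
  rw [hs, Finset.card_pair h]

theorem T1_pair_le (hr : IsRk r) (hs : ∀ a b : α, r {a, b} = ({a, b} : Finset α).card)
    {t : Finset α} (ht : r t ≤ 2) {p q e : α} (hp : p ∈ t) (hq : q ∈ t) (he : e ∈ t)
    (hpq : p ≠ q) : r (insert e {p, q}) ≤ r {p, q} := by
  rw [T1_pair hs hpq]
  refine (hr.mono _ t ?_).trans ht
  intro z hz
  rw [Finset.mem_insert, Finset.mem_insert, Finset.mem_singleton] at hz
  rcases hz with rfl | rfl | rfl <;> assumption

theorem T1_flat_line (hr : IsRk r) (hs : ∀ a b : α, r {a, b} = ({a, b} : Finset α).card)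
    {F t : Finset α} (hF : Flat r F) (ht : r t ≤ 2) {p q e : α} (hp : p ∈ t) (hq : q ∈ t)
    (he : e ∈ t) (hpq : p ≠ q) (hpF : p ∈ F) (hqF : q ∈ F) : e ∈ F := by
  refine T1_flat_mem hr hF (X := {p, q}) ?_ (T1_pair_le hr hs ht hp hq he hpq)
  intro z hz
  rw [Finset.mem_insert, Finset.mem_singleton] at hz
  rcases hz with rfl | rfl <;> assumption

theorem T1_rk_le_card (hr : IsRk r) (X : Finset α) : r X ≤ X.card := by
  induction X using Finset.induction_on with
  | empty => rw [hr.empty]; exact Nat.zero_le _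
  | insert e X he ih =>
    rw [Finset.card_insert_of_notMem he]
    exact (hr.insert_le X e).trans (by omega)

theorem T1_share (hr : IsRk r) (hs : ∀ a b : α, r {a, b} = ({a, b} : Finset α).card)
    (hl : ∀ t : Finset α, t.card = 3 → r t = 2 → ∀ y, y ∉ t → r (insert y t) = 3)
    {t t' : Finset α} (ht : t.card = 3 ∧ r t = 2) (ht' : t'.card = 3 ∧ r t' = 2) {p q : α}
    (hpq : p ≠ q) (hp : p ∈ t) (hq : q ∈ t) (hp' : p ∈ t') (hq' : q ∈ t') : t' = t := by
  by_contra hne
  have hex : ∃ w ∈ t', w ∉ t := by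
    by_contra hcon
    push Not at hcon
    exact hne (Finset.eq_of_subset_of_card_le (fun w hw => hcon w hw) (by omega))
  obtain ⟨w, hw, hwt⟩ := hex
  have h1 := T1_pair_le hr hs ht'.2.le hp' hq' hw hpq
  have h2 : r (insert w t) ≤ r t := by
    refine T1_cl_le hr ?_ h1
    intro v hv
    rw [Finset.mem_insert, Finset.mem_singleton] at hv
    rcases hv with rfl | rfl <;> assumption
  have h3 := hl t ht.1 ht.2 w hwt
  omega

end T1aux

section T1aux2
variable {α : Type} [Fintype α] [DecidableEq α] {r : Finset α → ℕ}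

theorem T1_mem_tri {t : Finset α} : t ∈ tri r ↔ t.card = 3 ∧ r t = 2 := by
  unfold tri
  rw [Finset.mem_filter]
  exact ⟨fun h => h.2, fun h => ⟨Finset.mem_univ _, h⟩⟩

theorem T1_mem_trx {x : α} {t : Finset α} : t ∈ trx r x ↔ t ∈ tri r ∧ x ∈ t := by
  unfold trx
  rw [Finset.mem_filter]

theorem T1_mem_planes {P : Finset α} : P ∈ planes r ↔ r P = 3 ∧ Flat r P := by
  classical
  unfold planes
  rw [Finset.mem_filter]
  exact ⟨fun h => h.2, fun h => ⟨Finset.mem_univ _, h⟩⟩

/-- double counting of incidences -/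
theorem T1_count : ∑ x : α, (trx r x).card = 3 * (tri r).card := by
  have h1 : ∀ x : α, (trx r x).card = ∑ t ∈ tri r, if x ∈ t then 1 else 0 := by
    intro x
    unfold trx
    rw [Finset.card_filter]
  simp only [h1]
  rw [Finset.sum_comm]
  have h2 : ∀ t ∈ tri r, (∑ x : α, if x ∈ t then 1 else 0) = 3 := by
    intro t ht
    rw [Finset.sum_ite_mem, Finset.univ_inter, Finset.sum_const, smul_eq_mul, mul_one]
    exact (T1_mem_tri.1 ht).1
  rw [Finset.sum_congr rfl h2, Finset.sum_const, smul_eq_mul, mul_comm]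

/-- the number of triangles through a point -/
theorem T1_deg (n : ℕ) (hn : 1 ≤ n) (hr : IsRk r)
    (hind : ∀ x : α, ∀ T : Finset (Finset α), T ⊆ trx r x →
      r (insert x (T.biUnion id)) = T.card + 1)
    (hrk : r univ = n)
    (hN : 2 * (Fintype.card α : ℤ) = n * (n + 1))
    (hT : 6 * ((tri r).card : ℤ) = (n + 1) * n * (n - 1)) (x : α) :
    ((trx r x).card : ℤ) = n - 1 := by
  have h1 : ∀ x : α, 0 ≤ (n : ℤ) - 1 - (trx r x).card := by
    intro x
    have h2 := hind x (trx r x) (Finset.Subset.refl _)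
    have h3 : r (insert x ((trx r x).biUnion id)) ≤ r univ := hr.mono _ _ (Finset.subset_univ _)
    have h4 : (trx r x).card + 1 ≤ n := by omega
    omega
  have h2 : ∑ x : α, ((n : ℤ) - 1 - (trx r x).card) = 0 := by
    rw [Finset.sum_sub_distrib, Finset.sum_const, Finset.card_univ, nsmul_eq_mul]
    have h3 : (∑ x : α, ((trx r x).card : ℤ)) = 3 * (tri r).card := by
      exact_mod_cast (T1_count (r := r))
    rw [h3]
    have h4 : 2 * ((Fintype.card α : ℤ) * ((n : ℤ) - 1) - 3 * (tri r).card) = 0 := by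
      linear_combination ((n : ℤ) - 1) * hN - hT
    omega
  have h3 := (Finset.sum_eq_zero_iff_of_nonneg (fun x _ => h1 x)).1 h2 x (Finset.mem_univ _)
  omega

/-- planes containing two triangles with a common point -/
theorem T1_plane (n : ℕ) (hn : 1 ≤ n) (hr : IsRk r)
    (hs : ∀ a b : α, r {a, b} = ({a, b} : Finset α).card) (hc : Crit r)
    (hl : ∀ t : Finset α, t.card = 3 → r t = 2 → ∀ y, y ∉ t → r (insert y t) = 3)
    (hN : 2 * (Fintype.card α : ℤ) = n * (n + 1))
    (hT : 6 * ((tri r).card : ℤ) = (n + 1) * n * (n - 1))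
    (hw3 : 48 * ∑ X ∈ (univ : Finset (Finset α)).filter (fun X => r X = 3), (-1 : ℤ) ^ X.card
      = - (n ^ 2 * (n + 1) ^ 2 * (n - 1) * (n - 2)))
    (hd : ∀ x : α, ((trx r x).card : ℤ) = n - 1) {P : Finset α} (hP : P ∈ planes r)
    {t t' : Finset α} (ht : t ∈ tri r) (htP : t ⊆ P) (ht' : t' ∈ tri r) (htP' : t' ⊆ P)
    (hne : t ≠ t') (hnn : (t ∩ t').Nonempty) :
    P.card = 6 ∧ ((tri r).filter (fun t => t ⊆ P)).card = 4 ∧
      ∀ x ∈ P, (((tri r).filter (fun t => t ⊆ P)).filter (fun t => x ∈ t)).card = 2 := by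
  have key : ∀ P ∈ planes r, _ := fun P hP =>
    plane_ineq P ((tri r).filter (fun t => t ⊆ P))
      (by
        have h1 := (T1_mem_planes.1 hP).1
        have h2 := T1_rk_le_card hr P
        omega)
      (plane6 r hr hs hc hl P (T1_mem_planes.1 hP).2 (T1_mem_planes.1 hP).1)
      (fun t ht => ⟨(T1_mem_tri.1 (Finset.mem_filter.1 ht).1).1, (Finset.mem_filter.1 ht).2⟩)
      (fun t ht t' ht' hne => by
        by_contra hcon
        push Not at hcon
        obtain ⟨p, hp, q, hq, hpq⟩ := Finset.one_lt_card.1 hcon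
        rw [Finset.mem_inter] at hp hq
        exact hne (T1_share hr hs hl (T1_mem_tri.1 (Finset.mem_filter.1 ht).1)
          (T1_mem_tri.1 (Finset.mem_filter.1 ht').1) hpq hp.1 hq.1 hp.2 hq.2).symm)
  have hsum := sum_planes n hn r hr hs hl hN hT hw3 hd
  have hz := (Finset.sum_eq_zero_iff_of_nonneg (fun P hP => (key P hP).1)).1 hsum P hP
  exact (key P hP).2 hz t (Finset.mem_filter.2 ⟨ht, htP⟩) t' (Finset.mem_filter.2 ⟨ht', htP'⟩)
    hne hnn

/-- the closure of a set of rank three is a plane -/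
theorem T1_closure (hr : IsRk r) {U : Finset α} (hU : r U = 3) :
    ∃ P ∈ planes r, U ⊆ P := by
  classical
  obtain ⟨P, hPdef⟩ : ∃ P : Finset α, P = univ.filter (fun y => r (insert y U) = r U) :=
    ⟨_, rfl⟩
  have hmem : ∀ y, y ∈ P ↔ r (insert y U) = r U := by
    intro y
    rw [hPdef, Finset.mem_filter]
    exact ⟨fun h => h.2, fun h => ⟨Finset.mem_univ _, h⟩⟩
  have hUP : U ⊆ P := by
    intro y hy
    rw [hmem, Finset.insert_eq_of_mem hy]
  have hcl : ∀ S : Finset α, S ⊆ P → r (U ∪ S) = r U := by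
    intro S
    induction S using Finset.induction_on with
    | empty => intro _; rw [Finset.union_empty]
    | insert e S he ih =>
      intro hS
      have h1 := ih ((Finset.subset_insert _ _).trans hS)
      have h2 : r (insert e U) ≤ r U := ((hmem e).1 (hS (Finset.mem_insert_self _ _))).le
      have h3 := T1_cl_le hr (Finset.subset_union_left (s₂ := S)) h2
      rw [Finset.union_insert]
      have h4 : r (U ∪ S) ≤ r (insert e (U ∪ S)) := hr.mono _ _ (Finset.subset_insert _ _)
      omega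
  have hrP : r P = 3 := by
    have h1 := hcl P (Finset.Subset.refl _)
    rw [Finset.union_eq_right.2 hUP] at h1
    omega
  refine ⟨P, T1_mem_planes.2 ⟨hrP, ?_⟩, hUP⟩
  intro e he
  by_contra hcon
  push Not at hcon
  refine he ((hmem e).2 ?_)
  have h1 : r (insert e U) ≤ r (insert e P) := hr.mono _ _ (Finset.insert_subset_insert _ hUP)
  have h2 : r U ≤ r (insert e U) := hr.mono _ _ (Finset.subset_insert _ _)
  omega

omit [Fintype α] in
theorem T1_nm {x p q s : α} (h1 : x ≠ p) (h2 : x ≠ q) (h3 : x ≠ s) :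
    x ∉ ({p, q, s} : Finset α) := by
  simp [h1, h2, h3]

omit [Fintype α] in
theorem T1_rot (f u v : α) : insert f ({u, v} : Finset α) = {u, v, f} := by
  ext z
  simp only [Finset.mem_insert, Finset.mem_singleton]
  tauto

omit [Fintype α] in
theorem T1_card5 {e a b c d : α} (hea : e ≠ a) (heb : e ≠ b) (hec : e ≠ c) (hed : e ≠ d)
    (hab : a ≠ b) (hac : a ≠ c) (had : a ≠ d) (hbc : b ≠ c) (hbd : b ≠ d) (hcd : c ≠ d) :
    ({e, a, b, c, d} : Finset α).card = 5 := by
  rw [Finset.card_insert_of_notMem, Finset.card_insert_of_notMem, Finset.card_insert_of_notMem,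
    Finset.card_pair hcd]
  · simp [hbc, hbd]
  · simp [hab, hac, had]
  · simp [hea, heb, hec, hed]

omit [Fintype α] in
theorem T1_card3 {e a b : α} (h : ({e, a, b} : Finset α).card = 3) : e ≠ a ∧ e ≠ b ∧ a ≠ b := by
  refine ⟨?_, ?_, ?_⟩
  · rintro rfl
    have h1 : ({e, e, b} : Finset α) = {e, b} := by simp
    rw [h1] at h
    have := Finset.card_le_two (a := e) (b := b)
    omega
  · rintro rfl
    have h1 : ({e, a, e} : Finset α) = {a, e} := by
      ext x; simp only [Finset.mem_insert, Finset.mem_singleton]; tauto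
    rw [h1] at h
    have := Finset.card_le_two (a := a) (b := e)
    omega
  · rintro rfl
    have h1 : ({e, a, a} : Finset α) = {e, a} := by simp
    rw [h1] at h
    have := Finset.card_le_two (a := e) (b := a)
    omega

/-- the configuration of two triangles with a common point -/
theorem T1_K (n : ℕ) (hn : 1 ≤ n) (hr : IsRk r)
    (hs : ∀ a b : α, r {a, b} = ({a, b} : Finset α).card) (hc : Crit r)
    (hl : ∀ t : Finset α, t.card = 3 → r t = 2 → ∀ y, y ∉ t → r (insert y t) = 3)
    (hN : 2 * (Fintype.card α : ℤ) = n * (n + 1))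
    (hT : 6 * ((tri r).card : ℤ) = (n + 1) * n * (n - 1))
    (hw3 : 48 * ∑ X ∈ (univ : Finset (Finset α)).filter (fun X => r X = 3), (-1 : ℤ) ^ X.card
      = - (n ^ 2 * (n + 1) ^ 2 * (n - 1) * (n - 2)))
    (hd : ∀ x : α, ((trx r x).card : ℤ) = n - 1)
    (e a b c d : α) (h1 : ({e, a, b} : Finset α) ∈ tri r) (h2 : ({e, c, d} : Finset α) ∈ tri r)
    (hne : ({e, a, b} : Finset α) ≠ {e, c, d}) :
    ∃ f, (({a, c, f} : Finset α) ∈ tri r ∧ ({b, d, f} : Finset α) ∈ tri r ∧
              ∀ g, ({a, d, g} : Finset α) ∉ tri r ∧ ({b, c, g} : Finset α) ∉ tri r) ∨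
           (({a, d, f} : Finset α) ∈ tri r ∧ ({b, c, f} : Finset α) ∈ tri r ∧
              ∀ g, ({a, c, g} : Finset α) ∉ tri r ∧ ({b, d, g} : Finset α) ∉ tri r) := by
  have h1' := T1_mem_tri.1 h1
  have h2' := T1_mem_tri.1 h2
  obtain ⟨hea, heb, hab⟩ := T1_card3 h1'.1
  obtain ⟨hec, hed, hcd⟩ := T1_card3 h2'.1
  -- two triangles with two common points are equal
  have share : ∀ {t t' : Finset α} {p q : α}, t ∈ tri r → t' ∈ tri r → p ≠ q → p ∈ t → q ∈ t →
      p ∈ t' → q ∈ t' → t = t' := by
    intro t t' p q ht ht' hpq hp hq hp' hq'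
    exact (T1_share hr hs hl (T1_mem_tri.1 ht) (T1_mem_tri.1 ht') hpq hp hq hp' hq').symm
  have hac : a ≠ c := by
    rintro rfl
    exact hne (share h1 h2 hea (by simp) (by simp) (by simp) (by simp))
  have had : a ≠ d := by
    rintro rfl
    exact hne (share h1 h2 hea (by simp) (by simp) (by simp) (by simp))
  have hbc : b ≠ c := by
    rintro rfl
    exact hne (share h1 h2 heb (by simp) (by simp) (by simp) (by simp))
  have hbd : b ≠ d := by
    rintro rfl
    exact hne (share h1 h2 heb (by simp) (by simp) (by simp) (by simp))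
  -- the plane
  have hU : r ({e, a, b} ∪ {e, c, d}) = 3 := by
    have k1 := hr.submod {e, a, b} {e, c, d}
    have k2 : 1 ≤ r ({e, a, b} ∩ {e, c, d}) := by
      have k3 : r {e} = 1 := by simpa using hs e e
      rw [← k3]
      refine hr.mono _ _ ?_
      intro z hz
      rw [Finset.mem_singleton] at hz
      subst hz
      simp
    have k4 : r (insert c {e, a, b}) = 3 :=
      hl _ h1'.1 h1'.2 c (T1_nm hec.symm hac.symm hbc.symm)
    have k5 : r (insert c {e, a, b}) ≤ r ({e, a, b} ∪ {e, c, d}) := by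
      exact hr.mono _ _ (Finset.insert_subset (Finset.mem_union_right _ (by simp))
        Finset.subset_union_left)
    omega
  obtain ⟨P, hP, hUP⟩ := T1_closure hr hU
  have hPf := (T1_mem_planes.1 hP).2
  have htP1 : ({e, a, b} : Finset α) ⊆ P := Finset.subset_union_left.trans hUP
  have htP2 : ({e, c, d} : Finset α) ⊆ P := Finset.subset_union_right.trans hUP
  obtain ⟨hP6, -, hdeg⟩ := T1_plane n hn hr hs hc hl hN hT hw3 hd hP h1 htP1 h2 htP2 hne
    ⟨e, by simp⟩
  have he : e ∈ P := htP1 (by simp)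
  have ha : a ∈ P := htP1 (by simp)
  have hb : b ∈ P := htP1 (by simp)
  have hcm : c ∈ P := htP2 (by simp)
  have hdm : d ∈ P := htP2 (by simp)
  -- the members of the plane through a point
  have thr : ∀ {x : α} {t t' t'' : Finset α}, x ∈ P → t ∈ tri r → t ⊆ P → x ∈ t → t' ∈ tri r →
      t' ⊆ P → x ∈ t' → t'' ∈ tri r → t'' ⊆ P → x ∈ t'' → t ≠ t' → t'' = t ∨ t'' = t' := by
    intro x t t' t'' hx ht htP hxt ht' htP' hxt' ht'' htP'' hxt'' hne'
    by_contra hcon
    push Not at hcon
    have k1 : ({t, t', t''} : Finset (Finset α)) ⊆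
        ((tri r).filter (fun t => t ⊆ P)).filter (fun t => x ∈ t) := by
      intro z hz
      rw [Finset.mem_insert, Finset.mem_insert, Finset.mem_singleton] at hz
      rw [Finset.mem_filter, Finset.mem_filter]
      rcases hz with rfl | rfl | rfl
      · exact ⟨⟨ht, htP⟩, hxt⟩
      · exact ⟨⟨ht', htP'⟩, hxt'⟩
      · exact ⟨⟨ht'', htP''⟩, hxt''⟩
    have k2 := Finset.card_le_card k1
    rw [hdeg x hx, Finset.card_eq_three.2 ⟨t, t', t'', hne', hcon.1.symm, hcon.2.symm, rfl⟩] at k2
    omega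
  -- the sixth point
  have h5 : ({e, a, b, c, d} : Finset α).card = 5 :=
    T1_card5 hea heb hec hed hab hac had hbc hbd hcd
  have h5P : ({e, a, b, c, d} : Finset α) ⊆ P := by
    intro z hz
    simp only [Finset.mem_insert, Finset.mem_singleton] at hz
    rcases hz with rfl | rfl | rfl | rfl | rfl <;> assumption
  have hdiff : (P \ {e, a, b, c, d}).card = 1 := by
    have := Finset.card_sdiff_add_card_eq_card h5P
    omega
  obtain ⟨f, hf⟩ := Finset.card_eq_one.1 hdiff
  have hfm : f ∈ P \ {e, a, b, c, d} := by rw [hf]; simp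
  rw [Finset.mem_sdiff] at hfm
  obtain ⟨hfP, hfn⟩ := hfm
  simp only [Finset.mem_insert, Finset.mem_singleton, not_or] at hfn
  obtain ⟨hfe, hfa, hfb, hfc, hfd⟩ := hfn
  have hPcov : ∀ z ∈ P, z = e ∨ z = a ∨ z = b ∨ z = c ∨ z = d ∨ z = f := by
    intro z hz
    by_cases hz5 : z ∈ ({e, a, b, c, d} : Finset α)
    · simp only [Finset.mem_insert, Finset.mem_singleton] at hz5
      rcases hz5 with k | k | k | k | k
      · exact Or.inl k
      · exact Or.inr (Or.inl k)
      · exact Or.inr (Or.inr (Or.inl k))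
      · exact Or.inr (Or.inr (Or.inr (Or.inl k)))
      · exact Or.inr (Or.inr (Or.inr (Or.inr (Or.inl k))))
    · have : z ∈ P \ {e, a, b, c, d} := Finset.mem_sdiff.2 ⟨hz, hz5⟩
      rw [hf, Finset.mem_singleton] at this
      exact Or.inr (Or.inr (Or.inr (Or.inr (Or.inr this))))
  -- the members through the sixth point
  have form : ∀ t ∈ tri r, t ⊆ P → f ∈ t →
      t = {a, c, f} ∨ t = {a, d, f} ∨ t = {b, c, f} ∨ t = {b, d, f} := by
    intro t ht htP hft
    have n1 : t ≠ {e, a, b} := by
      rintro rfl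
      exact T1_nm hfe hfa hfb hft
    have n2 : t ≠ {e, c, d} := by
      rintro rfl
      exact T1_nm hfe hfc hfd hft
    have n3 : e ∉ t := by
      intro het
      rcases thr he h1 htP1 (by simp) h2 htP2 (by simp) ht htP het hne with k | k
      · exact n1 k
      · exact n2 k
    have n4 : ¬ (a ∈ t ∧ b ∈ t) := fun k =>
      n1 (share ht h1 hab k.1 k.2 (by simp) (by simp))
    have n5 : ¬ (c ∈ t ∧ d ∈ t) := fun k =>
      n2 (share ht h2 hcd k.1 k.2 (by simp) (by simp))
    have k1 : (t.erase f).card = 2 := by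
      rw [Finset.card_erase_of_mem hft, (T1_mem_tri.1 ht).1]
    obtain ⟨u, v, huv, heq⟩ := Finset.card_eq_two.1 k1
    have hu : u ∈ t.erase f := by rw [heq]; simp
    have hv : v ∈ t.erase f := by rw [heq]; simp
    rw [Finset.mem_erase] at hu hv
    have hteq : t = {u, v, f} := by
      rw [← Finset.insert_erase hft, heq]
      exact T1_rot f u v
    have hu' : u = a ∨ u = b ∨ u = c ∨ u = d := by
      rcases hPcov u (htP hu.2) with k | k | k | k | k | k
      · exact absurd (k ▸ hu.2) n3
      · exact Or.inl k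
      · exact Or.inr (Or.inl k)
      · exact Or.inr (Or.inr (Or.inl k))
      · exact Or.inr (Or.inr (Or.inr k))
      · exact absurd k hu.1
    have hv' : v = a ∨ v = b ∨ v = c ∨ v = d := by
      rcases hPcov v (htP hv.2) with k | k | k | k | k | k
      · exact absurd (k ▸ hv.2) n3
      · exact Or.inl k
      · exact Or.inr (Or.inl k)
      · exact Or.inr (Or.inr (Or.inl k))
      · exact Or.inr (Or.inr (Or.inr k))
      · exact absurd k hv.1
    have hswap : ∀ p q : α, ({p, q, f} : Finset α) = {q, p, f} := fun p q =>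
      Finset.insert_comm p q {f}
    rcases hu' with rfl | rfl | rfl | rfl <;> rcases hv' with rfl | rfl | rfl | rfl
    · exact absurd rfl huv
    · exact absurd ⟨hu.2, hv.2⟩ n4
    · exact Or.inl hteq
    · exact Or.inr (Or.inl hteq)
    · exact absurd ⟨hv.2, hu.2⟩ n4
    · exact absurd rfl huv
    · exact Or.inr (Or.inr (Or.inl hteq))
    · exact Or.inr (Or.inr (Or.inr hteq))
    · rw [hswap] at hteq; exact Or.inl hteq
    · rw [hswap] at hteq; exact Or.inr (Or.inr (Or.inl hteq))
    · exact absurd rfl huv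
    · exact absurd ⟨hu.2, hv.2⟩ n5
    · rw [hswap] at hteq; exact Or.inr (Or.inl hteq)
    · rw [hswap] at hteq; exact Or.inr (Or.inr (Or.inr hteq))
    · exact absurd ⟨hv.2, hu.2⟩ n5
    · exact absurd rfl huv
  obtain ⟨t3, t4, h34, h34eq⟩ := Finset.card_eq_two.1 (hdeg f hfP)
  have m3 : t3 ∈ ((tri r).filter (fun t => t ⊆ P)).filter (fun t => f ∈ t) := by
    rw [h34eq]; simp
  have m4 : t4 ∈ ((tri r).filter (fun t => t ⊆ P)).filter (fun t => f ∈ t) := by
    rw [h34eq]; simp
  rw [Finset.mem_filter, Finset.mem_filter] at m3 m4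
  obtain ⟨⟨m31, m32⟩, m33⟩ := m3
  obtain ⟨⟨m41, m42⟩, m43⟩ := m4
  have sh : ∀ {p : α}, p ≠ f → p ∈ t3 → p ∈ t4 → False := by
    intro p hp h3 h4
    exact h34 (share m31 m41 hp h3 m33 h4 m43)
  -- the final alternative
  have fin1 : ({a, c, f} : Finset α) ∈ tri r → ({b, d, f} : Finset α) ∈ tri r →
      ∀ g, ({a, d, g} : Finset α) ∉ tri r ∧ ({b, c, g} : Finset α) ∉ tri r := by
    intro q1 q2 g
    have q1P : ({a, c, f} : Finset α) ⊆ P := by
      intro z hz
      simp only [Finset.mem_insert, Finset.mem_singleton] at hz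
      rcases hz with rfl | rfl | rfl <;> assumption
    have q2P : ({b, d, f} : Finset α) ⊆ P := by
      intro z hz
      simp only [Finset.mem_insert, Finset.mem_singleton] at hz
      rcases hz with rfl | rfl | rfl <;> assumption
    constructor
    · intro q3
      have q3P : ({a, d, g} : Finset α) ⊆ P := fun z hz =>
        T1_flat_line hr hs hPf (T1_mem_tri.1 q3).2.le (by simp) (by simp) hz had ha hdm
      rcases thr ha h1 htP1 (by simp) q1 q1P (by simp) q3 q3P (by simp) (by
        intro k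
        have : f ∈ ({e, a, b} : Finset α) := by rw [k]; simp
        exact T1_nm hfe hfa hfb this) with k | k
      · have : d ∈ ({e, a, b} : Finset α) := by rw [← k]; simp
        exact T1_nm hed.symm had.symm hbd.symm this
      · have : d ∈ ({a, c, f} : Finset α) := by rw [← k]; simp
        exact T1_nm had.symm hcd.symm (Ne.symm hfd) this
    · intro q3
      have q3P : ({b, c, g} : Finset α) ⊆ P := fun z hz =>
        T1_flat_line hr hs hPf (T1_mem_tri.1 q3).2.le (by simp) (by simp) hz hbc hb hcm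
      rcases thr hb h1 htP1 (by simp) q2 q2P (by simp) q3 q3P (by simp) (by
        intro k
        have : f ∈ ({e, a, b} : Finset α) := by rw [k]; simp
        exact T1_nm hfe hfa hfb this) with k | k
      · have : c ∈ ({e, a, b} : Finset α) := by rw [← k]; simp
        exact T1_nm hec.symm hac.symm hbc.symm this
      · have : c ∈ ({b, d, f} : Finset α) := by rw [← k]; simp
        exact T1_nm hbc.symm hcd (Ne.symm hfc) this
  have fin2 : ({a, d, f} : Finset α) ∈ tri r → ({b, c, f} : Finset α) ∈ tri r →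
      ∀ g, ({a, c, g} : Finset α) ∉ tri r ∧ ({b, d, g} : Finset α) ∉ tri r := by
    intro q1 q2 g
    have q1P : ({a, d, f} : Finset α) ⊆ P := by
      intro z hz
      simp only [Finset.mem_insert, Finset.mem_singleton] at hz
      rcases hz with rfl | rfl | rfl <;> assumption
    have q2P : ({b, c, f} : Finset α) ⊆ P := by
      intro z hz
      simp only [Finset.mem_insert, Finset.mem_singleton] at hz
      rcases hz with rfl | rfl | rfl <;> assumption
    constructor
    · intro q3
      have q3P : ({a, c, g} : Finset α) ⊆ P := fun z hz =>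
        T1_flat_line hr hs hPf (T1_mem_tri.1 q3).2.le (by simp) (by simp) hz hac ha hcm
      rcases thr ha h1 htP1 (by simp) q1 q1P (by simp) q3 q3P (by simp) (by
        intro k
        have : f ∈ ({e, a, b} : Finset α) := by rw [k]; simp
        exact T1_nm hfe hfa hfb this) with k | k
      · have : c ∈ ({e, a, b} : Finset α) := by rw [← k]; simp
        exact T1_nm hec.symm hac.symm hbc.symm this
      · have : c ∈ ({a, d, f} : Finset α) := by rw [← k]; simp
        exact T1_nm hac.symm hcd (Ne.symm hfc) this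
    · intro q3
      have q3P : ({b, d, g} : Finset α) ⊆ P := fun z hz =>
        T1_flat_line hr hs hPf (T1_mem_tri.1 q3).2.le (by simp) (by simp) hz hbd hb hdm
      rcases thr hb h1 htP1 (by simp) q2 q2P (by simp) q3 q3P (by simp) (by
        intro k
        have : f ∈ ({e, a, b} : Finset α) := by rw [k]; simp
        exact T1_nm hfe hfa hfb this) with k | k
      · have : d ∈ ({e, a, b} : Finset α) := by rw [← k]; simp
        exact T1_nm hed.symm had.symm hbd.symm this
      · have : d ∈ ({b, c, f} : Finset α) := by rw [← k]; simp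
        exact T1_nm hbd.symm hcd.symm (Ne.symm hfd) this
  refine ⟨f, ?_⟩
  rcases form t3 m31 m32 m33 with k3 | k3 | k3 | k3 <;>
    rcases form t4 m41 m42 m43 with k4 | k4 | k4 | k4
  · exact absurd (k3.trans k4.symm) h34
  · exact (sh (p := a) (Ne.symm hfa) (by rw [k3]; simp) (by rw [k4]; simp)).elim
  · exact (sh (p := c) (Ne.symm hfc) (by rw [k3]; simp) (by rw [k4]; simp)).elim
  · rw [k3] at m31; rw [k4] at m41
    exact Or.inl ⟨m31, m41, fin1 m31 m41⟩
  · exact (sh (p := a) (Ne.symm hfa) (by rw [k3]; simp) (by rw [k4]; simp)).elim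
  · exact absurd (k3.trans k4.symm) h34
  · rw [k3] at m31; rw [k4] at m41
    exact Or.inr ⟨m31, m41, fin2 m31 m41⟩
  · exact (sh (p := d) (Ne.symm hfd) (by rw [k3]; simp) (by rw [k4]; simp)).elim
  · exact (sh (p := c) (Ne.symm hfc) (by rw [k3]; simp) (by rw [k4]; simp)).elim
  · rw [k3] at m31; rw [k4] at m41
    exact Or.inr ⟨m41, m31, fin2 m41 m31⟩
  · exact absurd (k3.trans k4.symm) h34
  · exact (sh (p := b) (Ne.symm hfb) (by rw [k3]; simp) (by rw [k4]; simp)).elim
  · rw [k3] at m31; rw [k4] at m41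
    exact Or.inl ⟨m41, m31, fin1 m41 m31⟩
  · exact (sh (p := d) (Ne.symm hfd) (by rw [k3]; simp) (by rw [k4]; simp)).elim
  · exact (sh (p := b) (Ne.symm hfb) (by rw [k3]; simp) (by rw [k4]; simp)).elim
  · exact absurd (k3.trans k4.symm) h34

end T1aux2

/-- a critical matroid with the characteristic polynomial of `M(K_{n+1})` is `M(K_{n+1})` -/
theorem T1 {α : Type} [Fintype α] [DecidableEq α] (n : ℕ) (hn : 1 ≤ n)
    (r : Finset α → ℕ) (hr : IsRk r)
    (hs : ∀ a b : α, r {a, b} = ({a, b} : Finset α).card) (hc : Crit r)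
    (hχ : (∑ X : Finset α, (-1 : Polynomial ℤ) ^ X.card * Polynomial.X ^ (r Finset.univ - r X))
        = ∏ i ∈ Finset.Icc 1 n, (Polynomial.X - Polynomial.C (i : ℤ))) :
    ∃ e : α ≃ {s : Sym2 (Fin (n + 1)) // ¬ s.IsDiag}, ∀ I : Finset α, r I = I.card ↔
      (SimpleGraph.fromEdgeSet (Subtype.val '' (e '' (I : Set α)))).IsAcyclic := by
  have hl := line3 r hr hs hc
  obtain ⟨hrk, hN, hT, hw3⟩ := coeffs n hn r hr hs hl hχ
  have hind := tri_indep r hr hs hc hl
  have hd := T1_deg n hn hr hind hrk hN hT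
  obtain ⟨e, he⟩ := struct n hn r hr hs hl hrk hN hd hind
    (T1_K n hn hr hs hc hl hN hT hw3 hd)
  exact ⟨e, graph_iso n r hr hrk e he hs⟩


end B7
end DC813
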