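import Mathlib

set_option autoImplicit false

namespace DC813

open Finset

/-- rank function of a matroid on `α` (finite sets) -/
structure IsRk {α : Type} [DecidableEq α] (r : Finset α → ℕ) : Prop where
  empty : r ∅ = 0
  mono : ∀ X Y : Finset α, X ⊆ Y → r X ≤ r Y
  insert_le : ∀ (X : Finset α) (e : α), r (insert e X) ≤ r X + 1
  submod : ∀ X Y : Finset α, r (X ∪ Y) + r (X ∩ Y) ≤ r X + r Y

/-- flats -/
def Flat {α : Type} [DecidableEq α] (r : Finset α → ℕ) (F : Finset α) : Prop :=
  ∀ e, e ∉ F → r F < r (insert e F)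

/-- every deletion `E \ x` is covered by two flats avoiding `x` -/
def Crit {α : Type} [DecidableEq α] (r : Finset α → ℕ) : Prop :=
  ∀ x : α, ∃ F₁ F₂ : Finset α, Flat r F₁ ∧ Flat r F₂ ∧ x ∉ F₁ ∧ x ∉ F₂ ∧
    ∀ y, y ≠ x → y ∈ F₁ ∨ y ∈ F₂

open Classical in
/-- three point sets of rank two -/
noncomputable def tri {α : Type} [Fintype α] [DecidableEq α] (r : Finset α → ℕ) :
    Finset (Finset α) := univ.filter (fun t => t.card = 3 ∧ r t = 2)

open Classical in
/-- triangles through `x` -/
noncomputable def trx {α : Type} [Fintype α] [DecidableEq α] (r : Finset α → ℕ) (x : α) :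
    Finset (Finset α) := (tri r).filter (fun t => x ∈ t)

open Classical in
/-- rank three flats -/
noncomputable def planes {α : Type} [Fintype α] [DecidableEq α] (r : Finset α → ℕ) :
    Finset (Finset α) := univ.filter (fun P => r P = 3 ∧ Flat r P)

open Classical in
/-- unsigned Moebius invariant of the restriction of `r` to `E` -/
noncomputable def mu {α : Type} [DecidableEq α] (r : Finset α → ℕ) (E : Finset α) : ℤ :=
  (-1) ^ (r E) * ∑ X ∈ E.powerset.filter (fun X => r X = r E), (-1 : ℤ) ^ X.card

/-- beta invariant of the restriction of `r` to `E` -/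
noncomputable def beta {α : Type} [DecidableEq α] (r : Finset α → ℕ) (E : Finset α) : ℤ :=
  (-1) ^ (r E) * ∑ X ∈ E.powerset, (-1 : ℤ) ^ X.card * (r X : ℤ)

/-- rank function of a vector configuration -/
noncomputable def rk {K : Type} [Field K] {α : Type} [DecidableEq α] {m : ℕ}
    (v : α → (Fin m → K)) (X : Finset α) : ℕ :=
  Module.finrank K (Submodule.span K (v '' (X : Set α)))

/-- the linear form of a vector -/
noncomputable def lin {K : Type} [Field K] {m : ℕ} :
    (Fin m → K) →ₗ[K] MvPolynomial (Fin m) K where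
  toFun w := ∑ i, MvPolynomial.C (w i) * MvPolynomial.X i
  map_add' := by
    intro a b; simp [add_mul, Finset.sum_add_distrib]
  map_smul' := by
    intro c a; simp [Finset.smul_sum, MvPolynomial.smul_eq_C_mul, mul_assoc]

/-- `B` is a basis of the configuration `v` on `E` -/
def IsBase {K : Type} [Field K] {α : Type} [DecidableEq α] {m : ℕ}
    (v : α → (Fin m → K)) (E B : Finset α) : Prop :=
  B ⊆ E ∧ rk v B = B.card ∧ rk v B = rk v E

/-- product of the linear forms of `E \ B` -/
noncomputable def pr {K : Type} [Field K] {α : Type} [DecidableEq α] {m : ℕ}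
    (v : α → (Fin m → K)) (D : Finset α) : MvPolynomial (Fin m) K :=
  ∏ f ∈ D, lin (v f)

/-- span of the products over the complements of the bases -/
noncomputable def Asp {K : Type} [Field K] {α : Type} [DecidableEq α] {m : ℕ}
    (v : α → (Fin m → K)) (E : Finset α) : Submodule K (MvPolynomial (Fin m) K) :=
  Submodule.span K {p | ∃ B, IsBase v E B ∧ p = pr v (E \ B)}

/-- polynomials `ψ` with `W ψ ⊆ A` -/
noncomputable def Psi {K : Type} [Field K] {α : Type} [DecidableEq α] {m : ℕ}
    (v : α → (Fin m → K)) (E : Finset α) : Submodule K (MvPolynomial (Fin m) K) where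
  carrier := {ψ | ∀ w ∈ Submodule.span K (v '' (E : Set α)), lin w * ψ ∈ Asp v E}
  add_mem' := by
    intro a b ha hb w hw
    rw [mul_add]; exact (Asp v E).add_mem (ha w hw) (hb w hw)
  zero_mem' := by
    intro w hw; rw [mul_zero]; exact (Asp v E).zero_mem
  smul_mem' := by
    intro c a ha w hw
    rw [mul_smul_comm]; exact (Asp v E).smul_mem c (ha w hw)

/-- non-splitting: `E` is not the union of two non-spanning sets -/
def Round {α : Type} [DecidableEq α] (r : Finset α → ℕ) (E : Finset α) : Prop :=
  ∀ X Y : Finset α, X ∪ Y = E → r X = r E ∨ r Y = r E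

end DC813
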