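import Pool.Agent.Helper813.DC.Defs

set_option autoImplicit false

namespace DC813
namespace Link
open Finset

variable {α : Type} [DecidableEq α]

/-- rank function of a finite matroid given by maximal independent subsets -/
theorem isRk_of_matroid (M : Matroid α) (r : Finset α → ℕ)
    (hr : ∀ X : Finset α, IsGreatest
          {k : ℕ | ∃ I : Finset α, I ⊆ X ∧ M.Indep (↑I : Set α) ∧ I.card = k} (r X)) :
    IsRk r := by
  have heRk : ∀ X : Finset α, M.eRk (X : Set α) = (r X : ℕ∞) := by
    intro X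
    obtain ⟨⟨I, hIX, hI, hIc⟩, hmax⟩ := hr X
    obtain ⟨J, hJ, hIJ⟩ := hI.subset_isBasis'_of_subset (X := (X : Set α)) (by exact_mod_cast hIX)
    have hJfin : J.Finite := (Finset.finite_toSet X).subset hJ.subset
    lift J to Finset α using hJfin
    have h1 : J.card ≤ r X := hmax ⟨J, by exact_mod_cast hJ.subset, hJ.indep, rfl⟩
    have h2 : I.card ≤ J.card := Finset.card_le_card (by exact_mod_cast hIJ)
    rw [hJ.eRk_eq_encard, Set.encard_coe_eq_coe_finsetCard]
    norm_cast
    omega
  refine ⟨?_, ?_, ?_, ?_⟩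
  · obtain ⟨⟨I, hIX, hI, hIc⟩, hmax⟩ := hr ∅
    rw [← hIc, Finset.subset_empty.1 hIX]; rfl
  · intro X Y hXY
    have := M.eRk_mono (show (X : Set α) ⊆ (Y : Set α) by exact_mod_cast hXY)
    rw [heRk, heRk] at this
    exact_mod_cast this
  · intro X e
    obtain ⟨⟨I, hIX, hI, hIc⟩, hmax⟩ := hr (insert e X)
    have h1 : (I.erase e).card ≤ r X := by
      apply (hr X).2
      refine ⟨I.erase e, ?_, ?_, rfl⟩
      · intro x hx
        rcases Finset.mem_insert.1 (hIX (Finset.mem_of_mem_erase hx)) with h | h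
        · exact absurd h (Finset.ne_of_mem_erase hx)
        · exact h
      · apply hI.subset
        intro x hx
        exact Finset.mem_of_mem_erase (by exact_mod_cast hx)
    have h2 : I.card ≤ (I.erase e).card + 1 := by
      have := Finset.pred_card_le_card_erase (s := I) (a := e)
      omega
    omega
  · intro X Y
    have := M.eRk_submod (X : Set α) (Y : Set α)
    rw [← Finset.coe_inter, ← Finset.coe_union, heRk, heRk, heRk, heRk] at this
    have h2 : r (X ∩ Y) + r (X ∪ Y) ≤ r X + r Y := by exact_mod_cast this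
    omega

theorem indep_iff (M : Matroid α) (r : Finset α → ℕ)
    (hr : ∀ X : Finset α, IsGreatest
          {k : ℕ | ∃ I : Finset α, I ⊆ X ∧ M.Indep (↑I : Set α) ∧ I.card = k} (r X))
    (I : Finset α) : M.Indep (I : Set α) ↔ r I = I.card := by
  constructor
  · intro h
    obtain ⟨⟨J, hJI, hJ, hJc⟩, hmax⟩ := hr I
    have h1 : I.card ≤ r I := hmax ⟨I, Finset.Subset.refl _, h, rfl⟩
    have h2 : J.card ≤ I.card := Finset.card_le_card hJI
    omega
  · intro h
    obtain ⟨⟨J, hJI, hJ, hJc⟩, hmax⟩ := hr I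
    have : J = I := Finset.eq_of_subset_of_card_le hJI (by omega)
    rw [← this]; exact hJ

/-- closure -/
theorem exists_flat [Fintype α] (r : Finset α → ℕ) (hr : IsRk r) (X : Finset α) :
    ∃ F : Finset α, X ⊆ F ∧ Flat r F ∧ r F = r X := by
  classical
  obtain ⟨F, hF, hmax⟩ := Finset.exists_max_image
    ((univ : Finset (Finset α)).filter (fun F => X ⊆ F ∧ r F = r X)) (fun F => F.card)
    ⟨X, by simp⟩
  rw [Finset.mem_filter] at hF
  refine ⟨F, hF.2.1, ?_, hF.2.2⟩
  intro e he
  have h1 := hr.mono F (insert e F) (Finset.subset_insert _ _)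
  rcases h1.lt_or_eq with h | h
  · exact h
  · exfalso
    have := hmax (insert e F) (by
      rw [Finset.mem_filter]
      exact ⟨Finset.mem_univ _, hF.2.1.trans (Finset.subset_insert _ _), by rw [← h, hF.2.2]⟩)
    rw [Finset.card_insert_of_notMem he] at this
    omega

theorem round_of_nonsplit [Fintype α] (r : Finset α → ℕ) (hr : IsRk r)
    (h : ¬ ∃ F₁ F₂ : Finset α,
          (∀ e, e ∉ F₁ → r F₁ < r (insert e F₁)) ∧
          (∀ e, e ∉ F₂ → r F₂ < r (insert e F₂)) ∧
          F₁ ≠ Finset.univ ∧ F₂ ≠ Finset.univ ∧ F₁ ∪ F₂ = Finset.univ) :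
    Round r univ := by
  intro X Y hXY
  by_contra hcon
  push Not at hcon
  obtain ⟨F₁, h1, h2, h3⟩ := exists_flat r hr X
  obtain ⟨F₂, h4, h5, h6⟩ := exists_flat r hr Y
  refine h ⟨F₁, F₂, h2, h5, ?_, ?_, ?_⟩
  · intro h'; apply hcon.1; rw [← h3, h']
  · intro h'; apply hcon.2; rw [← h6, h']
  · apply Finset.eq_univ_of_forall
    intro x
    have hx : x ∈ X ∪ Y := by rw [hXY]; exact Finset.mem_univ x
    rcases Finset.mem_union.1 hx with h' | h'
    · exact Finset.mem_union_left _ (h1 h')
    · exact Finset.mem_union_right _ (h4 h')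

theorem rk_eq {K : Type} [Field K] {m : ℕ} (v : α → (Fin m → K)) (M : Matroid α)
    (r : Finset α → ℕ)
    (hr : ∀ X : Finset α, IsGreatest
          {k : ℕ | ∃ I : Finset α, I ⊆ X ∧ M.Indep (↑I : Set α) ∧ I.card = k} (r X))
    (hv : ∀ I : Finset α, M.Indep (I : Set α) ↔ LinearIndepOn K v (I : Set α)) (X : Finset α) :
    rk v X = r X := by
  classical
  have hcard : ∀ I : Finset α, LinearIndepOn K v (I : Set α) → rk v I = I.card := by
    intro I hI
    unfold rk
    rw [Set.image_eq_range]
    rw [finrank_span_eq_card hI]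
    simp
  apply le_antisymm
  · -- a maximal independent subset spans
    obtain ⟨B, hBX, -, hBsp, hBi⟩ := exists_linearIndepOn_extension
      (K := K) (v := v) (s := (∅ : Set α)) (t := (X : Set α)) (linearIndepOn_empty K v)
      (Set.empty_subset _)
    have hBfin : B.Finite := (Finset.finite_toSet X).subset hBX
    lift B to Finset α using hBfin
    have h1 : rk v X ≤ rk v B := by
      unfold rk
      exact Submodule.finrank_mono (Submodule.span_le.2 hBsp)
    have h2 : rk v B = B.card := hcard B hBi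
    have h3 : B.card ≤ r X := (hr X).2 ⟨B, by exact_mod_cast hBX, (hv B).2 hBi, rfl⟩
    omega
  · obtain ⟨⟨I, hIX, hI, hIc⟩, -⟩ := hr X
    rw [← hIc, ← hcard I ((hv I).1 hI)]
    unfold rk
    exact Submodule.finrank_mono (Submodule.span_mono (Set.image_mono (by exact_mod_cast hIX)))

end Link
end DC813
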