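import Pool.Agent.Helper813.DC.B6

set_option autoImplicit false

namespace DC813
namespace RankN
open Finset

theorem rank_eq {α : Type} [Fintype α] [DecidableEq α] (n : ℕ)
    (r : Finset α → ℕ) (hr : IsRk r)
    (hs : ∀ a b : α, r {a, b} = ({a, b} : Finset α).card)
    (hχ : (∑ X : Finset α, (-1 : Polynomial ℤ) ^ X.card * Polynomial.X ^ (r Finset.univ - r X))
        = ∏ i ∈ Finset.Icc 1 n, (Polynomial.X - Polynomial.C (i : ℤ))) :
    r univ = n := by
  classical
  obtain ⟨q0, q1, q2, q3, q4⟩ := B6.j13629_Q n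
  rw [← hχ] at q0 q1 q2 q3 q4
  have hS0 : ∑ X ∈ (univ : Finset (Finset α)).filter (fun X => r X = 0), (-1 : ℤ) ^ X.card = 1 := by
    have h1 : (univ : Finset (Finset α)).filter (fun X => r X = 0) = {∅} := by
      ext X
      rw [Finset.mem_filter, Finset.mem_singleton, B6.j13629_zero_iff r hr hs X]
      simp
    rw [h1, Finset.sum_singleton, Finset.card_empty, pow_zero]
  have p0 := B6.j13629_P r hr 0 (by norm_num)
  rw [hS0, Nat.sub_zero] at p0
  rcases lt_trichotomy (r univ) n with h | h | h
  · have := B6.j13629_P_high r (n + 3) (by omega)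
    rw [q1] at this
    omega
  · exact h
  · have := q0 (r univ + 3) (by omega)
    rw [p0] at this
    omega

end RankN
end DC813
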